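import Mathlib

set_option autoImplicit false

namespace Pool.Agent.Helper734.TP

/-- the partial derivative with respect to the `j`-th variable -/
noncomputable def pd {n : ℕ} (j : Fin n) (h : (Fin n → ℂ) → ℂ) : (Fin n → ℂ) → ℂ :=
  fun w => fderiv ℂ h w (Pi.single j (1 : ℂ) : Fin n → ℂ)

/-- `D^m g` -/
noncomputable def dpow {n : ℕ} (m : Fin n →₀ ℕ) (g : (Fin n → ℂ) → ℂ) : (Fin n → ℂ) → ℂ :=
  (List.finRange n).foldr (fun (j : Fin n) (g : (Fin n → ℂ) → ℂ) => (pd j)^[m j] g) g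

/-- `T_P f = P*(D)(P f)` -/
noncomputable def Tmap {n : ℕ} (P : MvPolynomial (Fin n) ℂ) (f : (Fin n → ℂ) → ℂ) :
    (Fin n → ℂ) → ℂ :=
  fun z => ∑ m ∈ P.support, (starRingEnd ℂ) (P.coeff m) *
    dpow m (fun w : Fin n → ℂ => MvPolynomial.eval w P * f w) z

/-- `P(U z + a)` -/
noncomputable def sub {n : ℕ} (U : Matrix (Fin n) (Fin n) ℂ) (a : Fin n → ℂ)
    (P : MvPolynomial (Fin n) ℂ) : MvPolynomial (Fin n) ℂ :=
  MvPolynomial.bind₁ (fun i => ∑ j, MvPolynomial.C (U i j) * MvPolynomial.X j +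
    MvPolynomial.C (a i)) P

end Pool.Agent.Helper734.TP
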