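import Mathlib
import Pool.Agent.Helper734.Tay
import Pool.Agent.Helper734.TP.Defs

set_option autoImplicit false

namespace Pool.Agent.Helper734.TP

/-- `f` is the sum of the everywhere convergent power series with coefficients `c` -/
def Ser {n : ℕ} (c : (Fin n → ℕ) → ℂ) (f : (Fin n → ℂ) → ℂ) : Prop :=
  ∀ z, HasSum (fun α : Fin n → ℕ => c α * ∏ i, z i ^ α i) (f z)

/-- the coefficients of `P f` -/
noncomputable def mulc {n : ℕ} (P : MvPolynomial (Fin n) ℂ) (c : (Fin n → ℕ) → ℂ)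
    (γ : Fin n → ℕ) : ℂ :=
  ∑ m ∈ P.support, if ∀ i, m i ≤ γ i then P.coeff m * c (fun i => γ i - m i) else 0

/-- `α!` -/
def fac {n : ℕ} (α : Fin n → ℕ) : ℕ := ∏ i, (α i).factorial

/-- the weight of a multi-index -/
def wt {n : ℕ} (w α : Fin n → ℕ) : ℕ := ∑ i, α i * w i

/-- decay faster than every exponential -/
def Dec (b : ℕ → ℂ) : Prop := ∀ ρ : ℝ, 0 < ρ → ∃ M : ℝ, ∀ k, ‖b k‖ * ρ ^ k ≤ M

/-- decay faster than every exponential -/
def DecN {n : ℕ} (c : (Fin n → ℕ) → ℂ) : Prop :=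
  ∀ ρ : ℝ, 0 < ρ → ∃ M : ℝ, ∀ α, ‖c α‖ * ρ ^ (∑ i, α i) ≤ M

/-- the coefficients of the product of the polynomial `q` and the power series `b` -/
noncomputable def cv (N : ℕ) (q b : ℕ → ℂ) (k : ℕ) : ℂ :=
  ∑ i ∈ Finset.range (N + 1), if i ≤ k then q i * b (k - i) else 0

/-- `P*(D) g` -/
noncomputable def op {n : ℕ} (P : MvPolynomial (Fin n) ℂ) (g : (Fin n → ℂ) → ℂ) :
    (Fin n → ℂ) → ℂ :=
  fun z => ∑ m ∈ P.support, (starRingEnd ℂ) (P.coeff m) * dpow m g z

/-- `z ↦ U z + a` -/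
def aff {n : ℕ} (U : Matrix (Fin n) (Fin n) ℂ) (a : Fin n → ℂ) (z : Fin n → ℂ) : Fin n → ℂ :=
  fun i => ∑ j, U i j * z j + a i

/-- the exponential factor `exp(-⟨U z, a⟩)` -/
noncomputable def ef {n : ℕ} (U : Matrix (Fin n) (Fin n) ℂ) (a : Fin n → ℂ) (z : Fin n → ℂ) : ℂ :=
  Complex.exp (-∑ j, (∑ i, U i j * (starRingEnd ℂ) (a i)) * z j)

/-- the Taylor series of an entire function of `n` variables, with Cauchy's estimates -/
theorem taylor {n : ℕ} (f : (Fin n → ℂ) → ℂ) (hf : Differentiable ℂ f) :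
    ∃ c : (Fin n → ℕ) → ℂ,
      (∀ ρ M : ℝ, 0 < ρ → (∀ z, ‖z‖ ≤ ρ → ‖f z‖ ≤ M) → ∀ α, ‖c α‖ * ρ ^ (∑ i, α i) ≤ M) ∧
      Ser c f := Pool.Agent.Helper734.Tay.taylor f hf


/-! ### jU -/

theorem jU_one_var (B : ℕ → ℂ) (h : ∀ s : ℂ, HasSum (fun k => s ^ k * B k) 0) (k : ℕ) : B k = 0 := by
  have h1 : HasFPowerSeriesAt (0 : ℂ → ℂ) (FormalMultilinearSeries.ofScalars ℂ B) 0 := by
    rw [hasFPowerSeriesAt_iff]
    refine Filter.Eventually.of_forall fun z => ?_
    simpa [FormalMultilinearSeries.coeff_ofScalars] using h z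
  have h2 := h1.eq_zero
  have h3 : (FormalMultilinearSeries.ofScalars ℂ B).coeff k = B k :=
    FormalMultilinearSeries.coeff_ofScalars
  rw [← h3, h2]
  rfl

/-- uniqueness of the coefficients -/
theorem ser_unique {n : ℕ} (c : (Fin n → ℕ) → ℂ) (h : Ser c (fun _ => 0)) (α : Fin n → ℕ) :
    c α = 0 := by
  induction n with
  | zero =>
    have h1 := h 0
    have h2 := hasSum_unique (fun α : Fin 0 → ℕ => c α * ∏ i, (0 : Fin 0 → ℂ) i ^ α i)
    have h3 := h2.unique h1
    simp at h3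
    rw [← h3]
    congr 1
    exact Subsingleton.elim _ _
  | succ n ih =>
    have hk : ∀ (z' : Fin n → ℂ) (s : ℂ), HasSum (fun p : ℕ × (Fin n → ℕ) =>
        s ^ p.1 * (c (Fin.cons p.1 p.2) * ∏ i, z' i ^ p.2 i)) 0 := by
      intro z' s
      have h1 := h (Fin.cons s z')
      rw [← (Fin.consEquiv (fun _ : Fin (n + 1) => ℕ)).hasSum_iff] at h1
      refine h1.congr_fun ?_
      intro p
      simp only [Function.comp_apply, Fin.consEquiv, Equiv.coe_fn_mk, Fin.prod_univ_succ,
        Fin.cons_zero, Fin.cons_succ]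
      ring
    have hsummable : ∀ (z' : Fin n → ℂ) (k : ℕ),
        Summable (fun β : Fin n → ℕ => c (Fin.cons k β) * ∏ i, z' i ^ β i) := by
      intro z' k
      have h1 := (hk z' 1).summable.prod_factor k
      simpa using h1
    have hB : ∀ (z' : Fin n → ℂ) (k : ℕ),
        ∑' β : Fin n → ℕ, c (Fin.cons k β) * ∏ i, z' i ^ β i = 0 := by
      intro z'
      refine jU_one_var (fun k => ∑' β : Fin n → ℕ, c (Fin.cons k β) * ∏ i, z' i ^ β i) fun s => ?_
      refine HasSum.prod_fiberwise (hk z' s) fun k => ?_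
      exact (hsummable z' k).hasSum.mul_left (s ^ k)
    have hser : Ser (fun β : Fin n → ℕ => c (Fin.cons (α 0) β)) (fun _ => 0) := by
      intro z'
      have h1 := (hsummable z' (α 0)).hasSum
      rw [hB z' (α 0)] at h1
      exact h1
    have h1 := ih _ hser (Fin.tail α)
    simpa using h1

/-! ### jDf -/

/-- everywhere convergent power series are entire -/
theorem ser_diff {n : ℕ} (c : (Fin n → ℕ) → ℂ) (g : (Fin n → ℂ) → ℂ) (h : Ser c g) :
    Differentiable ℂ g := by
  classical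
  set t : (Fin n → ℕ) → (Fin n → ℂ) → ℂ := fun α z => c α * ∏ i, z i ^ α i with ht
  have hg : g = fun z => ∑' α, t α z := by
    funext z
    exact ((h z).tsum_eq).symm
  have htd : ∀ α, Differentiable ℂ (t α) := by
    intro α
    simp only [ht]
    fun_prop
  intro z0
  set R : ℝ := ‖z0‖ + 1 with hR
  have hRpos : 0 < R := by positivity
  have hU : Summable (fun α : Fin n → ℕ => ‖c α‖ * ∏ i, (2 * R) ^ α i) := by
    have h1 := (h (fun _ => ((2 * R : ℝ) : ℂ))).summable.norm
    refine h1.congr fun α => ?_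
    rw [norm_mul, norm_prod]
    congr 1
    refine Finset.prod_congr rfl fun i _ => ?_
    rw [norm_pow, Complex.norm_real, Real.norm_of_nonneg (by positivity)]
  have htb : ∀ α (w : Fin n → ℂ), ‖w‖ ≤ 2 * R → ‖t α w‖ ≤ ‖c α‖ * ∏ i, (2 * R) ^ α i := by
    intro α w hw
    simp only [ht, norm_mul, norm_prod, norm_pow]
    refine mul_le_mul_of_nonneg_left (Finset.prod_le_prod (fun i _ => by positivity)
      fun i _ => ?_) (norm_nonneg _)
    exact pow_le_pow_left₀ (norm_nonneg _) ((norm_le_pi_norm w i).trans hw) _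
  have hfd : ∀ α (z : Fin n → ℂ), z ∈ Metric.ball (0 : Fin n → ℂ) R →
      ‖fderiv ℂ (t α) z‖ ≤ (‖c α‖ * ∏ i, (2 * R) ^ α i) / R := by
    intro α z hz
    rw [mem_ball_zero_iff] at hz
    have hU0 : 0 ≤ ‖c α‖ * ∏ i : Fin n, (2 * R) ^ α i := by positivity
    refine ContinuousLinearMap.opNorm_le_bound _ (by positivity) fun v => ?_
    by_cases hv : v = 0
    · rw [hv]; simp
    · have hvn : 0 < ‖v‖ := norm_pos_iff.2 hv
      set φ : ℂ → ℂ := fun s => t α (z + s • v) with hφ
      have hφd : Differentiable ℂ φ := by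
        apply (htd α).comp
        fun_prop
      have hder : HasDerivAt φ (fderiv ℂ (t α) z v) 0 := by
        have h1 : HasDerivAt (fun s : ℂ => z + s • v) v 0 := by
          have := ((hasDerivAt_id (0 : ℂ)).smul_const v).const_add z
          simpa using this
        have h2 : HasFDerivAt (t α) (fderiv ℂ (t α) z) (z + (0 : ℂ) • v) := by
          rw [zero_smul, add_zero]
          exact (htd α z).hasFDerivAt
        exact h2.comp_hasDerivAt 0 h1
      have hC := Complex.norm_deriv_le_of_forall_mem_sphere_norm_le (c := 0) (R := R / ‖v‖)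
        (C := ‖c α‖ * ∏ i, (2 * R) ^ α i) (f := φ) (by positivity) hφd.diffContOnCl (by
          intro s hs
          apply htb
          rw [mem_sphere_zero_iff_norm] at hs
          calc ‖z + s • v‖ ≤ ‖z‖ + ‖s • v‖ := norm_add_le _ _
            _ = ‖z‖ + R / ‖v‖ * ‖v‖ := by rw [norm_smul, hs]
            _ = ‖z‖ + R := by rw [div_mul_cancel₀ _ hvn.ne']
            _ ≤ 2 * R := by linarith)
      rw [hder.deriv] at hC
      refine hC.trans (le_of_eq ?_)
      field_simp
  have key := hasFDerivAt_tsum_of_isPreconnected (𝕜 := ℂ) (f := t) (f' := fun α z => fderiv ℂ (t α) z)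
    (u := fun α : Fin n → ℕ => (‖c α‖ * ∏ i, (2 * R) ^ α i) / R)
    (s := Metric.ball (0 : Fin n → ℂ) R) (x₀ := 0) (x := z0)
    (hU.div_const R) Metric.isOpen_ball (convex_ball _ _).isPreconnected
    (fun α z _ => (htd α z).hasFDerivAt) hfd (Metric.mem_ball_self hRpos) (h 0).summable
    (by rw [mem_ball_zero_iff]; linarith)
  rw [hg]
  exact key.differentiableAt

/-! ### jPd -/

/-- term by term differentiation -/
theorem ser_pd {n : ℕ} (j : Fin n) (c : (Fin n → ℕ) → ℂ) (g : (Fin n → ℂ) → ℂ) (h : Ser c g) :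
    Ser (fun α => ((α j : ℂ) + 1) * c (Function.update α j (α j + 1))) (pd j g) := by
  intro z
  have hg := ser_diff c g h
  have hprod : ∀ (t : ℂ) (α : Fin n → ℕ), ∏ i, (Function.update z j t) i ^ α i
      = (∏ i ∈ Finset.univ.erase j, z i ^ α i) * t ^ α j := by
    intro t α
    rw [← Finset.prod_erase_mul _ _ (Finset.mem_univ j)]
    congr 1
    · apply Finset.prod_congr rfl
      intro i hi
      rw [Function.update_of_ne (Finset.ne_of_mem_erase hi)]
    · simp
  have hG : ∀ t : ℂ, HasSum (fun α => (c α * ∏ i ∈ Finset.univ.erase j, z i ^ α i) * t ^ α j)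
      (g (Function.update z j t)) := by
    intro t
    have h1 := h (Function.update z j t)
    simp only [hprod] at h1
    convert h1 using 2
    ring
  have hGt : (fun t => g (Function.update z j t))
      = fun t => ∑' α, (c α * ∏ i ∈ Finset.univ.erase j, z i ^ α i) * t ^ α j :=
    funext fun t => (hG t).tsum_eq.symm
  obtain ⟨R, hR1, hRz⟩ : ∃ R : ℝ, 1 ≤ R ∧ ‖z j‖ < R := ⟨‖z j‖ + 1, by
    have := norm_nonneg (z j); linarith, by linarith⟩
  have hbound : ∀ (α : Fin n → ℕ) (y : ℂ), y ∈ Metric.ball (0:ℂ) R →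
      ‖(c α * ∏ i ∈ Finset.univ.erase j, z i ^ α i) * ((α j : ℂ) * y ^ (α j - 1))‖
        ≤ ‖(c α * ∏ i ∈ Finset.univ.erase j, z i ^ α i) * ((2 * R : ℝ) : ℂ) ^ α j‖ := by
    intro α y hy
    rw [norm_mul, norm_mul _ ((((2 * R : ℝ) : ℂ)) ^ α j)]
    apply mul_le_mul_of_nonneg_left _ (norm_nonneg _)
    have hyR : ‖y‖ ≤ R := by
      rw [mem_ball_zero_iff] at hy
      exact hy.le
    rw [norm_mul, norm_pow, norm_pow, Complex.norm_natCast, Complex.norm_real,
      Real.norm_of_nonneg (by linarith : (0:ℝ) ≤ 2 * R), mul_pow]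
    have h2 : ((α j : ℕ) : ℝ) ≤ 2 ^ α j := by
      exact_mod_cast (Nat.lt_two_pow_self (n := α j)).le
    have h3 : ‖y‖ ^ (α j - 1) ≤ R ^ α j :=
      le_trans (pow_le_pow_left₀ (norm_nonneg _) hyR _) (pow_le_pow_right₀ hR1 (Nat.sub_le _ _))
    exact mul_le_mul h2 h3 (by positivity) (by positivity)
  have hsum : Summable (fun α : Fin n → ℕ =>
      ‖(c α * ∏ i ∈ Finset.univ.erase j, z i ^ α i) * ((2 * R : ℝ) : ℂ) ^ α j‖) :=
    (hG _).summable.norm
  have hzR : z j ∈ Metric.ball (0:ℂ) R := by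
    rw [mem_ball_zero_iff]; exact hRz
  have hder : HasDerivAt (fun t => ∑' α, (c α * ∏ i ∈ Finset.univ.erase j, z i ^ α i) * t ^ α j)
      (∑' α : Fin n → ℕ, (c α * ∏ i ∈ Finset.univ.erase j, z i ^ α i)
        * ((α j : ℂ) * z j ^ (α j - 1))) (z j) := by
    apply hasDerivAt_tsum_of_isPreconnected hsum Metric.isOpen_ball
      (convex_ball (0:ℂ) R).isPreconnected
      (g := fun α t => (c α * ∏ i ∈ Finset.univ.erase j, z i ^ α i) * t ^ α j)
      (g' := fun α y => (c α * ∏ i ∈ Finset.univ.erase j, z i ^ α i)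
        * ((α j : ℂ) * y ^ (α j - 1))) (y₀ := z j)
    · intro α y _
      exact (hasDerivAt_pow (α j) y).const_mul _
    · exact hbound
    · exact hzR
    · exact (hG (z j)).summable
    · exact hzR
  have hchain : HasDerivAt (fun t => g (Function.update z j t)) (pd j g z) (z j) := by
    have h1 : HasDerivAt (Function.update z j) (Pi.single j (1:ℂ)) (z j) :=
      hasDerivAt_update z j (z j)
    have h2 : HasFDerivAt g (fderiv ℂ g z) (Function.update z j (z j)) := by
      rw [Function.update_eq_self]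
      exact (hg z).hasFDerivAt
    exact h2.comp_hasDerivAt (z j) h1
  have hval : pd j g z = ∑' α : Fin n → ℕ, (c α * ∏ i ∈ Finset.univ.erase j, z i ^ α i)
        * ((α j : ℂ) * z j ^ (α j - 1)) := by
    rw [hGt] at hchain
    exact hchain.unique hder
  have hsd : Summable (fun α : Fin n → ℕ => (c α * ∏ i ∈ Finset.univ.erase j, z i ^ α i)
        * ((α j : ℂ) * z j ^ (α j - 1))) :=
    Summable.of_norm_bounded hsum (fun α => hbound α (z j) hzR)
  have hfin : HasSum (fun α : Fin n → ℕ => (c α * ∏ i ∈ Finset.univ.erase j, z i ^ α i)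
        * ((α j : ℂ) * z j ^ (α j - 1))) (pd j g z) := by
    rw [hval]
    exact hsd.hasSum
  have hinj : Function.Injective (fun β : Fin n → ℕ => Function.update β j (β j + 1)) := by
    intro β γ hβγ
    funext i
    have h1 := congrFun hβγ i
    by_cases hi : i = j
    · subst hi
      simpa using h1
    · simpa [Function.update_of_ne hi] using h1
  have hre := (hinj.hasSum_iff (f := fun α : Fin n → ℕ =>
      (c α * ∏ i ∈ Finset.univ.erase j, z i ^ α i) * ((α j : ℂ) * z j ^ (α j - 1)))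
      (a := pd j g z) ?_).mpr hfin
  · convert hre using 2 with α
    simp only [Function.comp, Function.update_self, Nat.add_sub_cancel]
    rw [← Finset.prod_erase_mul _ _ (Finset.mem_univ j)]
    have hp : ∏ i ∈ Finset.univ.erase j, z i ^ (Function.update α j (α j + 1)) i
        = ∏ i ∈ Finset.univ.erase j, z i ^ α i := by
      apply Finset.prod_congr rfl
      intro i hi
      rw [Function.update_of_ne (Finset.ne_of_mem_erase hi)]
    rw [hp]
    push_cast
    ring
  · intro α hα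
    have h0 : α j = 0 := by
      by_contra hne
      apply hα
      refine ⟨Function.update α j (α j - 1), ?_⟩
      funext i
      by_cases hi : i = j
      · subst hi
        simp
        omega
      · simp [Function.update_of_ne hi]
    simp [h0]

/-! ### jIt -/

theorem ser_pd_iter {n : ℕ} (j : Fin n) (k : ℕ) (c : (Fin n → ℕ) → ℂ) (g : (Fin n → ℂ) → ℂ)
    (h : Ser c g) :
    Ser (fun α => (((α j + k).factorial : ℂ) / ((α j).factorial : ℂ)) *
      c (Function.update α j (α j + k))) ((pd j)^[k] g) := by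
  induction k with
  | zero =>
    have e : (fun α : Fin n → ℕ => (((α j + 0).factorial : ℂ) / ((α j).factorial : ℂ)) *
        c (Function.update α j (α j + 0))) = c := by
      funext α
      rw [add_zero, Function.update_eq_self, div_self, one_mul]
      exact_mod_cast (Nat.factorial_pos _).ne'
    rw [e]
    exact h
  | succ k ih =>
    rw [Function.iterate_succ_apply']
    have h2 := ser_pd j _ _ ih
    have e : (fun α : Fin n → ℕ => (((α j + (k + 1)).factorial : ℂ) / ((α j).factorial : ℂ)) *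
        c (Function.update α j (α j + (k + 1)))) = fun α : Fin n → ℕ => ((α j : ℂ) + 1) *
        ((((Function.update α j (α j + 1) j + k).factorial : ℂ) /
          ((Function.update α j (α j + 1) j).factorial : ℂ)) *
          c (Function.update (Function.update α j (α j + 1)) j
            (Function.update α j (α j + 1) j + k))) := by
      funext α
      rw [Function.update_self, Function.update_idem]
      have e1 : α j + 1 + k = α j + (k + 1) := by ring
      rw [e1, Nat.factorial_succ (α j)]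
      have h3 : ((α j).factorial : ℂ) ≠ 0 := by exact_mod_cast (Nat.factorial_pos _).ne'
      have h4 : ((α j : ℂ) + 1) ≠ 0 := by exact_mod_cast Nat.succ_ne_zero (α j)
      push_cast
      field_simp
    rw [e]
    exact h2

theorem jIt_ser_dpow_aux {n : ℕ} (m : Fin n →₀ ℕ) (d : (Fin n → ℕ) → ℂ) (g : (Fin n → ℂ) → ℂ)
    (h : Ser d g) (l : List (Fin n)) (hl : l.Nodup) :
    Ser (fun β => (∏ i ∈ l.toFinset, (((β i + m i).factorial : ℂ) / ((β i).factorial : ℂ))) *
      d (fun i => if i ∈ l then β i + m i else β i))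
      (l.foldr (fun (j : Fin n) (g : (Fin n → ℂ) → ℂ) => (pd j)^[m j] g) g) := by
  induction l with
  | nil =>
    have e : (fun β : Fin n → ℕ => (∏ i ∈ ([] : List (Fin n)).toFinset,
        (((β i + m i).factorial : ℂ) / ((β i).factorial : ℂ))) *
        d (fun i => if i ∈ ([] : List (Fin n)) then β i + m i else β i)) = d := by
      funext β
      simp
    rw [e]
    exact h
  | cons a l ih =>
    rw [List.nodup_cons] at hl
    have h2 := ser_pd_iter a (m a) _ _ (ih hl.2)
    rw [List.foldr_cons]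
    refine (congrArg (fun c => Ser c _) ?_).mp h2
    funext β
    rw [List.toFinset_cons, Finset.prod_insert (by simpa using hl.1), mul_assoc]
    congr 1
    congr 1
    · apply Finset.prod_congr rfl
      intro i hi
      have hia : i ≠ a := by
        rintro rfl
        exact hl.1 (List.mem_toFinset.1 hi)
      rw [Function.update_of_ne hia]
    · congr 1
      funext i
      by_cases hia : i = a
      · subst hia
        rw [if_neg hl.1, Function.update_self, if_pos (by simp)]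
      · rw [Function.update_of_ne hia]
        simp [hia]

theorem ser_dpow {n : ℕ} (m : Fin n →₀ ℕ) (d : (Fin n → ℕ) → ℂ) (g : (Fin n → ℂ) → ℂ)
    (h : Ser d g) :
    Ser (fun β => ((fac (fun i => β i + m i) : ℂ) / (fac β : ℂ)) * d (fun i => β i + m i))
      (dpow m g) := by
  have h2 := jIt_ser_dpow_aux m d g h (List.finRange n) (List.nodup_finRange n)
  refine (congrArg (fun c => Ser c _) ?_).mp h2
  funext β
  have e1 : (List.finRange n).toFinset = Finset.univ := by
    ext i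
    simp
  rw [e1]
  have e2 : (fun i => if i ∈ List.finRange n then β i + m i else β i) = fun i => β i + m i := by
    funext i
    rw [if_pos (List.mem_finRange i)]
  rw [e2, Finset.prod_div_distrib]
  unfold fac
  push_cast
  rfl

/-! ### jMu -/

theorem jMu_HasSum.congr_fun705 {ι : Type*} {f g : ι → ℂ} {a : ℂ} (h : HasSum g a)
    (hfg : ∀ x, f x = g x) : HasSum f a := by
  have : f = g := funext hfg
  rw [this]
  exact h



theorem ser_mul {n : ℕ} (P : MvPolynomial (Fin n) ℂ) (c : (Fin n → ℕ) → ℂ)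
    (f : (Fin n → ℂ) → ℂ) (h : Ser c f) :
    Ser (mulc P c) (fun w => MvPolynomial.eval w P * f w) := by
  intro z
  have key : ∀ m ∈ P.support, HasSum (fun γ : Fin n → ℕ =>
      (if ∀ i, m i ≤ γ i then P.coeff m * c (fun i => γ i - m i) else 0) * ∏ i, z i ^ γ i)
      (P.coeff m * (∏ i, z i ^ m i) * f z) := by
    intro m _
    have hinj : Function.Injective (fun α : Fin n → ℕ => (fun i => α i + m i : Fin n → ℕ)) := by
      intro a b hab
      funext i
      have := congrFun hab i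
      simpa using this
    have hz : ∀ γ : Fin n → ℕ, γ ∉ Set.range (fun α : Fin n → ℕ => (fun i => α i + m i : Fin n → ℕ)) →
        (if ∀ i, m i ≤ γ i then P.coeff m * c (fun i => γ i - m i) else 0) * ∏ i, z i ^ γ i = 0 := by
      intro γ hγ
      have hn : ¬ ∀ i, m i ≤ γ i := by
        intro hall
        apply hγ
        refine ⟨fun i => γ i - m i, ?_⟩
        funext i
        exact Nat.sub_add_cancel (hall i)
      rw [if_neg hn, zero_mul]
    rw [← hinj.hasSum_iff hz]
    have h1 := (h z).mul_left (P.coeff m * (∏ i, z i ^ m i))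
    refine jMu_HasSum.congr_fun705 h1 ?_
    intro α
    simp only [Function.comp]
    have hp : ∀ i, m i ≤ α i + m i := fun i => Nat.le_add_left _ _
    rw [if_pos hp]
    have e1 : (fun i => α i + m i - m i) = α := by
      funext i
      exact Nat.add_sub_cancel _ _
    rw [e1]
    have e2 : ∏ i, z i ^ (α i + m i) = (∏ i, z i ^ α i) * ∏ i, z i ^ m i := by
      rw [← Finset.prod_mul_distrib]
      exact Finset.prod_congr rfl (fun i _ => pow_add _ _ _)
    rw [e2]
    ring
  have hs := hasSum_sum key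
  have hv : MvPolynomial.eval z P * f z = ∑ m ∈ P.support, P.coeff m * (∏ i, z i ^ m i) * f z := by
    rw [MvPolynomial.eval_eq', Finset.sum_mul]
  have hf : (fun γ : Fin n → ℕ => mulc P c γ * ∏ i, z i ^ γ i) = fun γ : Fin n → ℕ =>
      ∑ m ∈ P.support,
      (if ∀ i, m i ≤ γ i then P.coeff m * c (fun i => γ i - m i) else 0) * ∏ i, z i ^ γ i := by
    funext γ
    unfold mulc
    rw [Finset.sum_mul]
  show HasSum (fun γ : Fin n → ℕ => mulc P c γ * ∏ i, z i ^ γ i) (MvPolynomial.eval z P * f z)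
  rw [hf, hv]
  exact hs

/-! ### jTc -/

/-- the coefficients of `T_P f` -/
theorem tp_coef {n : ℕ} (P : MvPolynomial (Fin n) ℂ) (c : (Fin n → ℕ) → ℂ)
    (f : (Fin n → ℂ) → ℂ) (h : Ser c f) (h0 : ∀ z, Tmap P f z = 0) (β : Fin n → ℕ) :
    ∑ m ∈ P.support, (starRingEnd ℂ) (P.coeff m) *
      ((fac (fun i => β i + m i) : ℂ) * mulc P c (fun i => β i + m i)) = 0 := by
  have h1 : ∀ m : Fin n →₀ ℕ, Ser (fun β => ((fac (fun i => β i + m i) : ℂ) / (fac β : ℂ)) *
      mulc P c (fun i => β i + m i)) (dpow m (fun w : Fin n → ℂ => MvPolynomial.eval w P * f w)) :=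
    fun m => ser_dpow m _ _ (ser_mul P c f h)
  have h2 : Ser (fun β : Fin n → ℕ => ∑ m ∈ P.support, (starRingEnd ℂ) (P.coeff m) *
      (((fac (fun i => β i + m i) : ℂ) / (fac β : ℂ)) * mulc P c (fun i => β i + m i)))
      (fun _ => 0) := by
    intro z
    have h3 : HasSum (fun α : Fin n → ℕ => ∑ m ∈ P.support, (starRingEnd ℂ) (P.coeff m) *
        ((((fac (fun i => α i + m i) : ℂ) / (fac α : ℂ)) * mulc P c (fun i => α i + m i)) *
          ∏ i, z i ^ α i)) (Tmap P f z) := by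
      unfold Tmap
      apply hasSum_sum
      intro m _
      exact (h1 m z).mul_left _
    rw [h0 z] at h3
    convert h3 using 1
    funext α
    rw [Finset.sum_mul]
    apply Finset.sum_congr rfl
    intro m _
    ring
  have h4 := ser_unique _ h2 β
  have hf : (fac β : ℂ) ≠ 0 := by
    have : fac β ≠ 0 := by
      unfold fac
      exact Finset.prod_ne_zero_iff.2 (fun i _ => Nat.factorial_ne_zero _)
    exact_mod_cast this
  have h5 : ∑ m ∈ P.support, (starRingEnd ℂ) (P.coeff m) *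
      ((fac (fun i => β i + m i) : ℂ) * mulc P c (fun i => β i + m i)) =
      (fac β : ℂ) * ∑ m ∈ P.support, (starRingEnd ℂ) (P.coeff m) *
      (((fac (fun i => β i + m i) : ℂ) / (fac β : ℂ)) * mulc P c (fun i => β i + m i)) := by
    rw [Finset.mul_sum]
    apply Finset.sum_congr rfl
    intro m _
    field_simp
  rw [h5, h4, mul_zero]

/-! ### jMz -/

theorem jMz_Ser.continuous {n : ℕ} (c : (Fin n → ℕ) → ℂ)
    (f : (Fin n → ℂ) → ℂ) (h : Ser c f) : Continuous f := by
  rw [continuous_iff_continuousAt]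
  intro z
  have hf : f = fun u => ∑' α : Fin n → ℕ, c α * ∏ i, u i ^ α i := by
    funext u
    exact (h u).tsum_eq.symm
  have hsum : Summable (fun α : Fin n → ℕ => ‖c α * ∏ i, ((‖z i‖ + 1 : ℝ) : ℂ) ^ α i‖) :=
    (h (fun i => ((‖z i‖ + 1 : ℝ) : ℂ))).summable.norm
  have hon : ContinuousOn (fun u : Fin n → ℂ => ∑' α : Fin n → ℕ, c α * ∏ i, u i ^ α i)
      {u | ∀ i, ‖u i‖ ≤ ‖z i‖ + 1} := by
    apply continuousOn_tsum _ hsum
    · intro α u hu
      rw [norm_mul, norm_mul, norm_prod, norm_prod]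
      apply mul_le_mul_of_nonneg_left _ (norm_nonneg _)
      apply Finset.prod_le_prod
      · intro i _; exact norm_nonneg _
      · intro i _
        rw [norm_pow, norm_pow]
        apply pow_le_pow_left₀ (norm_nonneg _)
        rw [Complex.norm_real, Real.norm_of_nonneg (by positivity)]
        exact hu i
    · intro α
      apply Continuous.continuousOn
      fun_prop
  rw [hf]
  apply hon.continuousAt
  have : {u : Fin n → ℂ | ∀ i, ‖u i‖ ≤ ‖z i‖ + 1} = ⋂ i, {u : Fin n → ℂ | ‖u i‖ ≤ ‖z i‖ + 1} := by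
    ext u; simp
  rw [this, Filter.iInter_mem]
  intro i
  have hc : Continuous (fun u : Fin n → ℂ => ‖u i‖) := by fun_prop
  have h2 : ∀ᶠ u in nhds z, ‖u i‖ < ‖z i‖ + 1 :=
    hc.continuousAt.eventually_lt continuousAt_const (by simp)
  filter_upwards [h2] with u hu
  exact hu.le

/-- if all coefficients of `P f` vanish then `f = 0` -/
theorem mulc_zero {n : ℕ} (P : MvPolynomial (Fin n) ℂ) (hP : P ≠ 0) (c : (Fin n → ℕ) → ℂ)
    (f : (Fin n → ℂ) → ℂ) (h : Ser c f) (h0 : ∀ γ, mulc P c γ = 0) : ∀ z, f z = 0 := by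
  intro z
  by_contra hz
  have hmul : ∀ w, MvPolynomial.eval w P * f w = 0 := fun w => by
    have h1 := ser_mul P c f h w
    simp only [h0, zero_mul] at h1
    exact h1.unique hasSum_zero
  obtain ⟨w0, hw0⟩ : ∃ w0, MvPolynomial.eval w0 P ≠ 0 := by
    by_contra hc
    push Not at hc
    exact hP (MvPolynomial.funext (fun x => by simpa using hc x))
  have hcont := jMz_Ser.continuous c f h
  obtain ⟨q, hqdef⟩ : ∃ q : Polynomial ℂ, q = MvPolynomial.eval₂ Polynomial.C
    (fun i => Polynomial.C (z i) + Polynomial.X * Polynomial.C (w0 i - z i)) P := ⟨_, rfl⟩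
  have hq : ∀ t : ℂ, q.eval t = MvPolynomial.eval (fun i => z i + t * (w0 i - z i)) P := by
    intro t
    have h1 := MvPolynomial.eval₂_comp_left (Polynomial.evalRingHom t) Polynomial.C
      (fun i => Polynomial.C (z i) + Polynomial.X * Polynomial.C (w0 i - z i)) P
    rw [← hqdef] at h1
    rw [Polynomial.coe_evalRingHom] at h1
    rw [h1, MvPolynomial.eval, MvPolynomial.eval₂Hom]
    congr 1
    · ext x; simp
    · funext i; simp
  have hF : Continuous (fun t : ℂ => f (fun i => z i + t * (w0 i - z i))) :=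
    hcont.comp (by fun_prop)
  have hF0 : (fun t : ℂ => f (fun i => z i + t * (w0 i - z i))) 0 ≠ 0 := by
    simpa using hz
  have hev := hF.continuousAt.eventually_ne hF0
  have hinf : Set.Infinite {t : ℂ | q.IsRoot t} := by
    apply infinite_of_mem_nhds (0 : ℂ)
    filter_upwards [hev] with t ht
    have h1 := hmul (fun i => z i + t * (w0 i - z i))
    rw [← hq t] at h1
    exact (mul_eq_zero.mp h1).resolve_right ht
  have hq0 := Polynomial.eq_zero_of_infinite_isRoot q hinf
  have h1 := hq 1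
  rw [hq0] at h1
  simp at h1
  exact hw0 h1.symm

/-! ### jQh -/

/-- finite set of the multi-indices of weight `K` -/
def jQh_SK972 {n : ℕ} (w : Fin n → ℕ) (K : ℕ) : Finset (Fin n → ℕ) :=
  (Fintype.piFinset (fun _ => Finset.range (K + 1))).filter (fun γ => wt w γ = K)

theorem jQh_mem_SK972 {n : ℕ} (w : Fin n → ℕ) (hw : ∀ i, 0 < w i) (K : ℕ) (γ : Fin n → ℕ) :
    γ ∈ jQh_SK972 w K ↔ wt w γ = K := by
  unfold jQh_SK972
  rw [Finset.mem_filter, Fintype.mem_piFinset]
  constructor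
  · exact fun h => h.2
  · intro h
    refine ⟨fun i => ?_, h⟩
    rw [Finset.mem_range, Nat.lt_succ_iff, ← h]
    calc γ i ≤ γ i * w i := Nat.le_mul_of_pos_right _ (hw i)
      _ ≤ wt w γ := Finset.single_le_sum (f := fun i => γ i * w i) (fun _ _ => Nat.zero_le _)
          (Finset.mem_univ i)

theorem jQh_wt_add972 {n : ℕ} (w a b : Fin n → ℕ) : wt w (fun i => a i + b i) = wt w a + wt w b := by
  unfold wt
  rw [← Finset.sum_add_distrib]
  exact Finset.sum_congr rfl (fun i _ => by ring)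



/-- quasi-homogeneous case: all coefficients of `P f` vanish -/
theorem pos_qh {n : ℕ} (P : MvPolynomial (Fin n) ℂ) (w : Fin n → ℕ) (hw : ∀ i, 0 < w i) (p : ℕ)
    (hP : MvPolynomial.IsWeightedHomogeneous w P p) (c : (Fin n → ℕ) → ℂ)
    (h : ∀ β : Fin n → ℕ, ∑ m ∈ P.support, (starRingEnd ℂ) (P.coeff m) *
      ((fac (fun i => β i + m i) : ℂ) * mulc P c (fun i => β i + m i)) = 0)
    (γ : Fin n → ℕ) : mulc P c γ = 0 := by
  classical
  have hPm : ∀ m ∈ P.support, wt w (fun i => m i) = p := by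
    intro m hm
    have h1 := hP (MvPolynomial.mem_support_iff.mp hm)
    rw [Finsupp.weight_apply, Finsupp.sum_fintype _ _ (fun i => by simp)] at h1
    rw [← h1]
    unfold wt
    exact Finset.sum_congr rfl (fun i _ => by simp)
  by_cases hlt : wt w γ < p
  · unfold mulc
    refine Finset.sum_eq_zero (fun m hm => ?_)
    rw [if_neg]
    intro hle
    have h1 : wt w (fun i => m i) ≤ wt w γ :=
      Finset.sum_le_sum (fun i _ => Nat.mul_le_mul_right _ (hle i))
    rw [hPm m hm] at h1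
    omega
  · push Not at hlt
    set K := wt w γ with hK
    set F : (Fin n → ℕ) → (Fin n →₀ ℕ) → ℂ := fun γ' m =>
      (fac γ' : ℂ) * mulc P c γ' * ((starRingEnd ℂ) (P.coeff m) *
        (starRingEnd ℂ) (c (fun i => γ' i - m i))) with hF
    have hA : ∑ β ∈ jQh_SK972 w (K - p), (starRingEnd ℂ) (c β) * (∑ m ∈ P.support,
        (starRingEnd ℂ) (P.coeff m) *
        ((fac (fun i => β i + m i) : ℂ) * mulc P c (fun i => β i + m i))) = 0 :=
      Finset.sum_eq_zero (fun β _ => by rw [h β, mul_zero])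
    have hA2 : ∑ m ∈ P.support, ∑ β ∈ jQh_SK972 w (K - p), F (fun i => β i + m i) m = 0 := by
      rw [← hA, Finset.sum_comm]
      refine Finset.sum_congr rfl (fun β _ => ?_)
      rw [Finset.mul_sum]
      refine Finset.sum_congr rfl (fun m _ => ?_)
      simp only [hF, Nat.add_sub_cancel]
      ring
    have hB : ∑ γ' ∈ jQh_SK972 w K, (fac γ' : ℂ) * (mulc P c γ' * (starRingEnd ℂ) (mulc P c γ')) = 0 := by
      rw [← hA2]
      have e1 : ∀ γ' ∈ jQh_SK972 w K, (fac γ' : ℂ) * (mulc P c γ' * (starRingEnd ℂ) (mulc P c γ')) =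
          ∑ m ∈ P.support, if ∀ i, m i ≤ γ' i then F γ' m else 0 := by
        intro γ' _
        have e2 : (starRingEnd ℂ) (mulc P c γ') = ∑ m ∈ P.support,
            if ∀ i, m i ≤ γ' i then (starRingEnd ℂ) (P.coeff m) *
              (starRingEnd ℂ) (c (fun i => γ' i - m i)) else 0 := by
          rw [mulc, map_sum]
          refine Finset.sum_congr rfl (fun m _ => ?_)
          split_ifs
          · rw [map_mul]
          · rw [map_zero]
        rw [e2, Finset.mul_sum, Finset.mul_sum]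
        refine Finset.sum_congr rfl (fun m _ => ?_)
        split_ifs
        · simp only [hF]; ring
        · ring
      rw [Finset.sum_congr rfl e1, Finset.sum_comm]
      refine Finset.sum_congr rfl (fun m hm => ?_)
      rw [← Finset.sum_filter]
      have hmp := hPm m hm
      refine Finset.sum_nbij' (fun γ' i => γ' i - m i) (fun β i => β i + m i) ?_ ?_ ?_ ?_ ?_
      · intro γ' hγ'
        rw [Finset.mem_filter, jQh_mem_SK972 w hw] at hγ'
        rw [jQh_mem_SK972 w hw]
        have h1 := jQh_wt_add972 w (fun i => γ' i - m i) (fun i => m i)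
        have h2 : (fun i => γ' i - m i + m i) = γ' := by
          funext i; exact Nat.sub_add_cancel (hγ'.2 i)
        rw [h2, hmp, hγ'.1] at h1
        omega
      · intro β hβ
        rw [jQh_mem_SK972 w hw] at hβ
        rw [Finset.mem_filter, jQh_mem_SK972 w hw]
        refine ⟨?_, fun i => Nat.le_add_left _ _⟩
        have h1 := jQh_wt_add972 w β (fun i => m i)
        rw [hmp, hβ] at h1
        omega
      · intro γ' hγ'
        rw [Finset.mem_filter] at hγ'
        funext i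
        exact Nat.sub_add_cancel (hγ'.2 i)
      · intro β _
        funext i
        exact Nat.add_sub_cancel _ _
      · intro γ' hγ'
        rw [Finset.mem_filter] at hγ'
        have h2 : (fun i => γ' i - m i + m i) = γ' := by
          funext i; exact Nat.sub_add_cancel (hγ'.2 i)
        simp only [h2]
    have hB2 : ∑ γ' ∈ jQh_SK972 w K, (fac γ' : ℝ) * Complex.normSq (mulc P c γ') = 0 := by
      have e : ((∑ γ' ∈ jQh_SK972 w K, (fac γ' : ℝ) * Complex.normSq (mulc P c γ') : ℝ) : ℂ) = 0 := by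
        rw [← hB]
        push_cast
        exact Finset.sum_congr rfl (fun γ' _ => by rw [Complex.mul_conj])
      exact_mod_cast e
    have h3 := (Finset.sum_eq_zero_iff_of_nonneg (fun γ' _ =>
      mul_nonneg (Nat.cast_nonneg (fac γ')) (Complex.normSq_nonneg _))).mp hB2 γ
      ((jQh_mem_SK972 w hw K γ).mpr rfl)
    have h4 : (fac γ : ℝ) ≠ 0 := by
      have : 0 < fac γ := Finset.prod_pos (fun i _ => Nat.factorial_pos _)
      exact_mod_cast this.ne'
    exact Complex.normSq_eq_zero.mp ((mul_eq_zero.mp h3).resolve_left h4)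

theorem result_qh {n : ℕ} (P : MvPolynomial (Fin n) ℂ) (hP0 : P ≠ 0) (w : Fin n → ℕ)
    (hw : ∀ i, 0 < w i) (p : ℕ) (hP : MvPolynomial.IsWeightedHomogeneous w P p)
    (f : (Fin n → ℂ) → ℂ) (hf : Differentiable ℂ f) (h0 : ∀ z, Tmap P f z = 0) :
    ∀ z, f z = 0 := by
  obtain ⟨c, -, hc⟩ := taylor f hf
  exact mulc_zero P hP0 c f hc (pos_qh P w hw p hP c (tp_coef P c f hc h0))

theorem tp_sub {n : ℕ} (P : MvPolynomial (Fin n) ℂ) (f g : (Fin n → ℂ) → ℂ)
    (hf : Differentiable ℂ f) (hg : Differentiable ℂ g) (h : Tmap P f = Tmap P g) :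
    ∀ z, Tmap P (fun z => f z - g z) z = 0 := by
  obtain ⟨c1, -, h1⟩ := taylor f hf
  obtain ⟨c2, -, h2⟩ := taylor g hg
  have s1 := ser_mul P c1 f h1
  have s2 := ser_mul P c2 g h2
  have s3 : Ser (fun γ => mulc P c1 γ - mulc P c2 γ)
      (fun w => MvPolynomial.eval w P * (f w - g w)) := by
    intro z
    have := (s1 z).sub (s2 z)
    simp only [← sub_mul, ← mul_sub] at this
    exact this
  intro z
  have key : ∀ m : Fin n →₀ ℕ, dpow m (fun w => MvPolynomial.eval w P * (f w - g w)) z =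
      dpow m (fun w => MvPolynomial.eval w P * f w) z -
        dpow m (fun w => MvPolynomial.eval w P * g w) z := by
    intro m
    have d1 := ser_dpow m _ _ s1 z
    have d2 := ser_dpow m _ _ s2 z
    have d3 := ser_dpow m _ _ s3 z
    have d4 := d1.sub d2
    simp only [← sub_mul, ← mul_sub] at d4
    exact d3.unique d4
  have hz := congrFun h z
  unfold Tmap at hz ⊢
  simp only [key]
  rw [← sub_eq_zero] at hz
  rw [← hz, ← Finset.sum_sub_distrib]
  exact Finset.sum_congr rfl fun m _ => mul_sub _ _ _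

/-! ### jRb -/

/-- sequences with a linear recurrence with constant coefficients grow at most exponentially -/
theorem rec_bound (N : ℕ) (q : ℕ → ℂ) (hq : q N ≠ 0) (G : ℕ → ℂ)
    (h : ∀ k, ∑ j ∈ Finset.range (N + 1), q j * G (k + j) = 0) :
    ∃ C B : ℝ, 0 ≤ C ∧ 1 ≤ B ∧ ∀ k, ‖G k‖ ≤ C * B ^ k := by
  have hq0 : 0 < ‖q N‖ := norm_pos_iff.mpr hq
  obtain ⟨S, hS⟩ : ∃ S : ℝ, S = ∑ j ∈ Finset.range N, ‖q j‖ / ‖q N‖ := ⟨_, rfl⟩
  obtain ⟨C, hC⟩ : ∃ C : ℝ, C = ∑ j ∈ Finset.range N, ‖G j‖ := ⟨_, rfl⟩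
  have hS0 : 0 ≤ S := by rw [hS]; positivity
  have hC0 : 0 ≤ C := by rw [hC]; positivity
  have hB1 : 1 ≤ 1 + S := by linarith
  have hB0 : 0 < 1 + S := by linarith
  refine ⟨C, 1 + S, hC0, hB1, fun k => ?_⟩
  induction k using Nat.strong_induction_on with
  | _ k ih =>
    rcases Nat.lt_or_ge k N with hk | hk
    · have e1 : ‖G k‖ ≤ C := by
        rw [hC]
        exact Finset.single_le_sum (f := fun j => ‖G j‖) (fun _ _ => norm_nonneg _)
          (Finset.mem_range.mpr hk)
      calc ‖G k‖ ≤ C := e1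
        _ = C * 1 := (mul_one _).symm
        _ ≤ C * (1 + S) ^ k := mul_le_mul_of_nonneg_left (one_le_pow₀ hB1) hC0
    · obtain ⟨i, rfl⟩ := Nat.exists_eq_add_of_le hk
      have e2 := h i
      rw [Finset.sum_range_succ] at e2
      have e3 : G (N + i) = -(∑ j ∈ Finset.range N, q j * G (i + j)) / q N := by
        rw [eq_div_iff hq, add_comm N i]
        linear_combination e2
      have e4 : ‖G (N + i)‖ ≤ ∑ j ∈ Finset.range N, ‖q j‖ / ‖q N‖ * ‖G (i + j)‖ := by
        rw [e3, norm_div, norm_neg, div_le_iff₀ hq0, Finset.sum_mul]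
        refine (norm_sum_le _ _).trans (Finset.sum_le_sum fun j _ => ?_)
        rw [norm_mul]
        have : ‖q j‖ / ‖q N‖ * ‖G (i + j)‖ * ‖q N‖ = ‖q j‖ * ‖G (i + j)‖ := by
          field_simp
        rw [this]
      have e5 : ∑ j ∈ Finset.range N, ‖q j‖ / ‖q N‖ * ‖G (i + j)‖ ≤
          ∑ j ∈ Finset.range N, ‖q j‖ / ‖q N‖ * (C * (1 + S) ^ (N + i) / (1 + S)) := by
        apply Finset.sum_le_sum
        intro j hj
        rw [Finset.mem_range] at hj
        apply mul_le_mul_of_nonneg_left _ (by positivity)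
        refine (ih (i + j) (by omega)).trans ?_
        rw [le_div_iff₀ hB0, mul_assoc, ← pow_succ]
        exact mul_le_mul_of_nonneg_left (pow_le_pow_right₀ hB1 (by omega)) hC0
      rw [← Finset.sum_mul, ← hS] at e5
      refine e4.trans (e5.trans ?_)
      rw [← mul_div_assoc, div_le_iff₀ hB0, mul_comm]
      exact mul_le_mul_of_nonneg_left (by linarith) (by positivity)

/-! ### jBz -/

/-- the abstract positivity argument on a block -/
theorem block_zero (N : ℕ) (q : ℕ → ℂ) (hq : q N ≠ 0) (b : ℕ → ℂ) (W : ℕ → ℝ)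
    (hW : ∀ k, 0 < W k) (hb : ∀ ρ : ℝ, 0 < ρ → ∃ M : ℝ, ∀ k, ‖b k‖ * ρ ^ k ≤ M)
    (h : ∀ k, ∑ j ∈ Finset.range (N + 1), (starRingEnd ℂ) (q j) *
      ((W (k + j) : ℂ) * ∑ i ∈ Finset.range (N + 1),
        if i ≤ k + j then q i * b (k + j - i) else 0) = 0) (k : ℕ) :
    (∑ i ∈ Finset.range (N + 1), if i ≤ k then q i * b (k - i) else 0) = 0 := by
  set d : ℕ → ℂ := fun k => ∑ i ∈ Finset.range (N + 1), if i ≤ k then q i * b (k - i) else 0
    with hd
  set G : ℕ → ℂ := fun k => (W k : ℂ) * d k with hG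
  have hrec : ∀ k, ∑ j ∈ Finset.range (N + 1), (starRingEnd ℂ) (q j) * G (k + j) = 0 := by
    intro k
    exact h k
  obtain ⟨C, B, hC, hB, hGB⟩ := rec_bound N (fun j => (starRingEnd ℂ) (q j))
    (by simpa using hq) G hrec
  obtain ⟨M, hM⟩ := hb (4 * B) (by linarith)
  have hB0 : 0 < B := by linarith
  have hbn : ∀ i, ‖b i‖ * B ^ i ≤ M * (1 / 4) ^ i := by
    intro i
    have h1 := hM i
    have h2 : (4 * B) ^ i = 4 ^ i * B ^ i := mul_pow _ _ _
    rw [h2] at h1
    have h3 : (0:ℝ) < (1 / 4 : ℝ) ^ i := by positivity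
    have h4 : (1 / 4 : ℝ) ^ i * 4 ^ i = 1 := by
      rw [← mul_pow]; norm_num
    calc ‖b i‖ * B ^ i = (‖b i‖ * (4 ^ i * B ^ i)) * (1 / 4) ^ i := by
          rw [show (‖b i‖ * (4 ^ i * B ^ i)) * (1 / 4) ^ i =
            ‖b i‖ * B ^ i * ((1 / 4 : ℝ) ^ i * 4 ^ i) by ring, h4, mul_one]
      _ ≤ M * (1 / 4) ^ i := mul_le_mul_of_nonneg_right h1 h3.le
  have hsm : ∀ j, Summable (fun i => (starRingEnd ℂ) (q j) * ((starRingEnd ℂ) (b i) * G (i + j))) := by
    intro j
    refine Summable.of_norm_bounded (g := fun i => (‖q j‖ * C * B ^ j * M) * (1 / 4 : ℝ) ^ i)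
      ((summable_geometric_of_lt_one (by norm_num) (by norm_num)).mul_left _) ?_
    intro i
    rw [norm_mul, norm_mul, RCLike.norm_conj, RCLike.norm_conj]
    have h1 := hGB (i + j)
    have h2 := hbn i
    calc ‖q j‖ * (‖b i‖ * ‖G (i + j)‖) ≤ ‖q j‖ * (‖b i‖ * (C * B ^ (i + j))) := by gcongr
      _ = ‖q j‖ * C * B ^ j * (‖b i‖ * B ^ i) := by rw [pow_add]; ring
      _ ≤ ‖q j‖ * C * B ^ j * (M * (1 / 4) ^ i) := by gcongr
      _ = _ := by ring
  have hF : ∀ j, HasSum (fun k => if j ≤ k then (starRingEnd ℂ) (q j) *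
      ((starRingEnd ℂ) (b (k - j)) * G k) else 0)
      (∑' i, (starRingEnd ℂ) (q j) * ((starRingEnd ℂ) (b i) * G (i + j))) := by
    intro j
    have h1 := (hasSum_nat_add_iff (f := fun k => if j ≤ k then (starRingEnd ℂ) (q j) *
      ((starRingEnd ℂ) (b (k - j)) * G k) else 0) j
      (g := ∑' i, (starRingEnd ℂ) (q j) * ((starRingEnd ℂ) (b i) * G (i + j)))).1 (by
        have h2 := (hsm j).hasSum
        simpa using h2)
    have h3 : ∑ i ∈ Finset.range j, (if j ≤ i then (starRingEnd ℂ) (q j) *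
      ((starRingEnd ℂ) (b (i - j)) * G i) else 0) = 0 := by
      refine Finset.sum_eq_zero (fun i hi => ?_)
      rw [if_neg (not_le.2 (Finset.mem_range.1 hi))]
    rw [h3, add_zero] at h1
    exact h1
  have htot : HasSum (fun k => ∑ j ∈ Finset.range (N + 1), if j ≤ k then (starRingEnd ℂ) (q j) *
      ((starRingEnd ℂ) (b (k - j)) * G k) else 0)
      (∑ j ∈ Finset.range (N + 1),
        ∑' i, (starRingEnd ℂ) (q j) * ((starRingEnd ℂ) (b i) * G (i + j))) :=
    hasSum_sum (fun j _ => hF j)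
  have hzero : (∑ j ∈ Finset.range (N + 1),
        ∑' i, (starRingEnd ℂ) (q j) * ((starRingEnd ℂ) (b i) * G (i + j))) = 0 := by
    have h1 : HasSum (fun i => ∑ j ∈ Finset.range (N + 1),
        (starRingEnd ℂ) (q j) * ((starRingEnd ℂ) (b i) * G (i + j)))
        (∑ j ∈ Finset.range (N + 1),
        ∑' i, (starRingEnd ℂ) (q j) * ((starRingEnd ℂ) (b i) * G (i + j))) :=
      hasSum_sum (fun j _ => (hsm j).hasSum)
    have h2 : (fun i => ∑ j ∈ Finset.range (N + 1),
        (starRingEnd ℂ) (q j) * ((starRingEnd ℂ) (b i) * G (i + j))) = fun _ => 0 := by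
      funext i
      have h3 := hrec i
      calc ∑ j ∈ Finset.range (N + 1), (starRingEnd ℂ) (q j) * ((starRingEnd ℂ) (b i) * G (i + j))
          = (starRingEnd ℂ) (b i) * ∑ j ∈ Finset.range (N + 1), (starRingEnd ℂ) (q j) * G (i + j) := by
            rw [Finset.mul_sum]
            exact Finset.sum_congr rfl (fun j _ => by ring)
        _ = 0 := by rw [h3, mul_zero]
    rw [h2] at h1
    exact h1.unique hasSum_zero
  rw [hzero] at htot
  have hterm : (fun k => ∑ j ∈ Finset.range (N + 1), if j ≤ k then (starRingEnd ℂ) (q j) *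
      ((starRingEnd ℂ) (b (k - j)) * G k) else 0) = fun k => ((W k * ‖d k‖ ^ 2 : ℝ) : ℂ) := by
    funext k
    have h1 : (∑ j ∈ Finset.range (N + 1), if j ≤ k then (starRingEnd ℂ) (q j) *
      ((starRingEnd ℂ) (b (k - j)) * G k) else 0) = G k * (starRingEnd ℂ) (d k) := by
      rw [hd]
      simp only [map_sum, Finset.mul_sum]
      refine Finset.sum_congr rfl (fun j _ => ?_)
      by_cases hj : j ≤ k
      · simp only [hj, if_true, map_mul]; ring
      · simp only [hj, if_false, map_zero, mul_zero]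
    rw [h1, hG]
    have h2 : d k * (starRingEnd ℂ) (d k) = ((‖d k‖ ^ 2 : ℝ) : ℂ) := by
      rw [Complex.mul_conj, Complex.normSq_eq_norm_sq]
    push_cast at h2 ⊢
    rw [← h2]; ring
  rw [hterm] at htot
  have hre : HasSum (fun k => W k * ‖d k‖ ^ 2) 0 := by
    have h8 := Complex.hasSum_re htot
    simp only [Complex.ofReal_re, Complex.zero_re] at h8
    exact h8
  have hall := (hasSum_zero_iff_of_nonneg (fun k => mul_nonneg (hW k).le (sq_nonneg _))).1 hre
  have hk := congrFun hall k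
  have h5 : ‖d k‖ ^ 2 = 0 := by
    rcases mul_eq_zero.1 hk with h6 | h6
    · exact absurd h6 (hW k).ne'
    · exact h6
  have h7 : ‖d k‖ = 0 := by simpa using h5
  exact norm_eq_zero.1 h7

/-! ### kRs -/

noncomputable def kRs_recG36149 (N : ℕ) (q R : ℕ → ℂ) (k : ℕ) : ℂ :=
  if k < N then 0 else
    (q N)⁻¹ * (R (k - N) - ∑ j : Fin N, q j * kRs_recG36149 N q R (k - N + j))
termination_by k
decreasing_by
  have := j.2
  omega

theorem kRs_recG36149_eq (N : ℕ) (q R : ℕ → ℂ) (k : ℕ) :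
    kRs_recG36149 N q R (k + N) =
      (q N)⁻¹ * (R k - ∑ j ∈ Finset.range N, q j * kRs_recG36149 N q R (k + j)) := by
  rw [kRs_recG36149]
  have h : ¬ (k + N < N) := by omega
  rw [if_neg h, Nat.add_sub_cancel]
  rw [Finset.sum_range (fun j => q j * kRs_recG36149 N q R (k + j))]

theorem rec_solve (N : ℕ) (q : ℕ → ℂ) (hq : q N ≠ 0) (R : ℕ → ℂ) :
    ∃ G : ℕ → ℂ, ∀ k, ∑ j ∈ Finset.range (N + 1), q j * G (k + j) = R k := by
  refine ⟨kRs_recG36149 N q R, fun k => ?_⟩
  rw [Finset.sum_range_succ, kRs_recG36149_eq, ← mul_assoc, mul_inv_cancel₀ hq, one_mul]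
  ring

/-! ### kRg -/

theorem rec_growth (N : ℕ) (q : ℕ → ℂ) (hq : q N ≠ 0) :
    ∃ C B : ℝ, 0 ≤ C ∧ 1 ≤ B ∧ ∀ G R : ℕ → ℂ,
      (∀ k, ∑ j ∈ Finset.range (N + 1), q j * G (k + j) = R k) → ∀ k,
      ‖G k‖ ≤ C * (B ^ k * ∑ j ∈ Finset.range N, ‖G j‖ +
        ∑ l ∈ Finset.range (k + 1), B ^ (k - l) * ‖R l‖) := by
  have hqn : 0 < ‖q N‖ := norm_pos_iff.mpr hq
  set s : ℝ := 1 / ‖q N‖ with hs
  have hs0 : 0 < s := by rw [hs]; positivity
  set S : ℝ := (∑ j ∈ Finset.range N, ‖q j‖) * s with hS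
  have hS0 : 0 ≤ S := mul_nonneg (Finset.sum_nonneg fun _ _ => norm_nonneg _) hs0.le
  refine ⟨1 + s, S + 1, by linarith, by linarith, ?_⟩
  intro G R hGR
  set B : ℝ := S + 1 with hB
  set C : ℝ := 1 + s with hC
  have hB1 : 1 ≤ B := by linarith
  have hC1 : 1 ≤ C := by linarith
  set A : ℝ := ∑ j ∈ Finset.range N, ‖G j‖ with hA
  have hA0 : 0 ≤ A := Finset.sum_nonneg fun _ _ => norm_nonneg _
  set U : ℕ → ℝ := fun k => B ^ k * A + ∑ l ∈ Finset.range (k + 1), B ^ (k - l) * ‖R l‖ with hU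
  have hU0 : ∀ k, 0 ≤ U k := fun k => by
    simp only [hU]
    have : 0 ≤ ∑ l ∈ Finset.range (k + 1), B ^ (k - l) * ‖R l‖ :=
      Finset.sum_nonneg fun _ _ => by positivity
    positivity
  have hUs : ∀ k, U (k + 1) = B * U k + ‖R (k + 1)‖ := by
    intro k
    simp only [hU]
    rw [Finset.sum_range_succ _ (k + 1), Nat.sub_self, pow_zero, one_mul]
    have h1 : ∑ l ∈ Finset.range (k + 1), B ^ (k + 1 - l) * ‖R l‖ =
        B * ∑ l ∈ Finset.range (k + 1), B ^ (k - l) * ‖R l‖ := by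
      rw [Finset.mul_sum]
      refine Finset.sum_congr rfl fun l hl => ?_
      have : k + 1 - l = (k - l) + 1 := by
        have := Finset.mem_range.mp hl
        omega
      rw [this, pow_succ]; ring
    rw [h1, pow_succ]; ring
  have hUm : Monotone U := by
    refine monotone_nat_of_le_succ fun k => ?_
    rw [hUs k]
    nlinarith [hU0 k, norm_nonneg (R (k + 1))]
  have hRU : ∀ m, ‖R m‖ ≤ U m := by
    intro m
    simp only [hU]
    rw [Finset.sum_range_succ, Nat.sub_self, pow_zero, one_mul]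
    have h1 : 0 ≤ ∑ l ∈ Finset.range m, B ^ (m - l) * ‖R l‖ :=
      Finset.sum_nonneg fun _ _ => by positivity
    have h2 : 0 ≤ B ^ m * A := by positivity
    linarith
  intro k
  change ‖G k‖ ≤ C * U k
  induction k using Nat.strong_induction_on with
  | _ k ih =>
    by_cases hk : k < N
    · have h1 : ‖G k‖ ≤ A :=
        Finset.single_le_sum (f := fun j => ‖G j‖) (fun _ _ => norm_nonneg _) (Finset.mem_range.mpr hk)
      have h2 : A ≤ B ^ k * A := by
        have := one_le_pow₀ hB1 (n := k)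
        nlinarith
      have h3 : B ^ k * A ≤ U k := by
        simp only [hU]
        have : 0 ≤ ∑ l ∈ Finset.range (k + 1), B ^ (k - l) * ‖R l‖ :=
          Finset.sum_nonneg fun _ _ => by positivity
        linarith
      nlinarith [hU0 k]
    · obtain ⟨m, rfl⟩ : ∃ m, k = m + N := ⟨k - N, by omega⟩
      have h1 := hGR m
      rw [Finset.sum_range_succ] at h1
      have h2 : q N * G (m + N) = R m - ∑ j ∈ Finset.range N, q j * G (m + j) := by
        rw [← h1]; ring
      have h3 : ‖q N‖ * ‖G (m + N)‖ ≤ ‖R m‖ + ∑ j ∈ Finset.range N, ‖q j‖ * ‖G (m + j)‖ := by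
        rw [← norm_mul, h2]
        refine (norm_sub_le _ _).trans ?_
        gcongr
        refine (norm_sum_le _ _).trans (le_of_eq ?_)
        exact Finset.sum_congr rfl fun j _ => norm_mul _ _
      have h4 : ‖G (m + N)‖ = s * (‖q N‖ * ‖G (m + N)‖) := by
        rw [hs]; field_simp
      have h5 : ‖G (m + N)‖ ≤ s * (‖R m‖ + ∑ j ∈ Finset.range N, ‖q j‖ * ‖G (m + j)‖) := by
        rw [h4]
        exact mul_le_mul_of_nonneg_left h3 hs0.le
      rcases Nat.eq_zero_or_pos N with hN | hN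
      · subst hN
        simp only [Finset.range_zero, Finset.sum_empty, add_zero] at h5 ⊢
        have h6 := hRU m
        have h7 : s * ‖R m‖ ≤ s * U m := mul_le_mul_of_nonneg_left h6 hs0.le
        have h8 := hU0 m
        rw [hC]
        nlinarith
      · obtain ⟨p, hp⟩ : ∃ p, m + N = p + 1 := ⟨m + N - 1, by omega⟩
        have h6 : ∑ j ∈ Finset.range N, ‖q j‖ * ‖G (m + j)‖ ≤
            (∑ j ∈ Finset.range N, ‖q j‖) * (C * U p) := by
          rw [Finset.sum_mul]
          refine Finset.sum_le_sum fun j hj => ?_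
          have hj' := Finset.mem_range.mp hj
          have h7 : ‖G (m + j)‖ ≤ C * U (m + j) := ih (m + j) (by omega)
          have h8 : U (m + j) ≤ U p := hUm (by omega)
          refine mul_le_mul_of_nonneg_left (h7.trans ?_) (norm_nonneg _)
          exact mul_le_mul_of_nonneg_left h8 (by linarith)
        have h7 : ‖R m‖ ≤ U p := (hRU m).trans (hUm (by omega))
        have h8 : ‖G (m + N)‖ ≤ s * (U p + (∑ j ∈ Finset.range N, ‖q j‖) * (C * U p)) :=
          h5.trans (mul_le_mul_of_nonneg_left (add_le_add h7 h6) hs0.le)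
        have h9 : s * (U p + (∑ j ∈ Finset.range N, ‖q j‖) * (C * U p)) =
            s * U p + S * (C * U p) := by rw [hS]; ring
        rw [h9] at h8
        rw [hp] at h8 ⊢
        rw [hUs p]
        have h10 := hU0 p
        have h11 := norm_nonneg (R (p + 1))
        have h12 : s * U p ≤ C * U p := mul_le_mul_of_nonneg_right (by linarith) h10
        have h13 : C * (B * U p + ‖R (p + 1)‖) = S * (C * U p) + C * U p + C * ‖R (p + 1)‖ := by
          rw [hB]; ring
        rw [h13]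
        have h14 : 0 ≤ C * ‖R (p + 1)‖ := mul_nonneg (by linarith) h11
        linarith

/-! ### kDq -/

theorem dec_quot (N : ℕ) (q : ℕ → ℂ) (hq : q N ≠ 0) (W : ℕ → ℝ) (hW : ∀ k, 0 < W k)
    (hW2 : ∀ k l, l ≤ k → ((k - l).factorial : ℝ) * W l ≤ W k) (g : ℕ → ℂ) (hg : Dec g)
    (G : ℕ → ℂ) (hG : ∀ k, ∑ j ∈ Finset.range (N + 1), q j * G (k + j) = (W k : ℂ) * g k) :
    Dec (fun k => G k / (W k : ℂ)) := by
  obtain ⟨C, B, hC, hB, hrec⟩ := rec_growth N q hq
  intro ρ hρ
  obtain ⟨M, hM⟩ := hg ρ hρ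
  have hM0 : 0 ≤ M := le_trans (by positivity) (hM 0)
  obtain ⟨A, hA⟩ : ∃ A, A = ∑ j ∈ Finset.range N, ‖G j‖ := ⟨_, rfl⟩
  have hA0 : 0 ≤ A := by rw [hA]; exact Finset.sum_nonneg fun _ _ => norm_nonneg _
  have hBρ : 0 ≤ B * ρ := by positivity
  have hW0 := hW 0
  refine ⟨C * A / W 0 * Real.exp (B * ρ) + C * M * Real.exp (B * ρ), fun k => ?_⟩
  have hWk := hW k
  have h1 := hrec G (fun k => (W k : ℂ) * g k) hG k
  rw [← hA] at h1
  have h2 : ∀ l, ‖(W l : ℂ) * g l‖ = W l * ‖g l‖ := by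
    intro l
    rw [norm_mul, Complex.norm_real, Real.norm_eq_abs, abs_of_pos (hW l)]
  have h3 : ‖G k / (W k : ℂ)‖ * ρ ^ k = ‖G k‖ * (ρ ^ k / W k) := by
    rw [norm_div, Complex.norm_real, Real.norm_eq_abs, abs_of_pos hWk]
    ring
  show ‖G k / (W k : ℂ)‖ * ρ ^ k ≤ _
  rw [h3]
  have h4 : 0 ≤ ρ ^ k / W k := by positivity
  refine (mul_le_mul_of_nonneg_right h1 h4).trans ?_
  have h5 : C * (B ^ k * A + ∑ l ∈ Finset.range (k + 1), B ^ (k - l) * ‖(W l : ℂ) * g l‖) *
      (ρ ^ k / W k) = C * (B ^ k * A * (ρ ^ k / W k)) +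
      C * ∑ l ∈ Finset.range (k + 1), B ^ (k - l) * (W l * ‖g l‖) * (ρ ^ k / W k) := by
    rw [← Finset.sum_mul]
    have h6 : ∑ l ∈ Finset.range (k + 1), B ^ (k - l) * ‖(W l : ℂ) * g l‖ =
        ∑ l ∈ Finset.range (k + 1), B ^ (k - l) * (W l * ‖g l‖) :=
      Finset.sum_congr rfl fun l _ => by rw [h2]
    rw [h6]
    ring
  show C * (B ^ k * A + ∑ l ∈ Finset.range (k + 1), B ^ (k - l) * ‖(W l : ℂ) * g l‖) *
      (ρ ^ k / W k) ≤ _
  rw [h5]
  have hWk2 : (k.factorial : ℝ) * W 0 ≤ W k := by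
    have := hW2 k 0 (Nat.zero_le k)
    simpa using this
  have hfk : (0 : ℝ) < k.factorial := by exact_mod_cast Nat.factorial_pos k
  apply add_le_add
  · have h7 : ρ ^ k / W k ≤ ρ ^ k / ((k.factorial : ℝ) * W 0) := by
      apply div_le_div_of_nonneg_left (by positivity) (by positivity) hWk2
    have h8 : (B * ρ) ^ k / (k.factorial : ℝ) ≤ Real.exp (B * ρ) :=
      Real.pow_div_factorial_le_exp _ hBρ k
    calc C * (B ^ k * A * (ρ ^ k / W k)) ≤ C * (B ^ k * A * (ρ ^ k / ((k.factorial : ℝ) * W 0))) := by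
          apply mul_le_mul_of_nonneg_left _ hC
          apply mul_le_mul_of_nonneg_left h7 (by positivity)
      _ = C * A / W 0 * ((B * ρ) ^ k / (k.factorial : ℝ)) := by
          rw [mul_pow]
          field_simp
      _ ≤ C * A / W 0 * Real.exp (B * ρ) := by
          apply mul_le_mul_of_nonneg_left h8 (by positivity)
  · rw [mul_assoc]
    apply mul_le_mul_of_nonneg_left _ hC
    have h9 : ∀ l ∈ Finset.range (k + 1), B ^ (k - l) * (W l * ‖g l‖) * (ρ ^ k / W k) ≤
        M * ((B * ρ) ^ (k - l) / ((k - l).factorial : ℝ)) := by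
      intro l hl
      have hlk : l ≤ k := Nat.lt_succ_iff.1 (Finset.mem_range.1 hl)
      have hf : (0 : ℝ) < (k - l).factorial := by exact_mod_cast Nat.factorial_pos _
      have hr : ρ ^ k = ρ ^ (k - l) * ρ ^ l := by rw [← pow_add]; congr 1; omega
      have h10 : W l / W k ≤ 1 / ((k - l).factorial : ℝ) := by
        rw [div_le_div_iff₀ hWk hf]
        have := hW2 k l hlk
        linarith
      calc B ^ (k - l) * (W l * ‖g l‖) * (ρ ^ k / W k)
          = (B * ρ) ^ (k - l) * (W l / W k) * (‖g l‖ * ρ ^ l) := by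
            rw [hr, mul_pow]; ring
        _ ≤ (B * ρ) ^ (k - l) * (1 / ((k - l).factorial : ℝ)) * M := by
            apply mul_le_mul
            · exact mul_le_mul_of_nonneg_left h10 (by positivity)
            · exact hM l
            · positivity
            · positivity
        _ = M * ((B * ρ) ^ (k - l) / ((k - l).factorial : ℝ)) := by ring
    refine (Finset.sum_le_sum h9).trans ?_
    rw [← Finset.mul_sum]
    apply mul_le_mul_of_nonneg_left _ hM0
    have h11 := Finset.sum_flip (n := k) (fun j => (B * ρ) ^ j / (j.factorial : ℝ))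
    have h12 : ∑ i ∈ Finset.range (k + 1), (B * ρ) ^ (k - i) / ((k - i).factorial : ℝ) =
        ∑ j ∈ Finset.range (k + 1), (B * ρ) ^ j / (j.factorial : ℝ) := h11
    rw [h12]
    exact Real.sum_le_exp_of_nonneg hBρ _

/-! ### kDr -/

/-- the polynomial with coefficients `q i`, `i ≤ N`, as a power series -/
noncomputable def kDr_kDrQs (N : ℕ) (q : ℕ → ℂ) : PowerSeries ℂ :=
  PowerSeries.mk (fun i => if i ≤ N then q i else 0)

theorem kDr_kDr_cv (N : ℕ) (q b : ℕ → ℂ) (k : ℕ) :
    PowerSeries.coeff k (kDr_kDrQs N q * PowerSeries.mk b) = cv N q b k := by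
  rw [PowerSeries.coeff_mul, Finset.Nat.sum_antidiagonal_eq_sum_range_succ_mk]
  simp only [kDr_kDrQs, PowerSeries.coeff_mk, cv]
  have h1 : ∑ i ∈ Finset.range (k + 1), (if i ≤ N then q i else 0) * b (k - i) =
      ∑ i ∈ Finset.range (k + 1) with i ≤ N, q i * b (k - i) := by
    rw [Finset.sum_filter]
    refine Finset.sum_congr rfl (fun i _ => ?_)
    split_ifs <;> simp
  have h2 : (∑ i ∈ Finset.range (N + 1), if i ≤ k then q i * b (k - i) else 0) =
      ∑ i ∈ Finset.range (N + 1) with i ≤ k, q i * b (k - i) := by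
    rw [Finset.sum_filter]
  have h1' : ∑ i ∈ Finset.range k.succ, (if i ≤ N then q i else 0) * b (k - i) =
      ∑ i ∈ Finset.range (k + 1) with i ≤ N, q i * b (k - i) := h1
  rw [h1', h2]
  refine Finset.sum_congr ?_ (fun _ _ => rfl)
  ext i
  simp only [Finset.mem_filter, Finset.mem_range]
  omega

theorem kDr_kDr_factor (N : ℕ) (q : ℕ → ℂ) (hq : q (N + 1) ≠ 0) :
    ∃ (x : ℂ) (q' : ℕ → ℂ), q' N ≠ 0 ∧
      kDr_kDrQs (N + 1) q = (PowerSeries.X - PowerSeries.C x) * kDr_kDrQs N q' := by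
  classical
  set Q : Polynomial ℂ := ∑ i ∈ Finset.range (N + 2), Polynomial.C (q i) * Polynomial.X ^ i with hQ
  have hcoef : ∀ k, Q.coeff k = if k ≤ N + 1 then q k else 0 := by
    intro k
    rw [hQ, Polynomial.finsetSum_coeff]
    simp only [Polynomial.coeff_C_mul_X_pow]
    rw [Finset.sum_ite_eq (Finset.range (N + 2)) k q]
    simp only [Finset.mem_range]
    by_cases h : k ≤ N + 1
    · rw [if_pos (by omega), if_pos h]
    · rw [if_neg (by omega), if_neg h]
  have hdeg : Q.natDegree = N + 1 := by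
    apply le_antisymm
    · rw [Polynomial.natDegree_le_iff_coeff_eq_zero]
      intro k hk
      rw [hcoef, if_neg (by omega)]
    · apply Polynomial.le_natDegree_of_ne_zero
      rw [hcoef, if_pos le_rfl]; exact hq
  have hQ0 : Q ≠ 0 := by
    intro h
    rw [h] at hdeg
    simp at hdeg
  obtain ⟨x, hx⟩ := IsAlgClosed.exists_root Q (by
    intro h
    have := Polynomial.natDegree_eq_zero_iff_degree_le_zero.2 h.le
    omega)
  obtain ⟨P, hP⟩ := Polynomial.dvd_iff_isRoot.2 hx
  have hP0 : P ≠ 0 := by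
    rintro rfl
    exact hQ0 (by rw [hP, mul_zero])
  have hPdeg : P.natDegree = N := by
    have h1 := Polynomial.natDegree_mul (Polynomial.X_sub_C_ne_zero x) hP0
    rw [← hP, hdeg, Polynomial.natDegree_X_sub_C] at h1
    omega
  refine ⟨x, fun i => P.coeff i, ?_, ?_⟩
  · have : P.leadingCoeff ≠ 0 := Polynomial.leadingCoeff_ne_zero.2 hP0
    rwa [Polynomial.leadingCoeff, hPdeg] at this
  · have h1 : kDr_kDrQs (N + 1) q = (Q : PowerSeries ℂ) := by
      ext k
      rw [kDr_kDrQs, PowerSeries.coeff_mk, Polynomial.coeff_coe, hcoef]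
    have h2 : kDr_kDrQs N (fun i => P.coeff i) = (P : PowerSeries ℂ) := by
      ext k
      rw [kDr_kDrQs, PowerSeries.coeff_mk, Polynomial.coeff_coe]
      split_ifs with h
      · rfl
      · exact (Polynomial.coeff_eq_zero_of_natDegree_lt (by omega)).symm
    rw [h1, h2, hP, Polynomial.coe_mul, Polynomial.coe_sub, Polynomial.coe_X, Polynomial.coe_C]

theorem kDr_kDr_div (x : ℂ) (d : ℕ → ℂ) (hd : Dec d) :
    ∃ (d' : ℕ → ℂ) (s : ℂ), Dec d' ∧ (∀ k, d (k + 1) = d' k - x * d' (k + 1)) ∧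
      d 0 = s - x * d' 0 := by
  have key : ∀ ρ : ℝ, 0 < ρ → ∃ σ M : ℝ, ρ ≤ σ ∧ 1 ≤ σ ∧ 0 ≤ M ∧
      ∀ k j, ‖d (k + j) * x ^ j‖ ≤ M / σ ^ k * (1 / 2) ^ j := by
    intro ρ hρ
    set σ : ℝ := max ρ (2 * ‖x‖ + 1) with hσ
    have h1 : ρ ≤ σ := le_max_left _ _
    have h2 : 2 * ‖x‖ + 1 ≤ σ := le_max_right _ _
    have hx0 := norm_nonneg x
    have h3 : 0 < σ := by linarith
    obtain ⟨M, hM⟩ := hd σ h3
    have hM0 : 0 ≤ M := by
      have := hM 0
      have h4 := norm_nonneg (d 0)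
      simp only [pow_zero, mul_one] at this
      linarith
    refine ⟨σ, M, h1, by linarith, hM0, ?_⟩
    intro k j
    have h5 := hM (k + j)
    have h6 : ‖d (k + j)‖ ≤ M / σ ^ (k + j) := by
      rw [le_div_iff₀ (by positivity)]; exact h5
    have h7 : ‖x‖ ^ j ≤ (σ * (1 / 2)) ^ j := by
      apply pow_le_pow_left₀ hx0
      linarith
    rw [norm_mul, norm_pow]
    calc ‖d (k + j)‖ * ‖x‖ ^ j ≤ M / σ ^ (k + j) * (σ * (1 / 2)) ^ j := by gcongr
      _ = M / σ ^ k * (1 / 2) ^ j := by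
        rw [pow_add, mul_pow]
        field_simp
  have hsum : ∀ k, Summable (fun j => d (k + j) * x ^ j) := by
    intro k
    obtain ⟨σ, M, -, h1, hM, h2⟩ := key 1 one_pos
    exact Summable.of_norm_bounded
      ((summable_geometric_of_lt_one (by norm_num) (by norm_num)).mul_left (M / σ ^ k)) (h2 k)
  have hrec : ∀ k, ∑' j, d (k + j) * x ^ j = d k + x * ∑' j, d (k + 1 + j) * x ^ j := by
    intro k
    rw [(hsum k).tsum_eq_zero_add, ← tsum_mul_left]
    simp only [add_zero, pow_zero, mul_one]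
    congr 1
    apply tsum_congr
    intro j
    rw [show k + (j + 1) = k + 1 + j by ring, pow_succ]
    ring
  refine ⟨fun k => ∑' j, d (k + 1 + j) * x ^ j, ∑' j, d (0 + j) * x ^ j, ?_, ?_, ?_⟩
  · intro ρ hρ
    obtain ⟨σ, M, h0, h1, hM, h2⟩ := key ρ hρ
    refine ⟨2 * M, fun k => ?_⟩
    have h3 : ‖∑' j, d (k + 1 + j) * x ^ j‖ ≤ M / σ ^ (k + 1) * 2 :=
      tsum_of_norm_bounded (hasSum_geometric_two.mul_left (M / σ ^ (k + 1))) (h2 (k + 1))
    have h4 : 0 < σ := by linarith
    calc ‖∑' j, d (k + 1 + j) * x ^ j‖ * ρ ^ k ≤ (M / σ ^ (k + 1) * 2) * σ ^ k := by gcongr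
      _ = 2 * M / σ := by rw [pow_succ]; field_simp
      _ ≤ 2 * M := div_le_self (by linarith) h1
  · intro k
    have := hrec (k + 1)
    simp only []
    rw [this]; ring
  · have := hrec 0
    simp only [zero_add] at this ⊢
    rw [this]; ring

/-- division with remainder of an entire function by a polynomial -/
theorem div_rem (N : ℕ) (q : ℕ → ℂ) (hq : q N ≠ 0) (d : ℕ → ℂ) (hd : Dec d) :
    ∃ b r : ℕ → ℂ, Dec b ∧ (∀ k, N ≤ k → r k = 0) ∧ ∀ k, d k = cv N q b k + r k := by
  induction N generalizing q d with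
  | zero =>
    refine ⟨fun k => d k / q 0, fun _ => 0, ?_, fun _ _ => rfl, ?_⟩
    · intro ρ hρ
      obtain ⟨M, hM⟩ := hd ρ hρ
      refine ⟨M / ‖q 0‖, fun k => ?_⟩
      rw [norm_div, div_mul_eq_mul_div]
      exact div_le_div_of_nonneg_right (hM k) (norm_nonneg _)
    · intro k
      simp only [cv, zero_add, Finset.range_one, Finset.sum_singleton, Nat.zero_le, if_true,
        Nat.sub_zero, add_zero]
      field_simp
  | succ N ih =>
    obtain ⟨x, q', hq', hfac⟩ := kDr_kDr_factor N q hq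
    obtain ⟨d', s, hd', h1, h2⟩ := kDr_kDr_div x d hd
    obtain ⟨b, r', hb, hr', hdr⟩ := ih q' hq' d' hd'
    refine ⟨b, fun k => PowerSeries.coeff k ((PowerSeries.X - PowerSeries.C x) *
      PowerSeries.mk r' + PowerSeries.C s), hb, ?_, ?_⟩
    · intro k hk
      obtain ⟨m, rfl⟩ : ∃ m, k = m + 1 := ⟨k - 1, by omega⟩
      simp only [map_add, sub_mul, map_sub, PowerSeries.coeff_succ_X_mul, PowerSeries.coeff_C_mul,
        PowerSeries.coeff_mk, PowerSeries.coeff_C]
      rw [hr' m (by omega), hr' (m + 1) (by omega)]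
      simp
    · have e1 : PowerSeries.mk d' = kDr_kDrQs N q' * PowerSeries.mk b + PowerSeries.mk r' := by
        ext k
        rw [map_add, kDr_kDr_cv, PowerSeries.coeff_mk, PowerSeries.coeff_mk, hdr k]
      have e2 : PowerSeries.mk d = (PowerSeries.X - PowerSeries.C x) * PowerSeries.mk d' +
          PowerSeries.C s := by
        ext k
        rcases k with _ | k
        · simp only [map_add, sub_mul, map_sub, PowerSeries.coeff_zero_X_mul,
            PowerSeries.coeff_C_mul, PowerSeries.coeff_mk, PowerSeries.coeff_zero_C]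
          rw [h2]; ring
        · simp only [map_add, sub_mul, map_sub, PowerSeries.coeff_succ_X_mul,
            PowerSeries.coeff_C_mul, PowerSeries.coeff_mk, PowerSeries.coeff_C]
          rw [h1 k]; simp
      intro k
      have e3 : PowerSeries.mk d = kDr_kDrQs (N + 1) q * PowerSeries.mk b +
          ((PowerSeries.X - PowerSeries.C x) * PowerSeries.mk r' + PowerSeries.C s) := by
        rw [e2, e1, hfac]; ring
      have e4 := congrArg (PowerSeries.coeff k) e3
      rw [map_add, kDr_kDr_cv, PowerSeries.coeff_mk] at e4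
      exact e4

/-! ### kSb -/

/-- there are `N` linearly independent solutions of the recurrence -/
theorem sol_basis (N : ℕ) (q : ℕ → ℂ) (hq : q N ≠ 0) :
    ∃ e : Fin N → ℕ → ℂ, (∀ c : Fin N → ℂ, (∀ k, ∑ i, c i * e i k = 0) → c = 0) ∧
      ∀ i k, ∑ j ∈ Finset.range (N + 1), q j * e i (k + j) = 0 := by
  let E : LinearRecurrence ℂ := { order := N, coeffs := fun i => -(q N)⁻¹ * q i }
  refine ⟨fun i => E.mkSol (fun j : Fin N => if j = i then (1 : ℂ) else 0), ?_, ?_⟩
  · intro c hc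
    funext i0
    have h := hc (i0 : ℕ)
    have h2 : ∀ i : Fin N, E.mkSol (fun j : Fin N => if j = i then (1 : ℂ) else 0) (i0 : ℕ) =
        if i0 = i then (1 : ℂ) else 0 := fun i =>
      E.mkSol_eq_init (fun j : Fin N => if j = i then (1 : ℂ) else 0) i0
    simp only [h2] at h
    simpa using h
  · intro i k
    have h := E.is_sol_mkSol (fun j : Fin N => if j = i then (1 : ℂ) else 0) k
    set u : ℕ → ℂ := E.mkSol (fun j : Fin N => if j = i then (1 : ℂ) else 0) with hu
    change u (k + N) = ∑ j : Fin N, (-(q N)⁻¹ * q j) * u (k + j) at h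
    change ∑ j ∈ Finset.range (N + 1), q j * u (k + j) = 0
    rw [Finset.sum_range_succ, h, Finset.mul_sum, ← Fin.sum_univ_eq_sum_range
      (fun j => q j * u (k + j)) N, ← Finset.sum_add_distrib]
    apply Finset.sum_eq_zero
    intro j _
    field_simp
    ring

/-! ### kSm -/

theorem span_mod {E : Type*} [AddCommGroup E] [Module ℂ E] (S : Submodule ℂ E) (V : Set E)
    (N : ℕ) (u v : Fin N → E) (hu : ∀ x ∈ V, ∃ c : Fin N → ℂ, x - ∑ i, c i • u i ∈ S)
    (hvV : ∀ i, v i ∈ V) (hv : ∀ c : Fin N → ℂ, ∑ i, c i • v i ∈ S → c = 0)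
    (x : E) (hx : x ∈ V) : ∃ c : Fin N → ℂ, x - ∑ i, c i • v i ∈ S := by
  classical
  set ub : Fin N → E ⧸ S := fun i => Submodule.Quotient.mk (u i) with hub
  set vb : Fin N → E ⧸ S := fun i => Submodule.Quotient.mk (v i) with hvb
  have hmkv : ∀ c : Fin N → ℂ, (Submodule.Quotient.mk (∑ i, c i • v i) : E ⧸ S) = ∑ i, c i • vb i := by
    intro c
    have h := map_sum S.mkQ (fun i => c i • v i) Finset.univ
    calc (Submodule.Quotient.mk (∑ i, c i • v i) : E ⧸ S) = S.mkQ (∑ i, c i • v i) := rfl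
      _ = ∑ i, S.mkQ (c i • v i) := h
      _ = ∑ i, c i • vb i := by
          refine Finset.sum_congr rfl fun i _ => ?_
          rw [map_smul]
          rfl
  have hmku : ∀ c : Fin N → ℂ, (Submodule.Quotient.mk (∑ i, c i • u i) : E ⧸ S) = ∑ i, c i • ub i := by
    intro c
    have h := map_sum S.mkQ (fun i => c i • u i) Finset.univ
    calc (Submodule.Quotient.mk (∑ i, c i • u i) : E ⧸ S) = S.mkQ (∑ i, c i • u i) := rfl
      _ = ∑ i, S.mkQ (c i • u i) := h
      _ = ∑ i, c i • ub i := by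
          refine Finset.sum_congr rfl fun i _ => ?_
          rw [map_smul]
          rfl
  have hli : LinearIndependent ℂ vb := by
    rw [Fintype.linearIndependent_iff]
    intro g hg
    rw [← hmkv, Submodule.Quotient.mk_eq_zero] at hg
    have h0 := hv g hg
    intro i
    rw [h0]
    rfl
  have himg : ∀ y ∈ V, (Submodule.Quotient.mk y : E ⧸ S) ∈ Submodule.span ℂ (Set.range ub) := by
    intro y hy
    obtain ⟨c, hc⟩ := hu y hy
    rw [← Submodule.Quotient.eq, hmku] at hc
    rw [hc, Submodule.mem_span_range_iff_exists_fun]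
    exact ⟨c, rfl⟩
  have hle : Submodule.span ℂ (Set.range vb) ≤ Submodule.span ℂ (Set.range ub) := by
    rw [Submodule.span_le]
    rintro _ ⟨i, rfl⟩
    exact himg _ (hvV i)
  have hfv : Module.finrank ℂ (Submodule.span ℂ (Set.range vb)) = N := by
    rw [finrank_span_eq_card hli, Fintype.card_fin]
  have hfu : Module.finrank ℂ (Submodule.span ℂ (Set.range ub)) ≤ N := by
    have := finrank_range_le_card (R := ℂ) ub
    simpa [Set.finrank] using this
  haveI : FiniteDimensional ℂ (Submodule.span ℂ (Set.range ub)) :=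
    FiniteDimensional.span_of_finite ℂ (Set.finite_range ub)
  have heq : Submodule.span ℂ (Set.range vb) = Submodule.span ℂ (Set.range ub) :=
    Submodule.eq_of_le_of_finrank_le hle (by rw [hfv]; exact hfu)
  have hxm := himg x hx
  rw [← heq, Submodule.mem_span_range_iff_exists_fun] at hxm
  obtain ⟨c, hc⟩ := hxm
  refine ⟨c, ?_⟩
  rw [← Submodule.Quotient.eq, hmkv, hc]

/-! ### kRy -/

theorem kRy_rs_dec_add (b b' : ℕ → ℂ) (h : Dec b) (h' : Dec b') : Dec (b + b') := by
  intro ρ hρ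
  obtain ⟨M, hM⟩ := h ρ hρ
  obtain ⟨M', hM'⟩ := h' ρ hρ
  refine ⟨M + M', fun k => ?_⟩
  calc ‖(b + b') k‖ * ρ ^ k ≤ (‖b k‖ + ‖b' k‖) * ρ ^ k := by
        apply mul_le_mul_of_nonneg_right _ (by positivity)
        exact norm_add_le _ _
    _ = ‖b k‖ * ρ ^ k + ‖b' k‖ * ρ ^ k := by ring
    _ ≤ M + M' := add_le_add (hM k) (hM' k)

theorem kRy_rs_dec_smul (c : ℂ) (b : ℕ → ℂ) (h : Dec b) : Dec (c • b) := by
  intro ρ hρ
  obtain ⟨M, hM⟩ := h ρ hρ
  refine ⟨‖c‖ * M, fun k => ?_⟩
  rw [Pi.smul_apply, norm_smul, mul_assoc]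
  exact mul_le_mul_of_nonneg_left (hM k) (norm_nonneg _)

theorem kRy_rs_dec_zero : Dec (fun _ => 0) := by
  intro ρ _
  exact ⟨0, fun k => by simp⟩

theorem kRy_rs_cv_add (N : ℕ) (q b b' : ℕ → ℂ) : cv N q (b + b') = cv N q b + cv N q b' := by
  funext k
  unfold cv
  rw [Pi.add_apply, ← Finset.sum_add_distrib]
  apply Finset.sum_congr rfl
  intro i _
  split_ifs
  · rw [Pi.add_apply, mul_add]
  · rw [add_zero]

theorem kRy_rs_cv_smul (N : ℕ) (q : ℕ → ℂ) (c : ℂ) (b : ℕ → ℂ) : cv N q (c • b) = c • cv N q b := by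
  funext k
  unfold cv
  rw [Pi.smul_apply, smul_eq_mul, Finset.mul_sum]
  apply Finset.sum_congr rfl
  intro i _
  split_ifs
  · rw [Pi.smul_apply, smul_eq_mul]; ring
  · rw [mul_zero]

theorem kRy_rs_cv_zero (N : ℕ) (q : ℕ → ℂ) : cv N q 0 = 0 := by
  funext k
  unfold cv
  simp

/-- the sequences `cv N q b` -/
noncomputable def kRy_rsS (N : ℕ) (q : ℕ → ℂ) : Submodule ℂ (ℕ → ℂ) where
  carrier := {x | ∃ b, Dec b ∧ x = cv N q b}
  add_mem' := by
    rintro _ _ ⟨b, hb, rfl⟩ ⟨b', hb', rfl⟩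
    exact ⟨b + b', kRy_rs_dec_add b b' hb hb', (kRy_rs_cv_add N q b b').symm⟩
  zero_mem' := ⟨0, kRy_rs_dec_zero, (kRy_rs_cv_zero N q).symm⟩
  smul_mem' := by
    rintro c _ ⟨b, hb, rfl⟩
    exact ⟨c • b, kRy_rs_dec_smul c b hb, (kRy_rs_cv_smul N q c b).symm⟩

/-- solvability on one ray -/
theorem ray_surj (N : ℕ) (q : ℕ → ℂ) (hq : q N ≠ 0) (W : ℕ → ℝ) (hW : ∀ k, 0 < W k)
    (hW2 : ∀ k l, l ≤ k → ((k - l).factorial : ℝ) * W l ≤ W k) (g : ℕ → ℂ) (hg : Dec g) :
    ∃ b : ℕ → ℂ, Dec b ∧ ∀ k, ∑ j ∈ Finset.range (N + 1), (starRingEnd ℂ) (q j) *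
      ((W (k + j) : ℂ) * cv N q b (k + j)) = (W k : ℂ) * g k := by
  obtain ⟨q', hq'⟩ : ∃ q' : ℕ → ℂ, q' = fun j => (starRingEnd ℂ) (q j) := ⟨_, rfl⟩
  have hq'j : ∀ j, q' j = (starRingEnd ℂ) (q j) := fun j => by rw [hq']
  have hq'N : q' N ≠ 0 := by
    rw [hq'j]
    intro h
    exact hq ((map_eq_zero _).mp h)
  have hWc : ∀ k, (W k : ℂ) ≠ 0 := fun k => by
    exact_mod_cast (hW k).ne'
  obtain ⟨G0, hG0⟩ := rec_solve N q' hq'N (fun k => (W k : ℂ) * g k)
  have hd0 : Dec (fun k => G0 k / (W k : ℂ)) := dec_quot N q' hq'N W hW hW2 g hg G0 hG0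
  obtain ⟨e, he1, he2⟩ := sol_basis N q' hq'N
  have hv : ∀ i, Dec (fun k => e i k / (W k : ℂ)) := by
    intro i
    apply dec_quot N q' hq'N W hW hW2 (fun _ => 0) kRy_rs_dec_zero (e i)
    intro k
    rw [he2 i k, mul_zero]
  obtain ⟨v, hvdef⟩ : ∃ v : Fin N → (ℕ → ℂ), v = fun i k => e i k / (W k : ℂ) := ⟨_, rfl⟩
  have hcomb : ∀ (c : Fin N → ℂ) (k : ℕ), (W k : ℂ) * (∑ i, c i • v i) k = ∑ i, c i * e i k := by
    intro c k
    rw [Finset.sum_apply, Finset.mul_sum]
    apply Finset.sum_congr rfl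
    intro i _
    rw [hvdef, Pi.smul_apply, smul_eq_mul]
    have := hWc k
    field_simp
  have hhom : ∀ (c : Fin N → ℂ) (k : ℕ),
      ∑ j ∈ Finset.range (N + 1), q' j * ∑ i, c i * e i (k + j) = 0 := by
    intro c k
    have h1 : ∑ j ∈ Finset.range (N + 1), q' j * ∑ i, c i * e i (k + j)
        = ∑ i, c i * ∑ j ∈ Finset.range (N + 1), q' j * e i (k + j) := by
      simp only [Finset.mul_sum]
      rw [Finset.sum_comm]
      apply Finset.sum_congr rfl
      intro i _
      apply Finset.sum_congr rfl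
      intro j _
      ring
    rw [h1]
    simp only [he2, mul_zero, Finset.sum_const_zero]
  have H1 : ∀ x ∈ {d : ℕ → ℂ | Dec d}, ∃ c : Fin N → ℂ,
      x - ∑ i, c i • (fun (i : Fin N) (k : ℕ) => if k = (i : ℕ) then (1 : ℂ) else 0) i ∈ kRy_rsS N q := by
    intro x hx
    obtain ⟨b, r, hb, hr, hxe⟩ := div_rem N q hq x hx
    refine ⟨fun i => r i, b, hb, ?_⟩
    funext k
    rw [Pi.sub_apply, hxe k, Finset.sum_apply]
    have h2 : ∑ i : Fin N, ((fun i : Fin N => r i) i • fun k => if k = (i : ℕ) then (1 : ℂ) else 0) k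
        = r k := by
      by_cases hk : k < N
      · rw [Finset.sum_eq_single (⟨k, hk⟩ : Fin N)]
        · simp
        · intro i _ hi
          have : k ≠ (i : ℕ) := by
            intro h
            apply hi
            exact Fin.ext h.symm
          simp [this]
        · intro h; exact absurd (Finset.mem_univ _) h
      · rw [hr k (by omega)]
        apply Finset.sum_eq_zero
        intro i _
        have : k ≠ (i : ℕ) := by have := i.2; omega
        simp [this]
    rw [h2]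
    ring
  have H2 : ∀ i, v i ∈ {d : ℕ → ℂ | Dec d} := by
    intro i
    change Dec (v i)
    rw [hvdef]
    exact hv i
  have H3 : ∀ c : Fin N → ℂ, ∑ i, c i • v i ∈ kRy_rsS N q → c = 0 := by
    rintro c ⟨b, hb, hbe⟩
    have hz : ∀ k, cv N q b k = 0 := by
      intro k
      apply block_zero N q hq b W hW hb
      intro k
      change ∑ j ∈ Finset.range (N + 1), (starRingEnd ℂ) (q j) *
        ((W (k + j) : ℂ) * cv N q b (k + j)) = 0
      rw [← hbe]
      simp only [hcomb, ← hq'j]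
      exact hhom c k
    apply he1
    intro k
    rw [← hcomb c k, hbe, hz k, mul_zero]
  obtain ⟨c, hc⟩ := span_mod (kRy_rsS N q) {d | Dec d} N
    (fun i k => if k = (i : ℕ) then (1 : ℂ) else 0) v H1 H2 H3 (fun k => G0 k / (W k : ℂ)) hd0
  obtain ⟨b, hb, hbe⟩ := hc
  refine ⟨b, hb, ?_⟩
  intro k
  have h1 : ∀ l, (W l : ℂ) * cv N q b l = G0 l - ∑ i, c i * e i l := by
    intro l
    rw [← hbe, Pi.sub_apply, mul_sub, hcomb]
    have := hWc l
    congr 1
    field_simp
  simp only [h1, ← hq'j, mul_sub, Finset.sum_sub_distrib]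
  rw [hG0, hhom, sub_zero]

/-! ### kAp -/

/-- a bound for the solution if the weights grow fast -/
theorem apriori (N : ℕ) (q : ℕ → ℂ) (hq : q N ≠ 0) :
    ∃ ρ₀ C : ℝ, 1 ≤ ρ₀ ∧ 0 ≤ C ∧ ∀ ρ : ℝ, ρ₀ ≤ ρ → ∃ w₀ : ℝ, 1 ≤ w₀ ∧ ∀ W : ℕ → ℝ,
      (∀ k, 0 < W k) → (∀ k, w₀ * W k ≤ W (k + 1)) → ∀ b g : ℕ → ℂ, Dec b →
      (∀ k, ∑ j ∈ Finset.range (N + 1), (starRingEnd ℂ) (q j) *
        ((W (k + j) : ℂ) * cv N q b (k + j)) = (W k : ℂ) * g k) →
      ∀ M : ℝ, (∀ k, ‖g k‖ * ρ ^ k ≤ M) → ∀ k, ‖b k‖ * ρ ^ k ≤ C * M := by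
  set c : ℝ := ‖q N‖ with hc
  have hc0 : 0 < c := norm_pos_iff.2 hq
  set S : ℝ := ∑ i ∈ Finset.range (N + 1), ‖q i‖ with hS
  have hS0 : 0 ≤ S := Finset.sum_nonneg fun i _ => norm_nonneg _
  refine ⟨max 1 (4 * S / c), 2 / c ^ 2, le_max_left _ _, by positivity, fun ρ hρ => ?_⟩
  have hρ1 : 1 ≤ ρ := (le_max_left _ _).trans hρ
  have hρ2 : 4 * S / c ≤ ρ := (le_max_right _ _).trans hρ
  have hρ0 : 0 < ρ := by linarith
  refine ⟨max 1 (4 * S ^ 2 * ρ ^ N / c ^ 2), le_max_left _ _, fun W hW hW1 b g hb hE M hM => ?_⟩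
  set w₀ : ℝ := max 1 (4 * S ^ 2 * ρ ^ N / c ^ 2) with hw
  have hw1 : 1 ≤ w₀ := le_max_left _ _
  have hw2 : 4 * S ^ 2 * ρ ^ N / c ^ 2 ≤ w₀ := le_max_right _ _
  have hw0 : 0 < w₀ := by linarith
  have hM0 : 0 ≤ M := le_trans (by positivity) (hM 0)
  have hmono : ∀ k j, W k ≤ W (k + j) := by
    intro k j
    induction j with
    | zero => exact le_rfl
    | succ j ih =>
      have h1 := hW1 (k + j)
      have h2 : W (k + j) ≤ w₀ * W (k + j) := by nlinarith [hW (k + j)]
      exact ih.trans (h2.trans h1)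
  have hstep : ∀ k j, j < N → w₀ * W (k + j) ≤ W (k + N) := by
    intro k j hj
    have h1 := hW1 (k + j)
    have h2 := hmono (k + j + 1) (N - j - 1)
    have h3 : k + j + 1 + (N - j - 1) = k + N := by omega
    rw [h3] at h2
    exact h1.trans h2
  obtain ⟨M', hM'⟩ := hb ρ hρ0
  have hbdd : BddAbove (Set.range fun k => ‖b k‖ * ρ ^ k) := ⟨M', by
    rintro _ ⟨k, rfl⟩; exact hM' k⟩
  set β : ℝ := ⨆ k, ‖b k‖ * ρ ^ k with hβ
  have hβk : ∀ k, ‖b k‖ * ρ ^ k ≤ β := fun k => le_ciSup hbdd k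
  have hβ0 : 0 ≤ β := le_trans (by positivity) (hβk 0)
  have hcv : ∀ k j, ‖cv N q b (k + j)‖ * ρ ^ k ≤ S * (ρ ^ N * β) := by
    intro k j
    unfold cv
    calc ‖∑ i ∈ Finset.range (N + 1), if i ≤ k + j then q i * b (k + j - i) else 0‖ * ρ ^ k
        ≤ (∑ i ∈ Finset.range (N + 1), ‖if i ≤ k + j then q i * b (k + j - i) else 0‖) * ρ ^ k := by
          gcongr; exact norm_sum_le _ _
      _ = ∑ i ∈ Finset.range (N + 1), ‖if i ≤ k + j then q i * b (k + j - i) else 0‖ * ρ ^ k := by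
          rw [Finset.sum_mul]
      _ ≤ ∑ i ∈ Finset.range (N + 1), ‖q i‖ * (ρ ^ N * β) := by
          refine Finset.sum_le_sum fun i hi => ?_
          have hi' : i ≤ N := Nat.lt_succ_iff.1 (Finset.mem_range.1 hi)
          split_ifs with h
          · rw [norm_mul]
            have h1 := hβk (k + j - i)
            have h2 : ρ ^ k ≤ ρ ^ N * ρ ^ (k + j - i) := by
              rw [← pow_add]
              exact pow_le_pow_right₀ hρ1 (by omega)
            calc ‖q i‖ * ‖b (k + j - i)‖ * ρ ^ k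
                ≤ ‖q i‖ * ‖b (k + j - i)‖ * (ρ ^ N * ρ ^ (k + j - i)) := by gcongr
              _ = ‖q i‖ * (ρ ^ N * (‖b (k + j - i)‖ * ρ ^ (k + j - i))) := by ring
              _ ≤ ‖q i‖ * (ρ ^ N * β) := by gcongr
          · rw [norm_zero, zero_mul]; positivity
      _ = S * (ρ ^ N * β) := by rw [← Finset.sum_mul]
  have hSN : ∑ i ∈ Finset.range N, ‖q i‖ ≤ S := by
    rw [hS, Finset.sum_range_succ]
    linarith [norm_nonneg (q N)]
  have main : ∀ k, c ^ 2 * (‖b k‖ * ρ ^ k) ≤ M + c ^ 2 * β / 2 := by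
    intro k
    have hWN := hW (k + N)
    set A : ℂ := ∑ j ∈ Finset.range N, (starRingEnd ℂ) (q j) *
        ((W (k + j) : ℂ) * cv N q b (k + j)) with hA
    set B : ℂ := ∑ i ∈ Finset.range N, q i * b (k + N - i) with hB
    have hcvN : cv N q b (k + N) = B + q N * b k := by
      unfold cv
      rw [Finset.sum_range_succ, if_pos (by omega), Nat.add_sub_cancel, hB]
      congr 1
      refine Finset.sum_congr rfl fun i hi => ?_
      have := Finset.mem_range.1 hi
      rw [if_pos (by omega)]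
    have hEk := hE k
    rw [Finset.sum_range_succ, ← hA, hcvN] at hEk
    have hEk2 : (starRingEnd ℂ) (q N) * q N * (W (k + N) : ℂ) * b k =
        (W k : ℂ) * g k - A - (starRingEnd ℂ) (q N) * (W (k + N) : ℂ) * B := by
      linear_combination hEk
    have hn := congrArg norm hEk2
    have hL : ‖(starRingEnd ℂ) (q N) * q N * (W (k + N) : ℂ) * b k‖ =
        c ^ 2 * W (k + N) * ‖b k‖ := by
      rw [norm_mul, norm_mul, norm_mul, RCLike.norm_conj, Complex.norm_real, Real.norm_eq_abs,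
        abs_of_pos hWN]
      ring
    have hR : ‖(W k : ℂ) * g k - A - (starRingEnd ℂ) (q N) * (W (k + N) : ℂ) * B‖ ≤
        W k * ‖g k‖ + ‖A‖ + c * W (k + N) * ‖B‖ := by
      refine (norm_sub_le _ _).trans ?_
      refine add_le_add ((norm_sub_le _ _).trans ?_) ?_
      · rw [norm_mul, Complex.norm_real, Real.norm_eq_abs, abs_of_pos (hW k)]
      · rw [norm_mul, norm_mul, RCLike.norm_conj, Complex.norm_real, Real.norm_eq_abs,
          abs_of_pos hWN]
    rw [hL] at hn
    rw [← hn] at hR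
    have hAb : ‖A‖ * ρ ^ k ≤ W (k + N) * (c ^ 2 * β / 4) := by
      calc ‖A‖ * ρ ^ k ≤ (∑ j ∈ Finset.range N, ‖(starRingEnd ℂ) (q j) *
            ((W (k + j) : ℂ) * cv N q b (k + j))‖) * ρ ^ k := by
            gcongr; exact norm_sum_le _ _
        _ = ∑ j ∈ Finset.range N, ‖(starRingEnd ℂ) (q j) *
            ((W (k + j) : ℂ) * cv N q b (k + j))‖ * ρ ^ k := by rw [Finset.sum_mul]
        _ ≤ ∑ j ∈ Finset.range N, ‖q j‖ * (W (k + N) / w₀ * (S * (ρ ^ N * β))) := by
            refine Finset.sum_le_sum fun j hj => ?_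
            have hj' := Finset.mem_range.1 hj
            have h1 := hstep k j hj'
            have h2 := hcv k j
            have h3 : W (k + j) ≤ W (k + N) / w₀ := by
              rw [le_div_iff₀ hw0]; linarith
            rw [norm_mul, norm_mul, RCLike.norm_conj, Complex.norm_real, Real.norm_eq_abs,
              abs_of_pos (hW (k + j))]
            calc ‖q j‖ * (W (k + j) * ‖cv N q b (k + j)‖) * ρ ^ k
                = ‖q j‖ * (W (k + j) * (‖cv N q b (k + j)‖ * ρ ^ k)) := by ring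
              _ ≤ ‖q j‖ * (W (k + N) / w₀ * (S * (ρ ^ N * β))) := by
                  have h4 := (hW (k + j)).le
                  gcongr
        _ = (∑ j ∈ Finset.range N, ‖q j‖) * (W (k + N) / w₀ * (S * (ρ ^ N * β))) := by
            rw [← Finset.sum_mul]
        _ ≤ S * (W (k + N) / w₀ * (S * (ρ ^ N * β))) := by gcongr
        _ = W (k + N) * β * (S ^ 2 * ρ ^ N) / w₀ := by ring
        _ ≤ W (k + N) * (c ^ 2 * β / 4) := by
            rw [div_le_iff₀ hw0]
            have h5 : 4 * S ^ 2 * ρ ^ N ≤ w₀ * c ^ 2 := by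
              rwa [div_le_iff₀ (by positivity)] at hw2
            have h6 : 0 ≤ W (k + N) * β := by positivity
            nlinarith [mul_le_mul_of_nonneg_left h5 h6]
    have hBb : ‖B‖ * ρ ^ k ≤ c * β / 4 := by
      calc ‖B‖ * ρ ^ k ≤ (∑ i ∈ Finset.range N, ‖q i * b (k + N - i)‖) * ρ ^ k := by
            gcongr; exact norm_sum_le _ _
        _ = ∑ i ∈ Finset.range N, ‖q i * b (k + N - i)‖ * ρ ^ k := by rw [Finset.sum_mul]
        _ ≤ ∑ i ∈ Finset.range N, ‖q i‖ * (β / ρ) := by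
            refine Finset.sum_le_sum fun i hi => ?_
            have hi' := Finset.mem_range.1 hi
            rw [norm_mul, mul_assoc]
            refine mul_le_mul_of_nonneg_left ?_ (norm_nonneg _)
            rw [le_div_iff₀ hρ0]
            have h1 := hβk (k + N - i)
            have h2 : ρ ^ k * ρ ≤ ρ ^ (k + N - i) := by
              rw [← pow_succ]
              exact pow_le_pow_right₀ hρ1 (by omega)
            calc ‖b (k + N - i)‖ * ρ ^ k * ρ = ‖b (k + N - i)‖ * (ρ ^ k * ρ) := by ring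
              _ ≤ ‖b (k + N - i)‖ * ρ ^ (k + N - i) := by gcongr
              _ ≤ β := h1
        _ = (∑ i ∈ Finset.range N, ‖q i‖) * (β / ρ) := by rw [← Finset.sum_mul]
        _ ≤ S * (β / ρ) := by gcongr
        _ = S * β / ρ := by ring
        _ ≤ c * β / 4 := by
            rw [div_le_iff₀ hρ0]
            have h5 : 4 * S ≤ ρ * c := by rwa [div_le_iff₀ hc0] at hρ2
            nlinarith [mul_le_mul_of_nonneg_right h5 hβ0]
    have hgb : W k * ‖g k‖ * ρ ^ k ≤ W (k + N) * M := by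
      have h1 := hM k
      have h2 := hmono k N
      have h4 := (hW k).le
      calc W k * ‖g k‖ * ρ ^ k = W k * (‖g k‖ * ρ ^ k) := by ring
        _ ≤ W (k + N) * M := by gcongr
    have hρk : 0 ≤ ρ ^ k := by positivity
    have hfin : W (k + N) * (c ^ 2 * (‖b k‖ * ρ ^ k)) ≤ W (k + N) * (M + c ^ 2 * β / 2) := by
      calc W (k + N) * (c ^ 2 * (‖b k‖ * ρ ^ k)) = c ^ 2 * W (k + N) * ‖b k‖ * ρ ^ k := by ring
        _ ≤ (W k * ‖g k‖ + ‖A‖ + c * W (k + N) * ‖B‖) * ρ ^ k := by gcongr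
        _ = W k * ‖g k‖ * ρ ^ k + ‖A‖ * ρ ^ k + c * W (k + N) * (‖B‖ * ρ ^ k) := by ring
        _ ≤ W (k + N) * M + W (k + N) * (c ^ 2 * β / 4) + c * W (k + N) * (c * β / 4) := by
            gcongr
        _ = W (k + N) * (M + c ^ 2 * β / 2) := by ring
    exact le_of_mul_le_mul_left hfin hWN
  have hfin2 : β ≤ (M + c ^ 2 * β / 2) / c ^ 2 := by
    refine ciSup_le fun k => ?_
    rw [le_div_iff₀ (by positivity)]
    linarith [main k]
  intro k
  refine (hβk k).trans ?_
  rw [le_div_iff₀ (by positivity)] at hfin2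
  have h7 : β * c ^ 2 ≤ 2 * M := by nlinarith
  rw [div_mul_eq_mul_div, le_div_iff₀ (by positivity)]
  exact h7

/-! ### kRa -/

/-- the decomposition of `ℕ^n` into rays in the direction `a` -/
theorem rays {n : ℕ} (a : Fin n →₀ ℕ) (ha : a ≠ 0) :
    ∃ (B : (Fin n → ℕ) → (Fin n → ℕ)) (K : (Fin n → ℕ) → ℕ),
      (∀ γ i, γ i = B γ i + K γ * a i) ∧ (∀ γ j, (∀ i, j * a i ≤ γ i) ↔ j ≤ K γ) ∧
      (∀ γ k, B (fun i => γ i + k * a i) = B γ ∧ K (fun i => γ i + k * a i) = K γ + k) ∧
      ∀ γ, B (B γ) = B γ ∧ K (B γ) = 0 := by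
  classical
  obtain ⟨i0, hi0⟩ : ∃ i0, a i0 ≠ 0 := by
    by_contra hcon
    push Not at hcon
    exact ha (Finsupp.ext hcon)
  have hex : ∀ γ : Fin n → ℕ, ∃ K : ℕ, ∀ j, (∀ i, j * a i ≤ γ i) ↔ j ≤ K := by
    intro γ
    refine ⟨Nat.findGreatest (fun j => ∀ i, j * a i ≤ γ i) (γ i0), fun j => ⟨fun h => ?_, fun h => ?_⟩⟩
    · refine Nat.le_findGreatest ?_ h
      have h1 := h i0
      have h2 : 1 ≤ a i0 := Nat.one_le_iff_ne_zero.2 hi0
      nlinarith
    · have h0 : (fun j => ∀ i, j * a i ≤ γ i) 0 := by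
        intro i; simp
      have hs := Nat.findGreatest_spec (P := fun j => ∀ i, j * a i ≤ γ i) (Nat.zero_le (γ i0)) h0
      intro i
      exact (Nat.mul_le_mul_right _ h).trans (hs i)
  choose K hK using hex
  have hA : ∀ (γ : Fin n → ℕ) i, γ i = (γ i - K γ * a i) + K γ * a i := by
    intro γ i
    exact (Nat.sub_add_cancel ((hK γ (K γ)).2 le_rfl i)).symm
  have hKadd : ∀ (γ : Fin n → ℕ) (k : ℕ), K (fun i => γ i + k * a i) = K γ + k := by
    intro γ k
    have key : ∀ j, j ≤ K (fun i => γ i + k * a i) ↔ j ≤ K γ + k := by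
      intro j
      rw [← hK]
      constructor
      · intro h
        rcases le_total j k with hjk | hjk
        · omega
        · obtain ⟨j', rfl⟩ := Nat.exists_eq_add_of_le hjk
          have : j' ≤ K γ := by
            rw [← hK]
            intro i
            have := h i
            nlinarith
          omega
      · intro h i
        rcases le_total j k with hjk | hjk
        · exact (Nat.mul_le_mul_right _ hjk).trans (Nat.le_add_left _ _)
        · obtain ⟨j', rfl⟩ := Nat.exists_eq_add_of_le hjk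
          have : j' ≤ K γ := by omega
          have := (hK γ j').2 this i
          nlinarith
    exact le_antisymm ((key _).1 le_rfl) ((key _).2 le_rfl)
  have hBadd : ∀ (γ : Fin n → ℕ) (k : ℕ),
      (fun (γ : Fin n → ℕ) i => γ i - K γ * a i) (fun i => γ i + k * a i) =
      (fun (γ : Fin n → ℕ) i => γ i - K γ * a i) γ := by
    intro γ k
    funext i
    show γ i + k * a i - K (fun i => γ i + k * a i) * a i = γ i - K γ * a i
    rw [hKadd, add_mul]
    omega
  refine ⟨fun γ i => γ i - K γ * a i, K, hA, hK, fun γ k => ⟨hBadd γ k, hKadd γ k⟩, fun γ => ?_⟩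
  have hγ : (fun i => (γ i - K γ * a i) + K γ * a i) = γ := by
    funext i
    exact (hA γ i).symm
  have h1 := hBadd (fun i => γ i - K γ * a i) (K γ)
  have h2 := hKadd (fun i => γ i - K γ * a i) (K γ)
  rw [hγ] at h2
  constructor
  · rw [← h1]
    show _ = (fun (γ : Fin n → ℕ) i => γ i - K γ * a i) γ
    congr 1
  · have h3 : K γ = K (fun i => γ i - K γ * a i) + K γ := h2
    show K (fun i => γ i - K γ * a i) = 0
    omega

/-! ### kFr -/

theorem fac_ray {n : ℕ} (a : Fin n →₀ ℕ) (ha : a ≠ 0) (γ : Fin n → ℕ) (k l : ℕ) (h : l ≤ k) :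
    ((k - l).factorial : ℝ) * (fac (fun i => γ i + l * a i) : ℝ) ≤
      (fac (fun i => γ i + k * a i) : ℝ) := by
  have hex : ∃ i, a i ≠ 0 := by
    by_contra hc
    push Not at hc
    exact ha (Finsupp.ext fun i => by simpa using hc i)
  obtain ⟨i0, hi0⟩ := hex
  have h1 : (k - l).factorial ≤ ∏ i, ((k - l) * a i).factorial := by
    have h2 : (k - l).factorial ≤ ((k - l) * a i0).factorial := by
      apply Nat.factorial_le
      exact Nat.le_mul_of_pos_right _ (Nat.pos_of_ne_zero hi0)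
    refine h2.trans (Nat.le_of_dvd (Finset.prod_pos fun i _ => Nat.factorial_pos _) ?_)
    exact Finset.dvd_prod_of_mem (fun i => ((k - l) * a i).factorial) (Finset.mem_univ i0)
  have h3 : (∏ i, ((k - l) * a i).factorial) * fac (fun i => γ i + l * a i) ≤
      fac (fun i => γ i + k * a i) := by
    unfold fac
    rw [← Finset.prod_mul_distrib]
    apply Finset.prod_le_prod' 
    intro i _
    have h4 : γ i + k * a i = (k - l) * a i + (γ i + l * a i) := by
      obtain ⟨d, rfl⟩ := Nat.exists_eq_add_of_le h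
      have : l + d - l = d := by omega
      rw [this]; ring
    show ((k - l) * a i).factorial * (γ i + l * a i).factorial ≤ (γ i + k * a i).factorial
    rw [h4]
    exact Nat.le_of_dvd (Nat.factorial_pos _) (Nat.factorial_mul_factorial_dvd_factorial_add _ _)
  have h5 : (k - l).factorial * fac (fun i => γ i + l * a i) ≤ fac (fun i => γ i + k * a i) :=
    (Nat.mul_le_mul_right _ h1).trans h3
  exact_mod_cast h5

theorem fac_step {n : ℕ} (a : Fin n →₀ ℕ) (ha : ∀ i, 0 < a i) (γ : Fin n → ℕ) (k : ℕ)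
    (i : Fin n) :
    ((γ i : ℝ) + 1) * (fac (fun i => γ i + k * a i) : ℝ) ≤
      (fac (fun i => γ i + (k + 1) * a i) : ℝ) := by
  have h5 : (γ i + 1) * fac (fun i => γ i + k * a i) ≤ fac (fun i => γ i + (k + 1) * a i) := by
    unfold fac
    rw [← Finset.mul_prod_erase Finset.univ (fun i => (γ i + k * a i).factorial) (Finset.mem_univ i),
      ← Finset.mul_prod_erase Finset.univ (fun i => (γ i + (k + 1) * a i).factorial) (Finset.mem_univ i),
      ← mul_assoc]
    apply Nat.mul_le_mul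
    · have h1 : (γ i + k * a i + 1).factorial ≤ (γ i + (k + 1) * a i).factorial := by
        apply Nat.factorial_le
        have := ha i
        nlinarith
      refine le_trans ?_ h1
      rw [Nat.factorial_succ]
      apply Nat.mul_le_mul_right
      exact Nat.succ_le_succ (Nat.le_add_right _ _)
    · apply Finset.prod_le_prod'
      intro j _
      apply Nat.factorial_le
      nlinarith [Nat.zero_le (a j)]
  exact_mod_cast h5

/-! ### lRs -/

noncomputable def lRs_rsG (N : ℕ) (q R : ℕ → ℂ) (k : ℕ) : ℂ :=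
  if h : k < N then 0 else
    (q N)⁻¹ * (R (k - N) - ∑ j : Fin N, q j * lRs_rsG N q R (k - N + j))
termination_by k
decreasing_by
  have := j.2
  omega

theorem rec_solve0 (N : ℕ) (q : ℕ → ℂ) (hq : q N ≠ 0) (R : ℕ → ℂ) :
    ∃ G : ℕ → ℂ, (∀ j, j < N → G j = 0) ∧
      ∀ k, ∑ j ∈ Finset.range (N + 1), q j * G (k + j) = R k := by
  refine ⟨lRs_rsG N q R, fun j hj => ?_, fun k => ?_⟩
  · rw [lRs_rsG, dif_pos hj]
  · rw [Finset.sum_range_succ]
    have h : lRs_rsG N q R (k + N) = (q N)⁻¹ * (R k - ∑ j : Fin N, q j * lRs_rsG N q R (k + j)) := by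
      rw [lRs_rsG, dif_neg (by omega)]
      simp only [Nat.add_sub_cancel]
    rw [h, Finset.sum_range (fun j => q j * lRs_rsG N q R (k + j))]
    field_simp
    ring

/-! ### lQb -/

theorem quot_bd (N : ℕ) (q : ℕ → ℂ) (hq : q N ≠ 0) (W : ℕ → ℝ) (hW : ∀ k, 0 < W k)
    (hW2 : ∀ k l, l ≤ k → ((k - l).factorial : ℝ) * W l ≤ W k) (σ : ℝ) (hσ : 0 < σ) :
    ∃ C : ℝ, 0 ≤ C ∧ ∀ g G : ℕ → ℂ, (∀ j, j < N → G j = 0) →
      (∀ k, ∑ j ∈ Finset.range (N + 1), q j * G (k + j) = (W k : ℂ) * g k) →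
      ∀ M : ℝ, (∀ k, ‖g k‖ * σ ^ k ≤ M) → ∀ k, ‖G k / (W k : ℂ)‖ * σ ^ k ≤ C * M := by
  obtain ⟨C, B, hC, hB, hrec⟩ := rec_growth N q hq
  refine ⟨C * Real.exp (B * σ), mul_nonneg hC (Real.exp_pos _).le, fun g G hG0 hG M hM k => ?_⟩
  have hM0 : 0 ≤ M := le_trans (by positivity) (hM 0)
  have hB0 : 0 < B := lt_of_lt_of_le one_pos hB
  have h1 := hrec G (fun k => (W k : ℂ) * g k) hG k
  have h2 : ∑ j ∈ Finset.range N, ‖G j‖ = 0 := by
    refine Finset.sum_eq_zero fun j hj => ?_
    rw [hG0 j (Finset.mem_range.mp hj), norm_zero]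
  rw [h2, mul_zero, zero_add] at h1
  have hWk := hW k
  have h3 : ‖G k / (W k : ℂ)‖ * σ ^ k = ‖G k‖ * σ ^ k / W k := by
    rw [norm_div, Complex.norm_real, Real.norm_of_nonneg hWk.le]
    ring
  rw [h3]
  have hterm : ∀ l ∈ Finset.range (k + 1), B ^ (k - l) * ‖(W l : ℂ) * g l‖ * (σ ^ k / W k) ≤
      (B * σ) ^ (k - l) / ((k - l).factorial : ℝ) * M := by
    intro l hl
    have hlk : l ≤ k := Nat.lt_succ_iff.mp (Finset.mem_range.mp hl)
    have hf : (0 : ℝ) < ((k - l).factorial : ℝ) := by exact_mod_cast Nat.factorial_pos _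
    have h4 : W l / W k ≤ 1 / ((k - l).factorial : ℝ) := by
      rw [div_le_div_iff₀ hWk hf]
      have := hW2 k l hlk
      linarith
    have h5 : σ ^ k = σ ^ (k - l) * σ ^ l := by
      rw [← pow_add]
      congr 1
      omega
    rw [norm_mul, Complex.norm_real, Real.norm_of_nonneg (hW l).le, h5]
    calc B ^ (k - l) * (W l * ‖g l‖) * (σ ^ (k - l) * σ ^ l / W k)
        = (B * σ) ^ (k - l) * (W l / W k) * (‖g l‖ * σ ^ l) := by
          rw [mul_pow]; ring
      _ ≤ (B * σ) ^ (k - l) * (1 / ((k - l).factorial : ℝ)) * M := by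
          apply mul_le_mul
          · exact mul_le_mul_of_nonneg_left h4 (by positivity)
          · exact hM l
          · positivity
          · positivity
      _ = (B * σ) ^ (k - l) / ((k - l).factorial : ℝ) * M := by ring
  have hsum : ∑ l ∈ Finset.range (k + 1), (B * σ) ^ (k - l) / ((k - l).factorial : ℝ) ≤
      Real.exp (B * σ) := by
    have h6 := Finset.sum_range_reflect (fun j : ℕ => (B * σ) ^ j / (j.factorial : ℝ)) (k + 1)
    simp only [Nat.add_sub_cancel] at h6
    rw [h6]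
    exact Real.sum_le_exp_of_nonneg (by positivity) _
  calc ‖G k‖ * σ ^ k / W k = ‖G k‖ * (σ ^ k / W k) := by ring
    _ ≤ (C * ∑ l ∈ Finset.range (k + 1), B ^ (k - l) * ‖(W l : ℂ) * g l‖) * (σ ^ k / W k) :=
        mul_le_mul_of_nonneg_right h1 (by positivity)
    _ = C * ∑ l ∈ Finset.range (k + 1), B ^ (k - l) * ‖(W l : ℂ) * g l‖ * (σ ^ k / W k) := by
        rw [mul_assoc, Finset.sum_mul]
    _ ≤ C * ∑ l ∈ Finset.range (k + 1), (B * σ) ^ (k - l) / ((k - l).factorial : ℝ) * M :=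
        mul_le_mul_of_nonneg_left (Finset.sum_le_sum hterm) hC
    _ = C * (∑ l ∈ Finset.range (k + 1), (B * σ) ^ (k - l) / ((k - l).factorial : ℝ)) * M := by
        rw [← Finset.sum_mul]; ring
    _ ≤ C * Real.exp (B * σ) * M := by
        apply mul_le_mul_of_nonneg_right _ hM0
        exact mul_le_mul_of_nonneg_left hsum hC

/-! ### lDb -/

theorem div_bd (N : ℕ) (q : ℕ → ℂ) (hq : q N ≠ 0) :
    ∃ ρ₀ : ℝ, 1 ≤ ρ₀ ∧ ∀ ρ : ℝ, ρ₀ ≤ ρ → ∃ C : ℝ, 0 ≤ C ∧ ∀ d b r : ℕ → ℂ, Dec b →
      (∀ k, N ≤ k → r k = 0) → (∀ k, d k = cv N q b k + r k) →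
      ∀ M : ℝ, (∀ k, ‖d k‖ * ρ ^ k ≤ M) →
      (∀ k, ‖b k‖ * ρ ^ k ≤ C * M) ∧ ∀ k, ‖r k‖ ≤ C * M := by
  obtain ⟨c, hc⟩ : ∃ c : ℝ, c = ‖q N‖ := ⟨_, rfl⟩
  obtain ⟨S, hS⟩ : ∃ S : ℝ, S = ∑ i ∈ Finset.range (N + 1), ‖q i‖ := ⟨_, rfl⟩
  have hc0 : 0 < c := by
    rw [hc]
    exact norm_pos_iff.mpr hq
  have hS0 : 0 ≤ S := by
    rw [hS]
    exact Finset.sum_nonneg fun i _ => norm_nonneg _
  refine ⟨max 1 (2 * S / c), le_max_left _ _, fun ρ hρ => ?_⟩
  have hρ1 : 1 ≤ ρ := (le_max_left _ _).trans hρ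
  have hρ2 : 2 * S / c ≤ ρ := (le_max_right _ _).trans hρ
  have hρ0 : 0 < ρ := by linarith
  refine ⟨1 + (2 + 2 * S) / c, by positivity, ?_⟩
  intro d b r hb hr hd M hM
  have hM0 : 0 ≤ M := by
    have h := hM 0
    rw [pow_zero, mul_one] at h
    exact (norm_nonneg _).trans h
  have hdk : ∀ k, ‖d k‖ ≤ M := by
    intro k
    refine le_trans ?_ (hM k)
    exact le_mul_of_one_le_right (norm_nonneg _) (one_le_pow₀ hρ1)
  obtain ⟨M0, hM0'⟩ := hb ρ hρ0
  have hbdd : BddAbove (Set.range fun k => ‖b k‖ * ρ ^ k) := ⟨M0, by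
    rintro _ ⟨k, rfl⟩
    exact hM0' k⟩
  obtain ⟨β, hβ⟩ : ∃ β : ℝ, β = ⨆ k, ‖b k‖ * ρ ^ k := ⟨_, rfl⟩
  have hle : ∀ k, ‖b k‖ * ρ ^ k ≤ β := by
    intro k
    rw [hβ]
    exact le_ciSup hbdd k
  have hβ0 : 0 ≤ β := le_trans (by positivity) (hle 0)
  have hSc : S * (β / ρ) ≤ c * β / 2 := by
    have h1 : 2 * S ≤ ρ * c := by
      rwa [div_le_iff₀ hc0] at hρ2
    have h2 : S * (β / ρ) = S * β / ρ := by ring
    rw [h2, div_le_iff₀ hρ0]
    have h3 := mul_le_mul_of_nonneg_right h1 hβ0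
    nlinarith
  have hkey : ∀ k, c * (‖b k‖ * ρ ^ k) ≤ M + c * β / 2 := by
    intro k
    have h1 : d (k + N) = (∑ i ∈ Finset.range N, q i * b (k + N - i)) + q N * b k := by
      rw [hd (k + N), hr (k + N) (Nat.le_add_left N k), add_zero]
      unfold cv
      rw [Finset.sum_range_succ, if_pos (Nat.le_add_left N k), Nat.add_sub_cancel]
      congr 1
      refine Finset.sum_congr rfl fun i hi => ?_
      rw [Finset.mem_range] at hi
      rw [if_pos (by omega)]
    have h2 : q N * b k = d (k + N) - ∑ i ∈ Finset.range N, q i * b (k + N - i) := by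
      rw [h1]
      ring
    have hρk : 0 ≤ ρ ^ k := by positivity
    have h3 : c * ‖b k‖ ≤ ‖d (k + N)‖ + ∑ i ∈ Finset.range N, ‖q i‖ * ‖b (k + N - i)‖ := by
      rw [hc, ← norm_mul, h2]
      refine (norm_sub_le _ _).trans ?_
      apply add_le_add le_rfl
      refine (norm_sum_le _ _).trans (le_of_eq ?_)
      exact Finset.sum_congr rfl fun i _ => norm_mul _ _
    have h4 : ‖d (k + N)‖ * ρ ^ k ≤ M := by
      refine le_trans ?_ (hM (k + N))
      exact mul_le_mul_of_nonneg_left (pow_le_pow_right₀ hρ1 (Nat.le_add_right k N))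
        (norm_nonneg _)
    have h5 : (∑ i ∈ Finset.range N, ‖q i‖ * ‖b (k + N - i)‖) * ρ ^ k ≤ S * (β / ρ) := by
      calc (∑ i ∈ Finset.range N, ‖q i‖ * ‖b (k + N - i)‖) * ρ ^ k =
          ∑ i ∈ Finset.range N, ‖q i‖ * (‖b (k + N - i)‖ * ρ ^ k) := by
            rw [Finset.sum_mul]
            exact Finset.sum_congr rfl fun i _ => by ring
        _ ≤ ∑ i ∈ Finset.range N, ‖q i‖ * (β / ρ) := by
            refine Finset.sum_le_sum fun i hi => ?_
            rw [Finset.mem_range] at hi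
            apply mul_le_mul_of_nonneg_left _ (norm_nonneg _)
            rw [le_div_iff₀ hρ0, mul_assoc, ← pow_succ]
            refine le_trans ?_ (hle (k + N - i))
            exact mul_le_mul_of_nonneg_left (pow_le_pow_right₀ hρ1 (by omega)) (norm_nonneg _)
        _ = (∑ i ∈ Finset.range N, ‖q i‖) * (β / ρ) := by rw [Finset.sum_mul]
        _ ≤ S * (β / ρ) := by
            apply mul_le_mul_of_nonneg_right _ (by positivity)
            rw [hS, Finset.sum_range_succ]
            exact le_add_of_nonneg_right (norm_nonneg _)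
    have h6 := mul_le_mul_of_nonneg_right h3 hρk
    rw [add_mul] at h6
    have h7 : c * (‖b k‖ * ρ ^ k) = c * ‖b k‖ * ρ ^ k := by ring
    rw [h7]
    linarith
  have hβM : β ≤ 2 * M / c := by
    have h1 : β ≤ (M + c * β / 2) / c := by
      conv_lhs => rw [hβ]
      apply ciSup_le
      intro k
      rw [le_div_iff₀ hc0, mul_comm]
      exact hkey k
    rw [le_div_iff₀ hc0] at h1 ⊢
    linarith
  have hbC : ∀ k, ‖b k‖ * ρ ^ k ≤ 2 * M / c := fun k => (hle k).trans hβM
  have hbn : ∀ k, ‖b k‖ ≤ 2 * M / c := by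
    intro k
    refine le_trans ?_ (hbC k)
    exact le_mul_of_one_le_right (norm_nonneg _) (one_le_pow₀ hρ1)
  have hMc : 0 ≤ M / c := by positivity
  constructor
  · intro k
    refine (hbC k).trans ?_
    have h1 : (1 + (2 + 2 * S) / c) * M = M + 2 * M / c + 2 * S * (M / c) := by
      field_simp
      ring
    rw [h1]
    have h2 : 0 ≤ 2 * S * (M / c) := by positivity
    linarith
  · intro k
    have h1 : r k = d k - cv N q b k := by
      rw [hd k]
      ring
    have h2 : ‖cv N q b k‖ ≤ S * (2 * M / c) := by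
      unfold cv
      refine (norm_sum_le _ _).trans ?_
      rw [hS, Finset.sum_mul]
      refine Finset.sum_le_sum fun i _ => ?_
      split_ifs
      · rw [norm_mul]
        exact mul_le_mul_of_nonneg_left (hbn _) (norm_nonneg _)
      · rw [norm_zero]
        positivity
    have h3 : (1 + (2 + 2 * S) / c) * M = M + 2 * (M / c) + S * (2 * M / c) := by
      field_simp
      ring
    rw [h1, h3]
    refine (norm_sub_le _ _).trans ?_
    have := hdk k
    linarith

/-! ### lRb -/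

theorem lRb_cv_sum' (N : ℕ) (q : ℕ → ℂ) {m : ℕ} (y : Fin m → ℂ) (b : Fin m → ℕ → ℂ) (k : ℕ) :
    cv N q (fun k => ∑ i, y i * b i k) k = ∑ i, y i * cv N q (b i) k := by
  unfold cv
  simp only [Finset.mul_sum]
  rw [Finset.sum_comm (s := Finset.univ)]
  apply Finset.sum_congr rfl
  intro l _
  split_ifs with h
  · apply Finset.sum_congr rfl
    intro i _
    ring
  · simp

theorem lRb_cv_add' (N : ℕ) (q : ℕ → ℂ) (u v : ℕ → ℂ) (k : ℕ) :
    cv N q (fun k => u k + v k) k = cv N q u k + cv N q v k := by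
  unfold cv
  rw [← Finset.sum_add_distrib]
  apply Finset.sum_congr rfl
  intro l _
  split_ifs <;> ring

theorem lRb_cv_sub' (N : ℕ) (q : ℕ → ℂ) (u v : ℕ → ℂ) (k : ℕ) :
    cv N q (fun k => u k - v k) k = cv N q u k - cv N q v k := by
  unfold cv
  rw [← Finset.sum_sub_distrib]
  apply Finset.sum_congr rfl
  intro l _
  split_ifs <;> ring

theorem lRb_Dec_sum' {m : ℕ} (y : Fin m → ℂ) (b : Fin m → ℕ → ℂ) (hb : ∀ i, Dec (b i)) :
    Dec (fun k => ∑ i, y i * b i k) := by
  intro ρ hρ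
  choose M hM using fun i => hb i ρ hρ
  refine ⟨∑ i, ‖y i‖ * M i, fun k => ?_⟩
  calc ‖∑ i, y i * b i k‖ * ρ ^ k ≤ (∑ i, ‖y i‖ * ‖b i k‖) * ρ ^ k := by
        apply mul_le_mul_of_nonneg_right _ (by positivity)
        refine (norm_sum_le _ _).trans (le_of_eq ?_)
        apply Finset.sum_congr rfl
        intro i _
        rw [norm_mul]
    _ = ∑ i, ‖y i‖ * (‖b i k‖ * ρ ^ k) := by
        rw [Finset.sum_mul]
        apply Finset.sum_congr rfl
        intro i _
        ring
    _ ≤ _ := Finset.sum_le_sum fun i _ => mul_le_mul_of_nonneg_left (hM i k) (norm_nonneg _)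

theorem lRb_Dec_add' {u v : ℕ → ℂ} (hu : Dec u) (hv : Dec v) : Dec (fun k => u k + v k) := by
  intro ρ hρ
  obtain ⟨M1, h1⟩ := hu ρ hρ
  obtain ⟨M2, h2⟩ := hv ρ hρ
  refine ⟨M1 + M2, fun k => ?_⟩
  have h3 := mul_le_mul_of_nonneg_right (norm_add_le (u k) (v k)) (by positivity : 0 ≤ ρ ^ k)
  have h4 := h1 k
  have h5 := h2 k
  show ‖u k + v k‖ * ρ ^ k ≤ M1 + M2
  linarith

theorem lRb_Dec_sub' {u v : ℕ → ℂ} (hu : Dec u) (hv : Dec v) : Dec (fun k => u k - v k) := by
  intro ρ hρ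
  obtain ⟨M1, h1⟩ := hu ρ hρ
  obtain ⟨M2, h2⟩ := hv ρ hρ
  refine ⟨M1 + M2, fun k => ?_⟩
  have h3 := mul_le_mul_of_nonneg_right (norm_sub_le (u k) (v k)) (by positivity : 0 ≤ ρ ^ k)
  have h4 := h1 k
  have h5 := h2 k
  show ‖u k - v k‖ * ρ ^ k ≤ M1 + M2
  linarith

theorem lRb_rec_uniq' (N : ℕ) (q : ℕ → ℂ) (hq : q N ≠ 0) (u : ℕ → ℂ) (h0 : ∀ j, j < N → u j = 0)
    (h : ∀ k, ∑ j ∈ Finset.range (N + 1), q j * u (k + j) = 0) : ∀ n, u n = 0 := by
  intro n
  induction n using Nat.strong_induction_on with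
  | _ n ih =>
    by_cases hn : n < N
    · exact h0 n hn
    · rw [not_lt] at hn
      have h1 := h (n - N)
      rw [Finset.sum_range_succ, Nat.sub_add_cancel hn] at h1
      have h2 : ∑ j ∈ Finset.range N, q j * u (n - N + j) = 0 := by
        apply Finset.sum_eq_zero
        intro j hj
        rw [Finset.mem_range] at hj
        rw [ih (n - N + j) (by omega), mul_zero]
      rw [h2, zero_add] at h1
      exact (mul_eq_zero.mp h1).resolve_left hq

theorem lRb_rec_comb' (N : ℕ) (q : ℕ → ℂ) (e : Fin N → ℕ → ℂ)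
    (he2 : ∀ i k, ∑ j ∈ Finset.range (N + 1), q j * e i (k + j) = 0) (c : Fin N → ℂ) (k : ℕ) :
    ∑ j ∈ Finset.range (N + 1), q j * (∑ i, c i * e i (k + j)) = 0 := by
  simp only [Finset.mul_sum]
  rw [Finset.sum_comm]
  apply Finset.sum_eq_zero
  intro i _
  have h1 := he2 i k
  calc ∑ j ∈ Finset.range (N + 1), q j * (c i * e i (k + j)) =
        c i * ∑ j ∈ Finset.range (N + 1), q j * e i (k + j) := by
        rw [Finset.mul_sum]
        apply Finset.sum_congr rfl
        intro j _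
        ring
    _ = 0 := by rw [h1, mul_zero]

theorem lRb_rec_span' (N : ℕ) (q : ℕ → ℂ) (hq : q N ≠ 0) (e : Fin N → ℕ → ℂ)
    (he : ∀ c : Fin N → ℂ, (∀ k, ∑ i, c i * e i k = 0) → c = 0)
    (he2 : ∀ i k, ∑ j ∈ Finset.range (N + 1), q j * e i (k + j) = 0)
    (H : ℕ → ℂ) (hH : ∀ k, ∑ j ∈ Finset.range (N + 1), q j * H (k + j) = 0) :
    ∃ x : Fin N → ℂ, ∀ k, H k = ∑ i, x i * e i k := by
  let L : (Fin N → ℂ) →ₗ[ℂ] (Fin N → ℂ) :=
    { toFun := fun x j => ∑ i, x i * e i j
      map_add' := by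
        intro x y
        funext j
        simp [add_mul, Finset.sum_add_distrib]
      map_smul' := by
        intro c x
        funext j
        simp [Finset.mul_sum, mul_assoc] }
  have hinj : Function.Injective L := by
    rw [← LinearMap.ker_eq_bot, LinearMap.ker_eq_bot']
    intro c hc
    apply he c
    apply lRb_rec_uniq' N q hq (fun k => ∑ i, c i * e i k)
    · intro j hj
      exact congrFun hc ⟨j, hj⟩
    · exact lRb_rec_comb' N q e he2 c
  have hsurj := LinearMap.injective_iff_surjective.mp hinj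
  obtain ⟨x, hx⟩ := hsurj (fun j => H j)
  refine ⟨x, ?_⟩
  have h1 := lRb_rec_uniq' N q hq (fun k => H k - ∑ i, x i * e i k) ?_ ?_
  · intro k
    exact sub_eq_zero.mp (h1 k)
  · intro j hj
    have h2 : ∑ i, x i * e i j = H j := congrFun hx ⟨j, hj⟩
    show H j - ∑ i, x i * e i j = 0
    rw [h2, sub_self]
  · intro k
    simp only [mul_sub, Finset.sum_sub_distrib]
    rw [hH, lRb_rec_comb' N q e he2, sub_zero]

theorem ray_bd (N : ℕ) (q : ℕ → ℂ) (hq : q N ≠ 0) (W : ℕ → ℝ) (hW : ∀ k, 0 < W k)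
    (hW2 : ∀ k l, l ≤ k → ((k - l).factorial : ℝ) * W l ≤ W k) (ρ : ℝ) (hρ : 0 < ρ) :
    ∃ R C : ℝ, 0 < R ∧ 0 ≤ C ∧ ∀ b g : ℕ → ℂ, Dec b → Dec g →
      (∀ k, ∑ j ∈ Finset.range (N + 1), (starRingEnd ℂ) (q j) *
        ((W (k + j) : ℂ) * cv N q b (k + j)) = (W k : ℂ) * g k) →
      ∀ M : ℝ, (∀ k, ‖g k‖ * R ^ k ≤ M) → ∀ k, ‖b k‖ * ρ ^ k ≤ C * M := by
  have hWc : ∀ k, (W k : ℂ) ≠ 0 := fun k => by exact_mod_cast (hW k).ne'
  obtain ⟨q', hq'⟩ : ∃ q' : ℕ → ℂ, ∀ j, q' j = (starRingEnd ℂ) (q j) := ⟨_, fun _ => rfl⟩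
  have hq'N : q' N ≠ 0 := by
    rw [hq']
    exact (map_ne_zero (starRingEnd ℂ)).mpr hq
  obtain ⟨e, he, he2⟩ := sol_basis N q' hq'N
  -- the quotients
  have hv : ∀ i, Dec (fun k => e i k / (W k : ℂ)) := by
    intro i
    apply dec_quot N q' hq'N W hW hW2 (fun _ => 0)
    · intro σ _
      exact ⟨0, fun k => by simp⟩
    · intro k
      rw [he2, mul_zero]
  choose b' r' hb' hr' hbr using fun i => div_rem N q hq _ (hv i)
  -- the remainders are independent
  have hind : ∀ y : Fin N → ℂ, (∀ k, ∑ i, y i * r' i k = 0) → y = 0 := by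
    intro y hy
    have hcv : ∀ k, (W k : ℂ) * cv N q (fun k => ∑ i, y i * b' i k) k = ∑ i, y i * e i k := by
      intro k
      rw [lRb_cv_sum', Finset.mul_sum]
      have h1 : ∑ i, y i * e i k = ∑ i, ((W k : ℂ) * (y i * cv N q (b' i) k) +
          (W k : ℂ) * (y i * r' i k)) := by
        apply Finset.sum_congr rfl
        intro i _
        have h2 := hbr i k
        rw [div_eq_iff (hWc k)] at h2
        rw [h2]
        ring
      rw [h1, Finset.sum_add_distrib, ← Finset.mul_sum (f := fun i => y i * r' i k), hy, mul_zero,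
        add_zero]
    have hz : ∀ k, cv N q (fun k => ∑ i, y i * b' i k) k = 0 := by
      intro k
      refine block_zero N q hq (fun k => ∑ i, y i * b' i k) W hW (lRb_Dec_sum' y b' hb') ?_ k
      intro k
      have h3 := lRb_rec_comb' N q' e he2 y k
      refine Eq.trans ?_ h3
      apply Finset.sum_congr rfl
      intro j _
      rw [hq', ← hcv]
      rfl
    apply he y
    intro k
    rw [← hcv, hz, mul_zero]
  -- the left inverse
  let Lr : (Fin N → ℂ) →ₗ[ℂ] (Fin N → ℂ) :=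
    { toFun := fun x j => ∑ i, x i * r' i j
      map_add' := by
        intro x y
        funext j
        simp [add_mul, Finset.sum_add_distrib]
      map_smul' := by
        intro c x
        funext j
        simp [Finset.mul_sum, mul_assoc] }
  have hker : LinearMap.ker Lr = ⊥ := by
    rw [LinearMap.ker_eq_bot']
    intro c hc
    apply hind c
    intro k
    by_cases hk : k < N
    · exact congrFun hc ⟨k, hk⟩
    · apply Finset.sum_eq_zero
      intro i _
      rw [hr' i k (by omega), mul_zero]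
  obtain ⟨A, hA0, hA⟩ := LinearMap.exists_antilipschitzWith Lr hker
  have hAb : ∀ y : Fin N → ℂ, ‖y‖ ≤ A * ‖Lr y‖ := fun y =>
    ZeroHomClass.bound_of_antilipschitz Lr hA y
  obtain ⟨ρ₀, hρ₀, hdiv⟩ := div_bd N q hq
  obtain ⟨R, hR⟩ : ∃ R : ℝ, R = max ρ ρ₀ := ⟨_, rfl⟩
  have hRρ : ρ ≤ R := by rw [hR]; exact le_max_left _ _
  have hRρ₀ : ρ₀ ≤ R := by rw [hR]; exact le_max_right _ _
  have hR0 : 0 < R := lt_of_lt_of_le hρ hRρ
  obtain ⟨C2, hC2, hdivR⟩ := hdiv R hRρ₀
  obtain ⟨C1, hC1, hquot⟩ := quot_bd N q' hq'N W hW hW2 R hR0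
  choose Mb hMb using fun i => hb' i R hR0
  have hMb0 : ∀ i, 0 ≤ Mb i := fun i => le_trans (by positivity) (hMb i 0)
  refine ⟨R, C2 * C1 * (1 + A * ∑ i, Mb i), hR0, ?_, ?_⟩
  · have : 0 ≤ ∑ i, Mb i := Finset.sum_nonneg fun i _ => hMb0 i
    positivity
  intro b g hb hg hrec M hM k
  have hM0 : 0 ≤ M := le_trans (by positivity) (hM 0)
  have hCM : 0 ≤ C2 * (C1 * M) := by positivity
  -- particular solution
  obtain ⟨G0, hG0a, hG0b⟩ := rec_solve0 N q' hq'N (fun k => (W k : ℂ) * g k)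
  have hH : ∀ k, ∑ j ∈ Finset.range (N + 1),
      q' j * ((fun k => (W k : ℂ) * cv N q b k - G0 k) (k + j)) = 0 := by
    intro k
    simp only [mul_sub, Finset.sum_sub_distrib]
    rw [hG0b]
    simp only [hq']
    rw [hrec, sub_self]
  obtain ⟨x, hx⟩ := lRb_rec_span' N q' hq'N e he he2 (fun k => (W k : ℂ) * cv N q b k - G0 k) hH
  have hd0 : Dec (fun k => G0 k / (W k : ℂ)) := dec_quot N q' hq'N W hW hW2 g hg G0 hG0b
  obtain ⟨b0, r0, hb0, hr0, hbr0⟩ := div_rem N q hq _ hd0
  have hd0b := hquot g G0 hG0a hG0b M hM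
  obtain ⟨hb0b, hr0b⟩ := hdivR _ b0 r0 hb0 hr0 hbr0 (C1 * M) hd0b
  -- comparison
  have hcomp : ∀ k, (0 : ℂ) = cv N q (fun k => (b0 k + ∑ i, x i * b' i k) - b k) k +
      (r0 k + ∑ i, x i * r' i k) := by
    intro k
    rw [lRb_cv_sub', lRb_cv_add', lRb_cv_sum']
    have h1 : (W k : ℂ) * cv N q b k - G0 k = ∑ i, x i * e i k := hx k
    have h2 : G0 k = (cv N q b0 k + r0 k) * (W k : ℂ) := (div_eq_iff (hWc k)).mp (hbr0 k)
    have h3 : ∑ i, x i * e i k = (∑ i, x i * cv N q (b' i) k + ∑ i, x i * r' i k) * (W k : ℂ) := by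
      rw [← Finset.sum_add_distrib, Finset.sum_mul]
      apply Finset.sum_congr rfl
      intro i _
      have h4 := hbr i k
      rw [div_eq_iff (hWc k)] at h4
      rw [h4]
      ring
    rw [h2, h3] at h1
    apply mul_left_cancel₀ (hWc k)
    linear_combination h1
  have hDec : Dec (fun k => (b0 k + ∑ i, x i * b' i k) - b k) :=
    lRb_Dec_sub' (lRb_Dec_add' hb0 (lRb_Dec_sum' x b' hb')) hb
  obtain ⟨hz1, hz2⟩ := hdivR (fun _ => 0) (fun k => (b0 k + ∑ i, x i * b' i k) - b k)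
    (fun k => r0 k + ∑ i, x i * r' i k) hDec
    (fun k hk => by
      have h5 : ∑ i, x i * r' i k = 0 := by
        apply Finset.sum_eq_zero
        intro i _
        rw [hr' i k hk, mul_zero]
      rw [hr0 k hk, h5, add_zero]) hcomp 0 (fun k => by simp)
  have hbe : ∀ k, b k = b0 k + ∑ i, x i * b' i k := by
    intro k
    have h6 := hz1 k
    rw [mul_zero] at h6
    have h7 : ‖(b0 k + ∑ i, x i * b' i k) - b k‖ ≤ 0 := by
      by_contra hcon
      rw [not_le] at hcon
      have : 0 < ‖(b0 k + ∑ i, x i * b' i k) - b k‖ * R ^ k := by positivity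
      linarith
    exact (sub_eq_zero.mp (norm_le_zero_iff.mp h7)).symm
  have hre : ∀ k, ∑ i, x i * r' i k = -r0 k := by
    intro k
    have h6 := hz2 k
    rw [mul_zero] at h6
    have h7 := norm_le_zero_iff.mp h6
    linear_combination h7
  -- the bound of x
  have hxn : ‖x‖ ≤ A * (C2 * (C1 * M)) := by
    refine (hAb x).trans (mul_le_mul_of_nonneg_left ?_ A.2)
    rw [pi_norm_le_iff_of_nonneg hCM]
    intro j
    show ‖∑ i, x i * r' i j‖ ≤ _
    rw [hre, norm_neg]
    exact hr0b j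
  -- the final estimate
  have hfin : ‖b k‖ * R ^ k ≤ C2 * C1 * (1 + A * ∑ i, Mb i) * M := by
    rw [hbe k]
    have h8 : ‖b0 k + ∑ i, x i * b' i k‖ ≤ ‖b0 k‖ + ∑ i, ‖x‖ * ‖b' i k‖ := by
      refine (norm_add_le _ _).trans (add_le_add le_rfl ((norm_sum_le _ _).trans ?_))
      apply Finset.sum_le_sum
      intro i _
      rw [norm_mul]
      exact mul_le_mul_of_nonneg_right (norm_le_pi_norm x i) (norm_nonneg _)
    calc ‖b0 k + ∑ i, x i * b' i k‖ * R ^ k ≤ (‖b0 k‖ + ∑ i, ‖x‖ * ‖b' i k‖) * R ^ k :=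
          mul_le_mul_of_nonneg_right h8 (by positivity)
      _ = ‖b0 k‖ * R ^ k + ∑ i, ‖x‖ * (‖b' i k‖ * R ^ k) := by
          rw [add_mul, Finset.sum_mul]
          congr 1
          apply Finset.sum_congr rfl
          intro i _
          ring
      _ ≤ C2 * (C1 * M) + ∑ i, (A * (C2 * (C1 * M))) * Mb i := by
          apply add_le_add (hb0b k)
          apply Finset.sum_le_sum
          intro i _
          exact mul_le_mul hxn (hMb i k) (by positivity) (mul_nonneg A.2 hCM)
      _ = C2 * C1 * (1 + A * ∑ i, Mb i) * M := by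
          rw [← Finset.mul_sum]
          ring
  refine le_trans ?_ hfin
  exact mul_le_mul_of_nonneg_left (pow_le_pow_left₀ hρ.le hRρ k) (norm_nonneg _)

/-! ### lFs -/

theorem fac_step2 {n : ℕ} (a : Fin n →₀ ℕ) (γ : Fin n → ℕ) (k : ℕ) (i : Fin n) (hi : 0 < a i) :
    ((γ i : ℝ) + 1) * (fac (fun i => γ i + k * a i) : ℝ) ≤
      (fac (fun i => γ i + (k + 1) * a i) : ℝ) := by
  have key : (γ i + 1) * fac (fun i => γ i + k * a i) ≤ fac (fun i => γ i + (k + 1) * a i) := by
    unfold fac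
    rw [← Finset.mul_prod_erase Finset.univ (fun i => (γ i + k * a i).factorial)
      (Finset.mem_univ i), ← Finset.mul_prod_erase Finset.univ
      (fun i => (γ i + (k + 1) * a i).factorial) (Finset.mem_univ i), ← mul_assoc]
    apply Nat.mul_le_mul
    · have h1 : γ i + k * a i + 1 ≤ γ i + (k + 1) * a i := by nlinarith
      calc (γ i + 1) * (γ i + k * a i).factorial
          ≤ (γ i + k * a i + 1) * (γ i + k * a i).factorial :=
            Nat.mul_le_mul_right _ (by omega)
        _ = (γ i + k * a i + 1).factorial := (Nat.factorial_succ _).symm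
        _ ≤ _ := Nat.factorial_le h1
    · apply Finset.prod_le_prod'
      intro j _
      apply Nat.factorial_le
      nlinarith [Nat.zero_le (a j)]
  exact_mod_cast key

theorem fac_split {n : ℕ} (a : Fin n →₀ ℕ) (γ : Fin n → ℕ) (k : ℕ) :
    fac (fun i => γ i + k * a i) = fac (fun i => if a i = 0 then γ i else 0) *
      fac (fun i => (if a i = 0 then 0 else γ i) + k * a i) := by
  unfold fac
  rw [← Finset.prod_mul_distrib]
  apply Finset.prod_congr rfl
  intro i _
  by_cases h : a i = 0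
  · simp [h]
  · simp [h]

/-! ### kSd -/

theorem kSd_ser_of_dec_geom (r : ℝ) (h0 : 0 ≤ r) (h1 : r < 1) (n : ℕ) :
    Summable (fun α : Fin n → ℕ => ∏ i, r ^ α i) := by
  induction n with
  | zero => exact Summable.of_finite
  | succ n ih =>
    have hm : Summable (fun p : ℕ × (Fin n → ℕ) => r ^ p.1 * ∏ i, r ^ p.2 i) :=
      Summable.mul_of_nonneg (f := fun k : ℕ => r ^ k) (g := fun α : Fin n → ℕ => ∏ i, r ^ α i)
        (summable_geometric_of_lt_one h0 h1) ih (fun k => pow_nonneg h0 k)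
        (fun α => Finset.prod_nonneg fun i _ => pow_nonneg h0 _)
    have he := (Fin.consEquiv (fun _ : Fin (n + 1) => ℕ)).summable_iff
      (f := fun α : Fin (n + 1) → ℕ => ∏ i, r ^ α i)
    refine he.mp ?_
    refine hm.congr ?_
    intro p
    show r ^ p.1 * ∏ i, r ^ p.2 i = ∏ i, r ^ (Fin.cons (α := fun _ => ℕ) p.1 p.2 : Fin (n + 1) → ℕ) i
    rw [Fin.prod_univ_succ]
    simp only [Fin.cons_zero, Fin.cons_succ]

theorem ser_of_dec {n : ℕ} (c : (Fin n → ℕ) → ℂ) (hc : DecN c) :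
    ∃ f : (Fin n → ℂ) → ℂ, Ser c f := by
  refine ⟨fun z => ∑' α : Fin n → ℕ, c α * ∏ i, z i ^ α i, fun z => Summable.hasSum ?_⟩
  obtain ⟨r, hr⟩ : ∃ r : ℝ, r = 1 + ∑ i, ‖z i‖ := ⟨_, rfl⟩
  have hr1 : 1 ≤ r := by
    rw [hr]
    have : 0 ≤ ∑ i, ‖z i‖ := Finset.sum_nonneg fun i _ => norm_nonneg _
    linarith
  have hzr : ∀ i, ‖z i‖ ≤ r := by
    intro i
    have := Finset.single_le_sum (f := fun i => ‖z i‖) (fun i _ => norm_nonneg _) (Finset.mem_univ i)
    rw [hr]
    linarith
  obtain ⟨M, hM⟩ := hc (2 * r) (by linarith)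
  refine Summable.of_norm_bounded (g := fun α : Fin n → ℕ => M * ∏ i, (1 / 2 : ℝ) ^ α i)
    ((kSd_ser_of_dec_geom (1 / 2) (by norm_num) (by norm_num) n).mul_left M) ?_
  intro α
  have e1 : ‖c α * ∏ i, z i ^ α i‖ ≤ ‖c α‖ * r ^ (∑ i, α i) := by
    rw [norm_mul, norm_prod]
    apply mul_le_mul_of_nonneg_left _ (norm_nonneg _)
    rw [← Finset.prod_pow_eq_pow_sum]
    apply Finset.prod_le_prod (fun i _ => norm_nonneg _)
    intro i _
    rw [norm_pow]
    exact pow_le_pow_left₀ (norm_nonneg _) (hzr i) _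
  have e2 := hM α
  rw [mul_pow] at e2
  have e3 : ∏ i, (1 / 2 : ℝ) ^ α i = (1 / 2 : ℝ) ^ (∑ i, α i) := Finset.prod_pow_eq_pow_sum _ _ _
  rw [e3]
  refine e1.trans ?_
  rw [one_div, inv_pow, ← div_eq_mul_inv, le_div_iff₀ (by positivity)]
  calc ‖c α‖ * r ^ (∑ i, α i) * 2 ^ (∑ i, α i) = ‖c α‖ * (2 ^ (∑ i, α i) * r ^ (∑ i, α i)) := by ring
    _ ≤ M := e2

/-! ### kTs -/

theorem tp_ser {n : ℕ} (P : MvPolynomial (Fin n) ℂ) (c : (Fin n → ℕ) → ℂ)
    (f : (Fin n → ℂ) → ℂ) (h : Ser c f) :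
    Ser (fun β => ∑ m ∈ P.support, (starRingEnd ℂ) (P.coeff m) *
      ((fac (fun i => β i + m i) : ℂ) / (fac β : ℂ) * mulc P c (fun i => β i + m i)))
      (Tmap P f) := by
  intro z
  have h1 : ∀ m ∈ P.support, HasSum (fun β : Fin n → ℕ => (starRingEnd ℂ) (P.coeff m) *
      (((fac (fun i => β i + m i) : ℂ) / (fac β : ℂ) * mulc P c (fun i => β i + m i)) *
        ∏ i, z i ^ β i)) ((starRingEnd ℂ) (P.coeff m) *
          dpow m (fun w : Fin n → ℂ => MvPolynomial.eval w P * f w) z) := fun m _ =>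
    ((ser_dpow m (mulc P c) _ (ser_mul P c f h)) z).mul_left _
  have h2 := hasSum_sum h1
  have h3 : (fun β : Fin n → ℕ => (∑ m ∈ P.support, (starRingEnd ℂ) (P.coeff m) *
      ((fac (fun i => β i + m i) : ℂ) / (fac β : ℂ) * mulc P c (fun i => β i + m i))) *
        ∏ i, z i ^ β i) = fun β => ∑ m ∈ P.support, (starRingEnd ℂ) (P.coeff m) *
      (((fac (fun i => β i + m i) : ℂ) / (fac β : ℂ) * mulc P c (fun i => β i + m i)) *
        ∏ i, z i ^ β i) := by
    funext β
    rw [Finset.sum_mul]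
    exact Finset.sum_congr rfl fun m _ => by ring
  show HasSum (fun β : Fin n → ℕ => (∑ m ∈ P.support, (starRingEnd ℂ) (P.coeff m) *
      ((fac (fun i => β i + m i) : ℂ) / (fac β : ℂ) * mulc P c (fun i => β i + m i))) *
        ∏ i, z i ^ β i) (Tmap P f z)
  rw [h3]
  exact h2

theorem tp_diff {n : ℕ} (P : MvPolynomial (Fin n) ℂ) (f : (Fin n → ℂ) → ℂ)
    (hf : Differentiable ℂ f) : Differentiable ℂ (Tmap P f) := by
  obtain ⟨c, _, hc⟩ := taylor f hf
  exact ser_diff _ _ (tp_ser P c f hc)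

/-! ### nDu -/

theorem deconv_up (N : ℕ) (q : ℕ → ℂ) (hq : q N ≠ 0) :
    ∃ C : ℝ, 1 ≤ C ∧ ∀ (J : ℕ) (b : ℕ → ℂ), (∀ k, J < k → b k = 0) → ∀ k ≤ J, ∀ D : ℝ,
      (∀ i, k ≤ i → i ≤ J → ‖cv N q b (i + N)‖ ≤ D) → ‖b k‖ ≤ C ^ (J + 1) * D := by
  have hc : 0 < ‖q N‖ := norm_pos_iff.2 hq
  set S : ℝ := ∑ i ∈ Finset.range N, ‖q i‖ with hS
  have hS0 : 0 ≤ S := Finset.sum_nonneg fun i _ => norm_nonneg _
  have hq0 : 0 ≤ (1 + S) / ‖q N‖ := by positivity
  set C := 1 + (1 + S) / ‖q N‖ with hC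
  have hC1 : 1 ≤ C := by linarith
  have hC0 : 0 ≤ C := by linarith
  have hCc : 1 + S ≤ C * ‖q N‖ := by
    rw [hC, add_mul, div_mul_cancel₀ _ hc.ne']; linarith
  refine ⟨C, hC1, ?_⟩
  intro J b hb k hk D hD
  have hD0 : 0 ≤ D := (norm_nonneg _).trans (hD k le_rfl hk)
  have main : ∀ d i, k ≤ i → i + d = J → ‖b i‖ ≤ C ^ (d + 1) * D := by
    intro d
    induction d using Nat.strong_induction_on with
    | _ d ih =>
      intro i hi hd
      have e1 : cv N q b (i + N) = (∑ x ∈ Finset.range N, q x * b (i + N - x)) + q N * b i := by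
        unfold cv
        rw [Finset.sum_range_succ, if_pos (by omega), Nat.add_sub_cancel]
        congr 1
        apply Finset.sum_congr rfl
        intro x hx
        rw [if_pos (by have := Finset.mem_range.1 hx; omega)]
      have hb' : ∀ x ∈ Finset.range N, ‖b (i + N - x)‖ ≤ C ^ d * D := by
        intro x hx
        have hx' := Finset.mem_range.1 hx
        rcases Nat.lt_or_ge J (i + N - x) with h | h
        · rw [hb _ h, norm_zero]; positivity
        · have := ih (J - (i + N - x)) (by omega) (i + N - x) (by omega) (by omega)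
          refine this.trans (mul_le_mul_of_nonneg_right (pow_le_pow_right₀ hC1 (by omega)) hD0)
      have h2 : ‖q N * b i‖ ≤ D + S * (C ^ d * D) := by
        have : q N * b i = cv N q b (i + N) - ∑ x ∈ Finset.range N, q x * b (i + N - x) := by
          rw [e1]; ring
        rw [this]
        refine (norm_sub_le _ _).trans (add_le_add (hD i hi (by omega)) ?_)
        refine (norm_sum_le _ _).trans ?_
        rw [hS, Finset.sum_mul]
        apply Finset.sum_le_sum
        intro x hx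
        rw [norm_mul]
        exact mul_le_mul_of_nonneg_left (hb' x hx) (norm_nonneg _)
      rw [norm_mul] at h2
      have h3 : D ≤ C ^ d * D := le_mul_of_one_le_left hD0 (one_le_pow₀ hC1)
      have h4 : ‖q N‖ * ‖b i‖ ≤ ‖q N‖ * (C ^ (d + 1) * D) := by
        calc ‖q N‖ * ‖b i‖ ≤ D + S * (C ^ d * D) := h2
          _ ≤ (1 + S) * (C ^ d * D) := by linarith
          _ ≤ (C * ‖q N‖) * (C ^ d * D) := mul_le_mul_of_nonneg_right hCc (by positivity)
          _ = _ := by ring
      exact le_of_mul_le_mul_left h4 hc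
  refine (main (J - k) k le_rfl (by omega)).trans
    (mul_le_mul_of_nonneg_right (pow_le_pow_right₀ hC1 (by omega)) hD0)

/-! ### nDd -/

theorem deconv_down (N : ℕ) (q : ℕ → ℂ) (hq : q 0 ≠ 0) :
    ∃ C : ℝ, 1 ≤ C ∧ ∀ (J : ℕ) (b : ℕ → ℂ), ∀ k ≤ J, ∀ D : ℝ,
      (∀ i ≤ k, ‖cv N q b i‖ ≤ D) → ‖b k‖ ≤ C ^ (J + 1) * D := by
  have hc : 0 < ‖q 0‖ := norm_pos_iff.mpr hq
  obtain ⟨A, hA⟩ : ∃ A : ℝ, A = ∑ i ∈ Finset.range N, ‖q (i + 1)‖ := ⟨_, rfl⟩
  have hA0 : 0 ≤ A := by rw [hA]; exact Finset.sum_nonneg fun i _ => norm_nonneg _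
  obtain ⟨C, hC⟩ : ∃ C : ℝ, C = 1 + (1 + A) / ‖q 0‖ := ⟨_, rfl⟩
  have hC1 : 1 ≤ C := by
    rw [hC]
    have : 0 ≤ (1 + A) / ‖q 0‖ := by positivity
    linarith
  have hC0 : 0 < C := by linarith
  refine ⟨C, hC1, fun J b k hk D hD => ?_⟩
  have hD0 : 0 ≤ D := le_trans (norm_nonneg _) (hD 0 (Nat.zero_le _))
  have key : ∀ i, i ≤ k → ‖b i‖ ≤ C ^ (i + 1) * D := by
    intro i
    induction i using Nat.strong_induction_on with
    | _ i ih =>
      intro hik
      have h1 : cv N q b i = (∑ i' ∈ Finset.range N,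
          if i' + 1 ≤ i then q (i' + 1) * b (i - (i' + 1)) else 0) + q 0 * b i := by
        unfold cv
        rw [Finset.sum_range_succ']
        simp
      have h2 : q 0 * b i = cv N q b i - ∑ i' ∈ Finset.range N,
          (if i' + 1 ≤ i then q (i' + 1) * b (i - (i' + 1)) else 0) := by
        rw [h1]; ring
      have h3 : ‖∑ i' ∈ Finset.range N,
          (if i' + 1 ≤ i then q (i' + 1) * b (i - (i' + 1)) else 0)‖ ≤ A * (C ^ i * D) := by
        refine (norm_sum_le _ _).trans ?_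
        rw [hA, Finset.sum_mul]
        refine Finset.sum_le_sum fun i' _ => ?_
        split_ifs with hi'
        · rw [norm_mul]
          apply mul_le_mul_of_nonneg_left _ (norm_nonneg _)
          refine (ih (i - (i' + 1)) (by omega) (by omega)).trans ?_
          apply mul_le_mul_of_nonneg_right _ hD0
          exact pow_le_pow_right₀ hC1 (by omega)
        · rw [norm_zero]
          positivity
      have hCi : 1 ≤ C ^ i := one_le_pow₀ hC1
      have h4 : ‖q 0‖ * ‖b i‖ ≤ (1 + A) * (C ^ i * D) := by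
        rw [← norm_mul, h2]
        refine (norm_sub_le _ _).trans ?_
        have h5 := hD i hik
        have h6 : D ≤ C ^ i * D := by
          calc D = 1 * D := (one_mul D).symm
            _ ≤ C ^ i * D := mul_le_mul_of_nonneg_right hCi hD0
        linarith
      have h7 : ‖b i‖ ≤ (1 + A) / ‖q 0‖ * (C ^ i * D) := by
        rw [div_mul_eq_mul_div, le_div_iff₀ hc]
        linarith
      refine h7.trans ?_
      rw [pow_succ]
      have h8 : (1 + A) / ‖q 0‖ ≤ C := by rw [hC]; linarith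
      calc (1 + A) / ‖q 0‖ * (C ^ i * D) ≤ C * (C ^ i * D) :=
            mul_le_mul_of_nonneg_right h8 (by positivity)
        _ = C ^ i * C * D := by ring
  refine (key k le_rfl).trans ?_
  apply mul_le_mul_of_nonneg_right _ hD0
  exact pow_le_pow_right₀ hC1 (by omega)

/-! ### nSp -/

theorem spread (N : ℕ) (q : ℕ → ℂ) (h0 : q 0 ≠ 0) (hN : q N ≠ 0) :
    ∃ C : ℝ, 1 ≤ C ∧ ∀ (J l : ℕ) (G : ℕ → ℂ) (D : ℝ), l ≤ J →
      (∀ k ≤ J, k ≠ l → ∑ j ∈ Finset.range (N + 1), q j * G (k + j) = 0) →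
      (∀ i, l ≤ i → i ≤ l + N → ‖G i‖ ≤ D) → ∀ i ≤ J + N, ‖G i‖ ≤ C ^ (J + 1) * D := by
  obtain ⟨S, hS⟩ : ∃ S : ℝ, S = ∑ j ∈ Finset.range (N + 1), ‖q j‖ := ⟨_, rfl⟩
  have hS0 : 0 ≤ S := by rw [hS]; exact Finset.sum_nonneg (fun _ _ => norm_nonneg _)
  have hq0 : 0 < ‖q 0‖ := norm_pos_iff.2 h0
  have hqN : 0 < ‖q N‖ := norm_pos_iff.2 hN
  have hA : 0 ≤ S / ‖q 0‖ := by positivity
  have hB : 0 ≤ S / ‖q N‖ := by positivity
  obtain ⟨C, hC⟩ : ∃ C : ℝ, C = 1 + S / ‖q 0‖ + S / ‖q N‖ := ⟨_, rfl⟩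
  have hC1 : 1 ≤ C := by linarith
  refine ⟨C, hC1, ?_⟩
  intro J l G D hlJ hrec hinit
  have hD : 0 ≤ D := (norm_nonneg _).trans (hinit l le_rfl (by omega))
  have hC0 : 0 ≤ C := by linarith
  have key : ∀ (k m : ℕ) (E : ℝ), m ≤ N → q m ≠ 0 → S / ‖q m‖ ≤ C →
      ∑ j ∈ Finset.range (N + 1), q j * G (k + j) = 0 →
      (∀ j ≤ N, j ≠ m → ‖G (k + j)‖ ≤ E) → 0 ≤ E → ‖G (k + m)‖ ≤ C * E := by
    intro k m E hm hqm hCm hsum hE hE0
    have hqm' : 0 < ‖q m‖ := norm_pos_iff.2 hqm
    have h1 : q m * G (k + m)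
        = - ∑ j ∈ (Finset.range (N + 1)).erase m, q j * G (k + j) := by
      have h := Finset.add_sum_erase (Finset.range (N + 1)) (fun j => q j * G (k + j))
        (Finset.mem_range.2 (Nat.lt_succ_of_le hm))
      rw [hsum] at h
      exact eq_neg_of_add_eq_zero_left h
    have h2 : ‖q m‖ * ‖G (k + m)‖ ≤ S * E := by
      rw [← norm_mul, h1, norm_neg]
      calc ‖∑ j ∈ (Finset.range (N + 1)).erase m, q j * G (k + j)‖
          ≤ ∑ j ∈ (Finset.range (N + 1)).erase m, ‖q j * G (k + j)‖ := norm_sum_le _ _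
        _ ≤ ∑ j ∈ (Finset.range (N + 1)).erase m, ‖q j‖ * E := by
            apply Finset.sum_le_sum
            intro j hj
            rw [Finset.mem_erase, Finset.mem_range] at hj
            rw [norm_mul]
            exact mul_le_mul_of_nonneg_left (hE j (by omega) hj.1) (norm_nonneg _)
        _ ≤ ∑ j ∈ Finset.range (N + 1), ‖q j‖ * E :=
            Finset.sum_le_sum_of_subset_of_nonneg (Finset.erase_subset _ _)
              (fun j _ _ => mul_nonneg (norm_nonneg _) hE0)
        _ = S * E := by rw [hS, Finset.sum_mul]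
    have h3 : ‖G (k + m)‖ ≤ S / ‖q m‖ * E := by
      rw [div_mul_eq_mul_div, le_div_iff₀ hqm']
      linarith [mul_comm ‖q m‖ ‖G (k + m)‖]
    exact h3.trans (mul_le_mul_of_nonneg_right hCm hE0)
  have up : ∀ r, r ≤ J - l → ∀ i, l ≤ i → i ≤ l + N + r → ‖G i‖ ≤ C ^ r * D := by
    intro r
    induction r with
    | zero => intro _ i h1 h2; simpa using hinit i h1 (by omega)
    | succ r ih =>
      intro hr i h1 h2
      have hp : C ^ r ≤ C ^ (r + 1) := pow_le_pow_right₀ hC1 (by omega)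
      by_cases h3 : i ≤ l + N + r
      · exact (ih (by omega) i h1 h3).trans (mul_le_mul_of_nonneg_right hp hD)
      · have hi : i = (l + r + 1) + N := by omega
        have h4 := key (l + r + 1) N (C ^ r * D) le_rfl hN (by linarith)
          (hrec _ (by omega) (by omega))
          (fun j hj hjN => ih (by omega) _ (by omega) (by omega)) (by positivity)
        rw [hi, pow_succ]
        calc _ ≤ C * (C ^ r * D) := h4
          _ = _ := by ring
  have down : ∀ r, r ≤ l → ∀ i, l - r ≤ i → i ≤ l + N → ‖G i‖ ≤ C ^ r * D := by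
    intro r
    induction r with
    | zero => intro _ i h1 h2; simpa using hinit i (by omega) h2
    | succ r ih =>
      intro hr i h1 h2
      have hp : C ^ r ≤ C ^ (r + 1) := pow_le_pow_right₀ hC1 (by omega)
      by_cases h3 : l - r ≤ i
      · exact (ih (by omega) i h3 h2).trans (mul_le_mul_of_nonneg_right hp hD)
      · have hi : i = (l - (r + 1)) + 0 := by omega
        have h4 := key (l - (r + 1)) 0 (C ^ r * D) (Nat.zero_le _) h0 (by linarith)
          (hrec _ (by omega) (by omega))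
          (fun j hj hjN => ih (by omega) _ (by omega) (by omega)) (by positivity)
        rw [hi, pow_succ]
        calc _ ≤ C * (C ^ r * D) := h4
          _ = _ := by ring
  intro i hi
  by_cases h : l ≤ i
  · have h5 := up (J - l) le_rfl i h (by omega)
    exact h5.trans (mul_le_mul_of_nonneg_right (pow_le_pow_right₀ hC1 (by omega)) hD)
  · have h5 := down l le_rfl i (by omega) (by omega)
    exact h5.trans (mul_le_mul_of_nonneg_right (pow_le_pow_right₀ hC1 (by omega)) hD)

/-! ### nPr -/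

theorem seg_pair (N : ℕ) (q : ℕ → ℂ) (J : ℕ) (V : ℕ → ℝ) (b u : ℕ → ℂ)
    (hb : ∀ k, J < k → b k = 0) (hu : ∀ k, J < k → u k = 0) :
    ∑ k ∈ Finset.range (J + 1), (∑ j ∈ Finset.range (N + 1), (starRingEnd ℂ) (q j) *
      ((V (k + j) : ℂ) * cv N q b (k + j))) * (starRingEnd ℂ) (u k) =
    ∑ i ∈ Finset.range (J + N + 1), (V i : ℂ) * cv N q b i * (starRingEnd ℂ) (cv N q u i) := by
  have hR : ∑ i ∈ Finset.range (J + N + 1), (V i : ℂ) * cv N q b i * (starRingEnd ℂ) (cv N q u i) =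
      ∑ j ∈ Finset.range (N + 1), ∑ i ∈ Finset.range (J + N + 1),
        (V i : ℂ) * cv N q b i * (if j ≤ i then (starRingEnd ℂ) (q j) * (starRingEnd ℂ) (u (i - j))
          else 0) := by
    rw [Finset.sum_comm]
    refine Finset.sum_congr rfl fun i _ => ?_
    rw [← Finset.mul_sum]
    congr 1
    rw [cv, map_sum]
    refine Finset.sum_congr rfl fun j _ => ?_
    split_ifs
    · rw [map_mul]
    · rw [map_zero]
  rw [hR]
  simp only [Finset.sum_mul]
  rw [Finset.sum_comm]
  refine Finset.sum_congr rfl fun j hj => ?_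
  rw [Finset.mem_range] at hj
  have e1 : J + N + 1 = j + ((J + 1) + (N - j)) := by omega
  rw [e1, Finset.sum_range_add _ j ((J + 1) + (N - j)), Finset.sum_range_add _ (J + 1) (N - j)]
  have z1 : ∑ i ∈ Finset.range j, (V i : ℂ) * cv N q b i *
      (if j ≤ i then (starRingEnd ℂ) (q j) * (starRingEnd ℂ) (u (i - j)) else 0) = 0 := by
    refine Finset.sum_eq_zero fun i hi => ?_
    rw [Finset.mem_range] at hi
    rw [if_neg (by omega), mul_zero]
  have z2 : ∑ k ∈ Finset.range (N - j), (V (j + (J + 1 + k)) : ℂ) * cv N q b (j + (J + 1 + k)) *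
      (if j ≤ j + (J + 1 + k) then
        (starRingEnd ℂ) (q j) * (starRingEnd ℂ) (u (j + (J + 1 + k) - j)) else 0) = 0 := by
    refine Finset.sum_eq_zero fun k _ => ?_
    rw [if_pos (by omega), hu (j + (J + 1 + k) - j) (by omega), map_zero, mul_zero, mul_zero]
  rw [z1, z2, zero_add, add_zero]
  refine Finset.sum_congr rfl fun k _ => ?_
  rw [if_pos (by omega), show j + k - j = k by omega, show k + j = j + k by omega]
  ring

/-! ### nSs -/

theorem nSs_cv_add_seg (N : ℕ) (q b b' : ℕ → ℂ) (k : ℕ) :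
    cv N q (fun i => b i + b' i) k = cv N q b k + cv N q b' k := by
  unfold cv
  rw [← Finset.sum_add_distrib]
  refine Finset.sum_congr rfl fun i _ => ?_
  split_ifs
  · ring
  · ring

theorem nSs_cv_smul_seg (N : ℕ) (q b : ℕ → ℂ) (c : ℂ) (k : ℕ) :
    cv N q (fun i => c * b i) k = c * cv N q b k := by
  unfold cv
  rw [Finset.mul_sum]
  refine Finset.sum_congr rfl fun i _ => ?_
  split_ifs
  · ring
  · ring

/-- extension by zero -/
noncomputable def nSs_extz (J : ℕ) (y : Fin (J + 1) → ℂ) (k : ℕ) : ℂ :=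
  if h : k < J + 1 then y ⟨k, h⟩ else 0

theorem nSs_extz_add (J : ℕ) (y y' : Fin (J + 1) → ℂ) :
    nSs_extz J (y + y') = fun i => nSs_extz J y i + nSs_extz J y' i := by
  funext i
  unfold nSs_extz
  split_ifs
  · rfl
  · simp

theorem nSs_extz_smul (J : ℕ) (c : ℂ) (y : Fin (J + 1) → ℂ) :
    nSs_extz J (c • y) = fun i => c * nSs_extz J y i := by
  funext i
  unfold nSs_extz
  split_ifs
  · rfl
  · simp

/-- the linear map of the segment -/
noncomputable def nSs_segL (N : ℕ) (q : ℕ → ℂ) (J : ℕ) (V : ℕ → ℝ) :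
    (Fin (J + 1) → ℂ) →ₗ[ℂ] (Fin (J + 1) → ℂ) where
  toFun y k := ∑ j ∈ Finset.range (N + 1), (starRingEnd ℂ) (q j) *
        ((V ((k : ℕ) + j) : ℂ) * cv N q (nSs_extz J y) ((k : ℕ) + j))
  map_add' y y' := by
    funext k
    rw [Pi.add_apply, ← Finset.sum_add_distrib]
    refine Finset.sum_congr rfl fun j _ => ?_
    rw [nSs_extz_add, nSs_cv_add_seg]
    ring
  map_smul' c y := by
    funext k
    rw [RingHom.id_apply, Pi.smul_apply, smul_eq_mul, Finset.mul_sum]
    refine Finset.sum_congr rfl fun j _ => ?_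
    rw [nSs_extz_smul, nSs_cv_smul_seg]
    ring

theorem nSs_segL_inj (N : ℕ) (q : ℕ → ℂ) (hN : q N ≠ 0) (J : ℕ) (V : ℕ → ℝ)
    (hV : ∀ k, 0 < V k) : Function.Injective (nSs_segL N q J V) := by
  rw [injective_iff_map_eq_zero]
  intro y hy
  set b := nSs_extz J y with hbdef
  have hb : ∀ k, J < k → b k = 0 := by
    intro k hk
    rw [hbdef]
    unfold nSs_extz
    rw [dif_neg (by omega)]
  have hpair := seg_pair N q J V b b hb hb
  have hL : ∑ k ∈ Finset.range (J + 1), (∑ j ∈ Finset.range (N + 1), (starRingEnd ℂ) (q j) *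
      ((V (k + j) : ℂ) * cv N q b (k + j))) * (starRingEnd ℂ) (b k) = 0 := by
    refine Finset.sum_eq_zero fun k hk => ?_
    have hk' := Finset.mem_range.1 hk
    have := congrFun hy ⟨k, hk'⟩
    have h2 : ∑ j ∈ Finset.range (N + 1), (starRingEnd ℂ) (q j) *
      ((V (k + j) : ℂ) * cv N q b (k + j)) = 0 := this
    rw [h2, zero_mul]
  rw [hL] at hpair
  have hre : ∑ i ∈ Finset.range (J + N + 1), V i * ‖cv N q b i‖ ^ 2 = 0 := by
    have h3 : ((∑ i ∈ Finset.range (J + N + 1), V i * ‖cv N q b i‖ ^ 2 : ℝ) : ℂ) = 0 := by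
      rw [hpair]
      push_cast
      refine Finset.sum_congr rfl fun i _ => ?_
      rw [mul_assoc, Complex.mul_conj']
    exact_mod_cast h3
  have hcv : ∀ i, i < J + N + 1 → cv N q b i = 0 := by
    intro i hi
    have h4 := (Finset.sum_eq_zero_iff_of_nonneg (fun i _ => by
      have := hV i
      positivity)).1 hre i (Finset.mem_range.2 hi)
    rcases mul_eq_zero.1 h4 with h | h
    · exact absurd h (hV i).ne'
    · exact norm_eq_zero.1 (pow_eq_zero_iff (by norm_num) |>.1 h)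
  have hb0 : ∀ m k, J < k + m → b k = 0 := by
    intro m
    induction m with
    | zero => intro k hk; exact hb k (by omega)
    | succ m ih =>
      intro k hk
      by_cases hkJ : J < k
      · exact hb k hkJ
      · have h5 := hcv (k + N) (by omega)
        unfold cv at h5
        rw [Finset.sum_range_succ, if_pos (by omega), Nat.add_sub_cancel] at h5
        have h6 : ∑ x ∈ Finset.range N, (if x ≤ k + N then q x * b (k + N - x) else 0) = 0 := by
          refine Finset.sum_eq_zero fun i hi => ?_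
          have hi' := Finset.mem_range.1 hi
          rw [if_pos (by omega), ih (k + N - i) (by omega), mul_zero]
        rw [h6, zero_add] at h5
        rcases mul_eq_zero.1 h5 with h | h
        · exact absurd h hN
        · exact h
  funext k
  have h7 := hb0 (J + 1) (k : ℕ) (by omega)
  rw [hbdef] at h7
  unfold nSs_extz at h7
  rw [dif_pos k.2] at h7
  exact h7

theorem seg_solve (N : ℕ) (q : ℕ → ℂ) (hN : q N ≠ 0) (J : ℕ) (W V : ℕ → ℝ)
    (hW : ∀ k, 0 < W k) (hV : ∀ k, 0 < V k) (g : ℕ → ℂ) :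
    ∃ b : ℕ → ℂ, (∀ k, J < k → b k = 0) ∧ ∀ k ≤ J,
      ∑ j ∈ Finset.range (N + 1), (starRingEnd ℂ) (q j) *
        ((V (k + j) : ℂ) * cv N q b (k + j)) = (W k : ℂ) * g k := by
  have hs := LinearMap.injective_iff_surjective.1 (nSs_segL_inj N q hN J V hV)
  obtain ⟨y, hy⟩ := hs (fun k => (W (k : ℕ) : ℂ) * g (k : ℕ))
  refine ⟨nSs_extz J y, ?_, ?_⟩
  · intro k hk
    unfold nSs_extz
    rw [dif_neg (by omega)]
  · intro k hk
    exact congrFun hy ⟨k, by omega⟩

/-! ### nSb -/

theorem seg_bound (N : ℕ) (q : ℕ → ℂ) (h0 : q 0 ≠ 0) (hN : q N ≠ 0) :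
    ∃ C : ℝ, 1 ≤ C ∧ ∀ (J : ℕ) (W V : ℕ → ℝ) (A : ℝ), 1 ≤ A → (∀ k, 0 < W k) →
      (∀ k, 0 < V k) →
      (∀ k ≤ J, (∀ i, k ≤ i → i ≤ J → W k ≤ W i) ∨ (∀ i ≤ k, W k ≤ W i)) →
      (∀ i ≤ J, W i ≤ V i ∧ W i ≤ V (i + N)) →
      (∀ l ≤ J, ∀ i, l ≤ i → i ≤ l + N → V i ≤ A * W l) → ∀ b g : ℕ → ℂ,
      (∀ k, J < k → b k = 0) →
      (∀ k ≤ J, ∑ j ∈ Finset.range (N + 1), (starRingEnd ℂ) (q j) *
        ((V (k + j) : ℂ) * cv N q b (k + j)) = (W k : ℂ) * g k) →
      ∀ k ≤ J, ‖b k‖ ≤ C ^ (J + 1) * A * ∑ l ∈ Finset.range (J + 1), ‖g l‖ := by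
  obtain ⟨Cu, hCu1, hCu⟩ := deconv_up N q hN
  obtain ⟨Cd, hCd1, hCd⟩ := deconv_down N q h0
  obtain ⟨C2, hC21, hC2⟩ := spread N (fun i => (starRingEnd ℂ) (q i)) (by simpa using h0)
    (by simpa using hN)
  obtain ⟨C1, hC1⟩ : ∃ C1 : ℝ, C1 = max Cu Cd := ⟨_, rfl⟩
  have hC1u : Cu ≤ C1 := hC1 ▸ le_max_left _ _
  have hC1d : Cd ≤ C1 := hC1 ▸ le_max_right _ _
  have hC11 : 1 ≤ C1 := hCu1.trans hC1u
  refine ⟨C1 ^ 2 * C2, one_le_mul_of_one_le_of_one_le (one_le_pow₀ hC11) hC21, ?_⟩
  intro J W V A hA hW hV hval hWV hVA b g hb hg k0 hk0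
  obtain ⟨u, hu0, hu⟩ := seg_solve N q hN J W V hW hV (Pi.single k0 1)
  obtain ⟨P, hP⟩ : ∃ P : ℝ, P = C1 ^ (J + 1) := ⟨_, rfl⟩
  have hP1 : 1 ≤ P := hP ▸ one_le_pow₀ hC11
  have hdec : ∀ k ≤ J, ∀ D : ℝ, 0 ≤ D → (∀ i ≤ J + N, W k ≤ V i → ‖cv N q u i‖ ≤ D) →
      ‖u k‖ ≤ P * D := by
    intro k hk D hD hd
    rw [hP]
    rcases hval k hk with h | h
    · have := hCu J u hu0 k hk D (fun i hi hiJ => hd (i + N) (by omega)
        ((h i hi hiJ).trans (hWV i hiJ).2))
      exact this.trans (mul_le_mul_of_nonneg_right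
        (pow_le_pow_left₀ (by linarith) hC1u _) hD)
    · have := hCd J u k hk D (fun i hi => hd i (by omega) ((h i hi).trans (hWV i (by omega)).1))
      exact this.trans (mul_le_mul_of_nonneg_right
        (pow_le_pow_left₀ (by linarith) hC1d _) hD)
  obtain ⟨E, hE⟩ : ∃ E : ℝ, E = ∑ i ∈ Finset.range (J + N + 1), V i * ‖cv N q u i‖ ^ 2 := ⟨_, rfl⟩
  have hEi : ∀ i ≤ J + N, V i * ‖cv N q u i‖ ^ 2 ≤ E := by
    intro i hi
    rw [hE]
    exact Finset.single_le_sum (f := fun i => V i * ‖cv N q u i‖ ^ 2)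
      (fun i _ => mul_nonneg (hV i).le (by positivity)) (Finset.mem_range.2 (by omega))
  have hE0 : 0 ≤ E := (mul_nonneg (hV 0).le (by positivity)).trans (hEi 0 (by omega))
  have hsing : ∀ (y : ℕ → ℂ), ∑ k ∈ Finset.range (J + 1), (∑ j ∈ Finset.range (N + 1),
      (starRingEnd ℂ) (q j) * ((V (k + j) : ℂ) * cv N q u (k + j))) * (starRingEnd ℂ) (y k) =
      (W k0 : ℂ) * (starRingEnd ℂ) (y k0) := by
    intro y
    rw [Finset.sum_eq_single k0]
    · rw [hu k0 hk0]; simp
    · intro k hk hne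
      rw [hu k (by have := Finset.mem_range.1 hk; omega), Pi.single_eq_of_ne hne]; simp
    · intro hk
      exact absurd (Finset.mem_range.2 (by omega)) hk
  have hEu : E = W k0 * ‖u k0‖ := by
    have e1 := seg_pair N q J V u u hu0 hu0
    rw [hsing u] at e1
    have e2 : ∑ i ∈ Finset.range (J + N + 1), (V i : ℂ) * cv N q u i *
        (starRingEnd ℂ) (cv N q u i) = (E : ℂ) := by
      rw [hE]
      push_cast
      refine Finset.sum_congr rfl fun i _ => ?_
      rw [mul_assoc, Complex.mul_conj, Complex.normSq_eq_norm_sq]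
      push_cast
      ring
    rw [e2] at e1
    have e3 := congrArg norm e1
    rw [norm_mul, RCLike.norm_conj, Complex.norm_real, Complex.norm_real, Real.norm_eq_abs,
      Real.norm_eq_abs, abs_of_pos (hW k0), abs_of_nonneg hE0] at e3
    exact e3.symm
  have h1 : ‖u k0‖ ≤ P * √(E / W k0) := by
    refine hdec k0 hk0 _ (Real.sqrt_nonneg _) fun i hi hWi => ?_
    apply Real.le_sqrt_of_sq_le
    rw [le_div_iff₀ (hW k0)]
    have := hEi i hi
    have h3 : ‖cv N q u i‖ ^ 2 * W k0 ≤ ‖cv N q u i‖ ^ 2 * V i :=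
      mul_le_mul_of_nonneg_left hWi (by positivity)
    linarith
  have hsW : 0 < √(W k0) := Real.sqrt_pos.2 (hW k0)
  have hsW2 : √(W k0) * √(W k0) = W k0 := Real.mul_self_sqrt (hW k0).le
  have hsE2 : √E * √E = E := Real.mul_self_sqrt hE0
  have h2 : √E ≤ P * √(W k0) := by
    rcases (Real.sqrt_nonneg E).eq_or_lt with h | h
    · rw [← h]; positivity
    · have h3 : E ≤ P * √(W k0) * √E := by
        calc E = W k0 * ‖u k0‖ := hEu
          _ ≤ W k0 * (P * √(E / W k0)) := mul_le_mul_of_nonneg_left h1 (hW k0).le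
          _ = P * √(W k0) * √E := by
            rw [Real.sqrt_div hE0]
            nth_rewrite 1 [← hsW2]
            field_simp
      have h4 : √E * √E ≤ P * √(W k0) * √E := by rw [hsE2]; exact h3
      exact le_of_mul_le_mul_right h4 h
  have hG : ∀ i ≤ J + N, ‖(V i : ℂ) * cv N q u i‖ ≤ √(V i) * √E := by
    intro i hi
    rw [norm_mul, Complex.norm_real, Real.norm_eq_abs, abs_of_pos (hV i),
      ← Real.sqrt_mul (hV i).le]
    apply Real.le_sqrt_of_sq_le
    have := mul_le_mul_of_nonneg_left (hEi i hi) (hV i).le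
    nlinarith
  have hsA : √A ≤ A := by
    rw [Real.sqrt_le_left (by linarith)]
    nlinarith
  have hG2 : ∀ i, k0 ≤ i → i ≤ k0 + N → ‖(V i : ℂ) * cv N q u i‖ ≤ P * A * W k0 := by
    intro i hi1 hi2
    have e1 := hG i (by omega)
    have e2 : √(V i) ≤ A * √(W k0) := by
      calc √(V i) ≤ √(A * W k0) := Real.sqrt_le_sqrt (hVA k0 hk0 i hi1 hi2)
        _ = √A * √(W k0) := Real.sqrt_mul (by linarith) _
        _ ≤ A * √(W k0) := mul_le_mul_of_nonneg_right hsA hsW.le
    calc ‖(V i : ℂ) * cv N q u i‖ ≤ √(V i) * √E := e1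
      _ ≤ (A * √(W k0)) * (P * √(W k0)) :=
        mul_le_mul e2 h2 (Real.sqrt_nonneg _) (by positivity)
      _ = P * A * (√(W k0) * √(W k0)) := by ring
      _ = P * A * W k0 := by rw [hsW2]
  have hG3 : ∀ i ≤ J + N, ‖(V i : ℂ) * cv N q u i‖ ≤ C2 ^ (J + 1) * (P * A * W k0) := by
    refine hC2 J k0 (fun i => (V i : ℂ) * cv N q u i) _ hk0 (fun k hk hne => ?_) hG2
    have := hu k hk
    rw [Pi.single_eq_of_ne hne, mul_zero] at this
    exact this
  obtain ⟨X, hX⟩ : ∃ X : ℝ, X = C2 ^ (J + 1) * (P * A * W k0) := ⟨_, rfl⟩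
  have hC20 : 0 < C2 := by linarith
  have hWk0 := hW k0
  have hX0 : 0 ≤ X := by
    rw [hX]
    have : 0 < P := by linarith
    have : 0 < A := by linarith
    positivity
  rw [← hX] at hG3
  have hu3 : ∀ k ≤ J, W k * ‖u k‖ ≤ P * X := by
    intro k hk
    have e1 := hdec k hk (X / W k) (div_nonneg hX0 (hW k).le) (fun i hi hWi => by
      rw [le_div_iff₀ (hW k)]
      have e2 := hG3 i hi
      rw [norm_mul, Complex.norm_real, Real.norm_eq_abs, abs_of_pos (hV i)] at e2
      have e3 : ‖cv N q u i‖ * W k ≤ ‖cv N q u i‖ * V i :=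
        mul_le_mul_of_nonneg_left hWi (norm_nonneg _)
      linarith)
    have e4 := mul_le_mul_of_nonneg_left e1 (hW k).le
    have hWk := hW k
    calc W k * ‖u k‖ ≤ W k * (P * (X / W k)) := e4
      _ = P * X := by field_simp
  have hfin : (W k0 : ℂ) * b k0 = ∑ k ∈ Finset.range (J + 1),
      ((W k : ℂ) * g k) * (starRingEnd ℂ) (u k) := by
    have e1 := seg_pair N q J V b u hb hu0
    have e2 := seg_pair N q J V u b hu0 hb
    rw [hsing b] at e2
    have e3 : ∑ k ∈ Finset.range (J + 1), (∑ j ∈ Finset.range (N + 1), (starRingEnd ℂ) (q j) *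
      ((V (k + j) : ℂ) * cv N q b (k + j))) * (starRingEnd ℂ) (u k) =
        ∑ k ∈ Finset.range (J + 1), ((W k : ℂ) * g k) * (starRingEnd ℂ) (u k) := by
      refine Finset.sum_congr rfl fun k hk => ?_
      rw [hg k (by have := Finset.mem_range.1 hk; omega)]
    rw [← e3, e1]
    have e4 := congrArg (starRingEnd ℂ) e2
    rw [map_mul, Complex.conj_conj, Complex.conj_ofReal, map_sum] at e4
    rw [e4]
    refine Finset.sum_congr rfl fun i _ => ?_
    rw [map_mul, map_mul, Complex.conj_conj, Complex.conj_ofReal]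
    ring
  have hfin2 : W k0 * ‖b k0‖ ≤ W k0 * ((C1 ^ 2 * C2) ^ (J + 1) * A *
      ∑ l ∈ Finset.range (J + 1), ‖g l‖) := by
    have e1 := congrArg norm hfin
    rw [norm_mul, Complex.norm_real, Real.norm_eq_abs, abs_of_pos (hW k0)] at e1
    rw [e1]
    calc ‖∑ k ∈ Finset.range (J + 1), ((W k : ℂ) * g k) * (starRingEnd ℂ) (u k)‖
        ≤ ∑ k ∈ Finset.range (J + 1), ‖((W k : ℂ) * g k) * (starRingEnd ℂ) (u k)‖ :=
          norm_sum_le _ _
      _ ≤ ∑ k ∈ Finset.range (J + 1), (P * X) * ‖g k‖ := by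
          refine Finset.sum_le_sum fun k hk => ?_
          rw [norm_mul, norm_mul, RCLike.norm_conj, Complex.norm_real, Real.norm_eq_abs,
            abs_of_pos (hW k)]
          have e5 := mul_le_mul_of_nonneg_right (hu3 k (by have := Finset.mem_range.1 hk; omega))
            (norm_nonneg (g k))
          linarith
      _ = _ := by
          rw [← Finset.mul_sum, hX, hP, mul_pow, ← pow_mul, mul_comm 2 (J+1), pow_mul]
          ring
  exact le_of_mul_le_mul_left hfin2 (hW k0)

/-! ### nLi -/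

theorem nLi_lines_max {n : ℕ} (β : Fin n →₀ ℕ) (hβ : β ≠ 0) :
    ∃ K : (Fin n → ℕ) → ℕ, ∀ γ k, (∀ i, k * β i ≤ γ i) ↔ k ≤ K γ := by
  classical
  obtain ⟨i0, hi0⟩ : ∃ i, β i ≠ 0 := by
    by_contra hcon
    push Not at hcon
    exact hβ (Finsupp.ext hcon)
  refine ⟨fun γ => Nat.findGreatest (fun k => ∀ i, k * β i ≤ γ i) (∑ i, γ i), ?_⟩
  intro γ k
  have hspec : ∀ i, Nat.findGreatest (fun k => ∀ i, k * β i ≤ γ i) (∑ i, γ i) * β i ≤ γ i :=
    Nat.findGreatest_spec (P := fun k => ∀ i, k * β i ≤ γ i) (Nat.zero_le _)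
      (fun i => by rw [zero_mul]; exact Nat.zero_le _)
  constructor
  · intro h
    apply Nat.le_findGreatest _ h
    have h1 := h i0
    have h2 : γ i0 ≤ ∑ i, γ i := Finset.single_le_sum (fun i _ => Nat.zero_le _) (Finset.mem_univ i0)
    have h3 : k * 1 ≤ k * β i0 := Nat.mul_le_mul_left k (Nat.one_le_iff_ne_zero.2 hi0)
    omega
  · intro h i
    exact le_trans (Nat.mul_le_mul_right _ h) (hspec i)

/-- decomposition of `ℕ^n` into lines in the direction `β - α` -/
theorem lines {n : ℕ} (α β : Fin n →₀ ℕ) (hα : α ≠ 0) (hβ : β ≠ 0)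
    (hd : ∀ i, α i = 0 ∨ β i = 0) :
    ∃ (B : (Fin n → ℕ) → (Fin n → ℕ)) (K L : (Fin n → ℕ) → ℕ),
      (∀ γ i, γ i + K γ * α i = B γ i + K γ * β i) ∧
      (∀ γ γ' k, (∀ i, γ' i + k * α i = γ i + k * β i) → B γ' = B γ ∧ K γ' = K γ + k) ∧
      (∀ γ k, (∀ i, k * α i ≤ γ i + k * β i) ↔ k ≤ L γ) ∧
      (∀ γ, B (B γ) = B γ ∧ K (B γ) = 0 ∧ K γ ≤ L (B γ)) := by
  obtain ⟨K, hK⟩ := nLi_lines_max β hβ
  obtain ⟨L, hL⟩ := nLi_lines_max α hα
  have hKs : ∀ γ i, K γ * β i ≤ γ i := fun γ => (hK γ (K γ)).2 le_rfl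
  have h1 : ∀ (γ : Fin n → ℕ) i, γ i + K γ * α i = (γ i - K γ * β i + K γ * α i) + K γ * β i := by
    intro γ i
    have := hKs γ i
    omega
  have h2 : ∀ (γ γ' : Fin n → ℕ) (k : ℕ), (∀ i, γ' i + k * α i = γ i + k * β i) →
      (fun i => γ' i - K γ' * β i + K γ' * α i) = (fun i => γ i - K γ * β i + K γ * α i) ∧
        K γ' = K γ + k := by
    intro γ γ' k h
    have hKK : K γ' = K γ + k := by
      have key : ∀ l, l ≤ K γ' ↔ l ≤ K γ + k := by
        intro l
        rw [← hK γ' l, ← Nat.sub_le_iff_le_add, ← hK γ (l - k)]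
        refine forall_congr' fun i => ?_
        have hi := h i
        rw [Nat.sub_mul]
        rcases hd i with h0 | h0
        · rw [h0, mul_zero, add_zero] at hi
          rw [hi]
          omega
        · rw [h0]
          simp
      exact le_antisymm ((key _).1 le_rfl) ((key _).2 le_rfl)
    refine ⟨?_, hKK⟩
    funext i
    rw [hKK]
    have hi := h i
    have hs := hKs γ i
    rcases hd i with h0 | h0
    · rw [h0] at hi ⊢
      simp only [mul_zero, add_zero] at hi ⊢
      rw [add_mul]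
      omega
    · rw [h0] at hi ⊢
      simp only [mul_zero, add_zero] at hi ⊢
      rw [add_mul]
      omega
  refine ⟨fun γ i => γ i - K γ * β i + K γ * α i, K, L, h1, h2, ?_, ?_⟩
  · intro γ k
    rw [← hL γ k]
    refine forall_congr' fun i => ?_
    rcases hd i with h0 | h0
    · rw [h0]; simp
    · rw [h0]; simp
  · intro γ
    obtain ⟨a1, a2⟩ := h2 (fun i => γ i - K γ * β i + K γ * α i) γ (K γ) (h1 γ)
    refine ⟨a1.symm, ?_, ?_⟩
    · change K (fun i => γ i - K γ * β i + K γ * α i) = 0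
      omega
    rw [← hL]
    intro i
    exact Nat.le_add_left _ _

/-! ### nSl -/

theorem nSl_sum_gen {n : ℕ} (s α β : Fin n →₀ ℕ) (hαβ : α ≠ β) (N : ℕ) (q : ℕ → ℂ)
    (P : MvPolynomial (Fin n) ℂ)
    (hP : P = ∑ j ∈ Finset.range (N + 1),
      MvPolynomial.monomial (s + (N - j) • α + j • β) (q j))
    (Φ : (Fin n →₀ ℕ) → ℂ → ℂ) (hΦ : ∀ m, Φ m 0 = 0) :
    ∑ m ∈ P.support, Φ m (P.coeff m) =
      ∑ j ∈ Finset.range (N + 1), Φ (s + (N - j) • α + j • β) (q j) := by
  classical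
  obtain ⟨i0, hi0⟩ : ∃ i, α i ≠ β i := by
    by_contra h
    push Not at h
    exact hαβ (Finsupp.ext h)
  have hinj : ∀ a ∈ Finset.range (N + 1), ∀ b ∈ Finset.range (N + 1),
      s + (N - a) • α + a • β = s + (N - b) • α + b • β → a = b := by
    intro a ha b hb h
    rw [Finset.mem_range] at ha hb
    have h1 := DFunLike.congr_fun h i0
    simp only [Finsupp.add_apply, Finsupp.smul_apply, smul_eq_mul] at h1
    obtain ⟨a', ha'⟩ : ∃ a', N = a + a' := ⟨N - a, by omega⟩
    obtain ⟨b', hb'⟩ : ∃ b', N = b + b' := ⟨N - b, by omega⟩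
    have e1 : N - a = a' := by omega
    have e2 : N - b = b' := by omega
    rw [e1, e2] at h1
    have h2 : ((a : ℤ) - b) * ((β i0 : ℤ) - α i0) = 0 := by
      have h3 : (s i0 : ℤ) + a' * α i0 + a * β i0 = s i0 + b' * α i0 + b * β i0 := by
        exact_mod_cast h1
      have h4 : (a : ℤ) + a' = b + b' := by exact_mod_cast (ha'.symm.trans hb')
      have h5 : (a' : ℤ) = b + b' - a := by linarith
      rw [h5] at h3
      linarith
    rcases mul_eq_zero.1 h2 with h3 | h3
    · have : (a : ℤ) = b := by linarith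
      exact_mod_cast this
    · exfalso
      apply hi0
      have : (α i0 : ℤ) = β i0 := by linarith
      exact_mod_cast this
  have hcoef : ∀ m, P.coeff m = ∑ j ∈ Finset.range (N + 1),
      if s + (N - j) • α + j • β = m then q j else 0 := by
    intro m
    rw [hP, MvPolynomial.coeff_sum]
    refine Finset.sum_congr rfl fun j _ => ?_
    rw [MvPolynomial.coeff_monomial]
  have hcj : ∀ j ∈ Finset.range (N + 1), P.coeff (s + (N - j) • α + j • β) = q j := by
    intro j hj
    rw [hcoef, Finset.sum_eq_single j]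
    · rw [if_pos rfl]
    · intro b hb hbj
      rw [if_neg]
      intro h
      exact hbj (hinj b hb j hj h)
    · intro h
      exact absurd hj h
  have hsub : P.support ⊆ (Finset.range (N + 1)).image (fun j => s + (N - j) • α + j • β) := by
    intro m hm
    rw [MvPolynomial.mem_support_iff, hcoef] at hm
    obtain ⟨j, hj, hj2⟩ := Finset.exists_ne_zero_of_sum_ne_zero hm
    rw [Finset.mem_image]
    refine ⟨j, hj, ?_⟩
    by_contra h
    exact hj2 (if_neg h)
  rw [Finset.sum_subset hsub (by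
    intro m _ hm
    rw [MvPolynomial.notMem_support_iff] at hm
    rw [hm, hΦ])]
  rw [Finset.sum_image (fun a ha b hb h => hinj a ha b hb h)]
  refine Finset.sum_congr rfl fun j hj => ?_
  rw [hcj j hj]

theorem sum_line {n : ℕ} (s α β : Fin n →₀ ℕ) (hαβ : α ≠ β) (N : ℕ) (q : ℕ → ℂ)
    (P : MvPolynomial (Fin n) ℂ)
    (hP : P = ∑ j ∈ Finset.range (N + 1),
      MvPolynomial.monomial (s + (N - j) • α + j • β) (q j))
    (F : (Fin n → ℕ) → ℂ) (x : Fin n → ℕ) :
    ∑ m ∈ P.support, (starRingEnd ℂ) (P.coeff m) * F (fun i => x i + m i) =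
      ∑ j ∈ Finset.range (N + 1), (starRingEnd ℂ) (q j) *
        F (fun i => x i + (s i + (N - j) * α i + j * β i)) := by
  rw [nSl_sum_gen s α β hαβ N q P hP
    (fun m y => (starRingEnd ℂ) y * F (fun i => x i + m i)) (fun m => by simp)]
  refine Finset.sum_congr rfl fun j _ => ?_
  simp only [Finsupp.add_apply, Finsupp.smul_apply, smul_eq_mul]

theorem mulc_line0 {n : ℕ} (s α β : Fin n →₀ ℕ) (hαβ : α ≠ β) (N : ℕ) (q : ℕ → ℂ)
    (P : MvPolynomial (Fin n) ℂ)
    (hP : P = ∑ j ∈ Finset.range (N + 1),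
      MvPolynomial.monomial (s + (N - j) • α + j • β) (q j))
    (c : (Fin n → ℕ) → ℂ) (γ : Fin n → ℕ) :
    mulc P c γ = ∑ j ∈ Finset.range (N + 1),
      if ∀ i, s i + (N - j) * α i + j * β i ≤ γ i then
        q j * c (fun i => γ i - (s i + (N - j) * α i + j * β i)) else 0 := by
  unfold mulc
  rw [nSl_sum_gen s α β hαβ N q P hP
    (fun m y => if ∀ i, m i ≤ γ i then y * c (fun i => γ i - m i) else 0) (fun m => by simp)]
  refine Finset.sum_congr rfl fun j _ => ?_
  simp only [Finsupp.add_apply, Finsupp.smul_apply, smul_eq_mul]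

/-! ### nMl -/

theorem mulc_line {n : ℕ} (s α β : Fin n →₀ ℕ) (hα : α ≠ 0) (hβ : β ≠ 0)
    (hd : ∀ i, α i = 0 ∨ β i = 0) (N : ℕ) (q : ℕ → ℂ) (P : MvPolynomial (Fin n) ℂ)
    (hP : P = ∑ j ∈ Finset.range (N + 1),
      MvPolynomial.monomial (s + (N - j) • α + j • β) (q j))
    (B : (Fin n → ℕ) → (Fin n → ℕ)) (K L : (Fin n → ℕ) → ℕ)
    (h2 : ∀ γ γ' k, (∀ i, γ' i + k * α i = γ i + k * β i) → B γ' = B γ ∧ K γ' = K γ + k)
    (h3 : ∀ γ k, (∀ i, k * α i ≤ γ i + k * β i) ↔ k ≤ L γ)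
    (b : (Fin n → ℕ) → ℕ → ℂ) (hb : ∀ x k, L x < k → b x k = 0)
    (x : Fin n → ℕ) (hx : B x = x) (hK : K x = 0) (t : ℕ) (δ : Fin n → ℕ)
    (hδ : ∀ i, δ i + t * α i = x i + s i + N * α i + t * β i) :
    mulc P (fun γ => b (B γ) (K γ)) δ = cv N q (b x) t := by
  have hαβ : α ≠ β := by
    intro h
    apply hα
    ext i
    rcases hd i with h' | h'
    · simpa using h'
    · rw [h]; simpa using h'
  rw [mulc_line0 s α β hαβ N q P hP]
  unfold cv
  refine Finset.sum_congr rfl fun j hj => ?_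
  have hjN : j ≤ N := by
    have := Finset.mem_range.1 hj
    omega
  obtain ⟨r, rfl⟩ : ∃ r, N = j + r := ⟨N - j, by omega⟩
  have hr : j + r - j = r := by omega
  rw [hr]
  by_cases hm : ∀ i, s i + r * α i + j * β i ≤ δ i
  · rw [if_pos hm]
    have hg : ∀ i, (δ i - (s i + r * α i + j * β i)) + t * α i + j * β i =
        x i + j * α i + t * β i := by
      intro i
      have h1 := hδ i
      have h2 := hm i
      have h3 : (j + r) * α i = j * α i + r * α i := by ring
      rw [h3] at h1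
      omega
    by_cases hjt : j ≤ t
    · rw [if_pos hjt]
      obtain ⟨u, rfl⟩ : ∃ u, t = j + u := ⟨t - j, by omega⟩
      have hu : j + u - j = u := by omega
      rw [hu]
      have h4 := h2 x (fun i => δ i - (s i + r * α i + j * β i)) u (fun i => by
        have h1 := hg i
        have h5 : (j + u) * α i = j * α i + u * α i := by ring
        have h6 : (j + u) * β i = j * β i + u * β i := by ring
        rw [h5, h6] at h1
        show (δ i - (s i + r * α i + j * β i)) + u * α i = x i + u * β i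
        omega)
      rw [h4.1, h4.2, hx, hK, zero_add]
    · exfalso
      obtain ⟨u, rfl⟩ : ∃ u, j = t + u := ⟨j - t, by omega⟩
      have h4 := h2 (fun i => δ i - (s i + r * α i + (t + u) * β i)) x u (fun i => by
        have h1 := hg i
        have h5 : (t + u) * α i = t * α i + u * α i := by ring
        have h6 : (t + u) * β i = t * β i + u * β i := by ring
        rw [h5] at h1
        show x i + u * α i = (δ i - (s i + r * α i + (t + u) * β i)) + u * β i
        rw [h6] at h1 ⊢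
        omega)
      have h7 := h4.2
      rw [hK] at h7
      omega
  · rw [if_neg hm]
    by_cases hjt : j ≤ t
    · rw [if_pos hjt]
      rw [hb x (t - j), mul_zero]
      by_contra hlt
      have h5 := (h3 x (t - j)).2 (by omega)
      apply hm
      intro i
      have h6 := h5 i
      have h7 := hδ i
      obtain ⟨u, rfl⟩ : ∃ u, t = j + u := ⟨t - j, by omega⟩
      have hu : j + u - j = u := by omega
      rw [hu] at h6
      have h8 : (j + r) * α i = j * α i + r * α i := by ring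
      have h9 : (j + u) * α i = j * α i + u * α i := by ring
      have h10 : (j + u) * β i = j * β i + u * β i := by ring
      rw [h8, h9, h10] at h7
      omega
    · rw [if_neg hjt]

/-! ### nVa -/

theorem nVa_fact_conv (e : ℕ) : ∀ a : ℕ, (a + e).factorial ^ 2 ≤ a.factorial * (a + 2 * e).factorial := by
  induction e with
  | zero => intro a; simp [sq]
  | succ e ih =>
    intro a
    have h := ih (a + 1)
    have e1 : a + 1 + e = a + (e + 1) := by ring
    have e2 : a + 1 + 2 * e = a + 2 * e + 1 := by ring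
    have e3 : a + 2 * (e + 1) = (a + 2 * e + 1) + 1 := by ring
    rw [e1, e2, Nat.factorial_succ a] at h
    rw [e3, Nat.factorial_succ (a + 2 * e + 1)]
    refine h.trans ?_
    have h3 : (a + 1) * a.factorial * (a + 2 * e + 1).factorial
        = (a + 1) * (a.factorial * (a + 2 * e + 1).factorial) := by ring
    have h4 : a.factorial * ((a + 2 * e + 1 + 1) * (a + 2 * e + 1).factorial)
        = (a + 2 * e + 1 + 1) * (a.factorial * (a + 2 * e + 1).factorial) := by ring
    rw [h3, h4]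
    exact Nat.mul_le_mul_right _ (by omega)

theorem nVa_term_conv (a b x J j : ℕ) (hJ : J * a ≤ x + J * b) (hj : j + 2 ≤ J) :
    (x + (j + 1) * b - (j + 1) * a).factorial ^ 2 ≤
      (x + j * b - j * a).factorial * (x + (j + 2) * b - (j + 2) * a).factorial := by
  rcases le_total a b with h | h
  · obtain ⟨e, rfl⟩ := Nat.exists_eq_add_of_le h
    have h1 : ∀ t : ℕ, x + t * (a + e) - t * a = x + t * e := by
      intro t
      have : x + t * (a + e) = x + t * e + t * a := by ring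
      rw [this, Nat.add_sub_cancel]
    rw [h1, h1, h1]
    have := nVa_fact_conv e (x + j * e)
    have e1 : x + j * e + e = x + (j + 1) * e := by ring
    have e2 : x + j * e + 2 * e = x + (j + 2) * e := by ring
    rwa [e1, e2] at this
  · obtain ⟨e, rfl⟩ := Nat.exists_eq_add_of_le h
    have h0 : J * e ≤ x := by
      have : J * (b + e) = J * b + J * e := by ring
      omega
    have h1 : ∀ t : ℕ, x + t * b - t * (b + e) = x - t * e := by
      intro t
      have : t * (b + e) = t * e + t * b := by ring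
      rw [this, Nat.add_sub_add_right]
    rw [h1, h1, h1]
    have h2 : (j + 2) * e ≤ x := (Nat.mul_le_mul_right e hj).trans h0
    obtain ⟨y, rfl⟩ := Nat.exists_eq_add_of_le h2
    have e1 : (j + 2) * e + y - (j + 2) * e = y := by omega
    have e2 : (j + 2) * e + y - (j + 1) * e = y + e := by
      have : (j + 2) * e = (j + 1) * e + e := by ring
      omega
    have e3 : (j + 2) * e + y - j * e = y + 2 * e := by
      have : (j + 2) * e = j * e + 2 * e := by ring
      omega
    rw [e1, e2, e3, mul_comm]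
    exact nVa_fact_conv e y

theorem nVa_valley_seq (W : ℕ → ℕ) (J : ℕ) (hpos : ∀ j, 0 < W j)
    (hc : ∀ j, j + 2 ≤ J → W (j + 1) ^ 2 ≤ W j * W (j + 2)) (k : ℕ) (hk : k ≤ J) :
    (∀ j, k ≤ j → j ≤ J → W k ≤ W j) ∨ (∀ j ≤ k, W k ≤ W j) := by
  rcases Nat.lt_or_ge k J with hkJ | hkJ
  · rcases le_or_gt (W k) (W (k + 1)) with h | h
    · left
      have step : ∀ d, k + d + 1 ≤ J → W (k + d) ≤ W (k + d + 1) := by
        intro d
        induction d with
        | zero => intro _; exact h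
        | succ d ih =>
          intro hd
          have h1 := ih (by omega)
          have h2 := hc (k + d) (by omega)
          have e1 : k + (d + 1) = k + d + 1 := by ring
          have e2 : k + (d + 1) + 1 = k + d + 2 := by ring
          rw [e1]
          rw [e1] at e2
          by_contra hlt
          push Not at hlt
          rw [e2] at hlt
          have h3 : W (k + d) * W (k + d + 2) < W (k + d + 1) ^ 2 := by
            rw [sq]
            calc W (k + d) * W (k + d + 2) ≤ W (k + d + 1) * W (k + d + 2) :=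
                  Nat.mul_le_mul_right _ h1
              _ < W (k + d + 1) * W (k + d + 1) := Nat.mul_lt_mul_of_pos_left hlt (hpos _)
          omega
      have all : ∀ d, k + d ≤ J → W k ≤ W (k + d) := by
        intro d
        induction d with
        | zero => intro _; exact le_refl _
        | succ d ih => intro hd; exact (ih (by omega)).trans (step d (by omega))
      intro j h1 h2
      obtain ⟨d, rfl⟩ := Nat.exists_eq_add_of_le h1
      exact all d h2
    · right
      have step : ∀ d, d ≤ k → W (k - d + 1) ≤ W (k - d) := by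
        intro d
        induction d with
        | zero => intro _; exact h.le
        | succ d ih =>
          intro hd
          have h1 := ih (by omega)
          obtain ⟨i, hi⟩ : ∃ i, k - (d + 1) = i := ⟨_, rfl⟩
          have e1 : k - d = i + 1 := by omega
          rw [hi]
          rw [e1] at h1
          have h2 := hc i (by omega)
          by_contra hlt
          push Not at hlt
          have h3 : W i * W (i + 2) < W (i + 1) ^ 2 := by
            rw [sq]
            calc W i * W (i + 2) ≤ W i * W (i + 1) := Nat.mul_le_mul_left _ h1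
              _ < W (i + 1) * W (i + 1) := Nat.mul_lt_mul_of_pos_right hlt (hpos _)
          omega
      have all : ∀ d, d ≤ k → W k ≤ W (k - d) := by
        intro d
        induction d with
        | zero => intro _; exact le_refl _
        | succ d ih =>
          intro hd
          have h1 := ih (by omega)
          have h2 := step (d + 1) hd
          have e1 : k - (d + 1) + 1 = k - d := by omega
          rw [e1] at h2
          exact h1.trans h2
      intro j hj
      have h1 := all (k - j) (by omega)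
      have e1 : k - (k - j) = j := by omega
      rwa [e1] at h1
  · left
    intro j h1 h2
    have : j = k := by omega
    rw [this]

theorem valley {n : ℕ} (α β : Fin n →₀ ℕ) (x : Fin n → ℕ) (J : ℕ)
    (hJ : ∀ i, J * α i ≤ x i + J * β i) (k : ℕ) (hk : k ≤ J) :
    (∀ j, k ≤ j → j ≤ J → fac (fun i => x i + k * β i - k * α i) ≤
      fac (fun i => x i + j * β i - j * α i)) ∨
    (∀ j ≤ k, fac (fun i => x i + k * β i - k * α i) ≤
      fac (fun i => x i + j * β i - j * α i)) := by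
  apply nVa_valley_seq (fun j => fac (fun i => x i + j * β i - j * α i)) J
  · intro j
    exact Finset.prod_pos (fun i _ => Nat.factorial_pos _)
  · intro j hj
    simp only [fac]
    rw [← Finset.prod_pow, ← Finset.prod_mul_distrib]
    apply Finset.prod_le_prod'
    intro i _
    exact nVa_term_conv (α i) (β i) (x i) J j (hJ i) hj
  · exact hk

/-! ### nFw -/

theorem fac_win (n D : ℕ) : ∃ C : ℝ, 1 ≤ C ∧ ∀ γ m : Fin n → ℕ, ∑ i, m i ≤ D →
    (fac (fun i => γ i + m i) : ℝ) ≤ C ^ (∑ i, γ i + 1) * (fac γ : ℝ) := by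
  have hDf : 1 ≤ D.factorial ^ n := Nat.one_le_pow _ _ D.factorial_pos
  have h2 : 1 ≤ 2 ^ (D + 1) := Nat.one_le_two_pow
  refine ⟨((2 ^ (D + 1) * D.factorial ^ n : ℕ) : ℝ), ?_, ?_⟩
  · exact_mod_cast Nat.one_le_iff_ne_zero.2 (Nat.mul_ne_zero (by omega) (by omega))
  · intro γ m hm
    have key : fac (fun i => γ i + m i) ≤
        (2 ^ (D + 1) * D.factorial ^ n) ^ (∑ i, γ i + 1) * fac γ := by
      have hmi : ∀ i, m i ≤ D := fun i =>
        (Finset.single_le_sum (f := m) (fun j _ => Nat.zero_le _) (Finset.mem_univ i)).trans hm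
      have h1 : fac (fun i => γ i + m i) ≤ ∏ i, (2 ^ (γ i + m i) * (γ i).factorial * D.factorial) := by
        unfold fac
        refine Finset.prod_le_prod' (fun i _ => ?_)
        rw [← Nat.add_choose_mul_factorial_mul_factorial (γ i) (m i)]
        refine Nat.mul_le_mul (Nat.mul_le_mul (Nat.choose_le_two_pow _ _) le_rfl)
          (Nat.factorial_le (hmi i))
      refine h1.trans ?_
      rw [Finset.prod_mul_distrib, Finset.prod_mul_distrib, Finset.prod_pow_eq_pow_sum,
        Finset.sum_add_distrib, Finset.prod_const, Finset.card_univ, Fintype.card_fin]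
      have h3 : (2:ℕ) ^ (∑ i, γ i + ∑ i, m i) ≤ (2 ^ (D + 1)) ^ (∑ i, γ i + 1) := by
        rw [← pow_mul]
        apply Nat.pow_le_pow_right (by norm_num)
        nlinarith [Nat.zero_le (D * ∑ i, γ i)]
      have h4 : D.factorial ^ n ≤ (D.factorial ^ n) ^ (∑ i, γ i + 1) := by
        calc D.factorial ^ n = (D.factorial ^ n) ^ 1 := (pow_one _).symm
          _ ≤ _ := Nat.pow_le_pow_right hDf (by omega)
      calc 2 ^ (∑ i, γ i + ∑ i, m i) * (∏ i, (γ i).factorial) * D.factorial ^ n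
          = (2 ^ (∑ i, γ i + ∑ i, m i) * D.factorial ^ n) * fac γ := by unfold fac; ring
        _ ≤ ((2 ^ (D + 1)) ^ (∑ i, γ i + 1) * (D.factorial ^ n) ^ (∑ i, γ i + 1)) * fac γ :=
            Nat.mul_le_mul (Nat.mul_le_mul h3 h4) le_rfl
        _ = _ := by rw [mul_pow]
    exact_mod_cast key

/-! ### nSn -/

theorem nSn_nSn_line_sum {n : ℕ} (α β : Fin n →₀ ℕ) (hα : α ≠ 0) (hβ : β ≠ 0)
    (hd : ∀ i, α i = 0 ∨ β i = 0) (x : Fin n → ℕ) (l l' : ℕ)
    (hl : ∀ i, l * α i ≤ x i + l * β i) (hl' : ∀ i, l' * α i ≤ x i + l' * β i) :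
    ∑ i, (x i + l * β i - l * α i)
      ≤ (∑ i, α i + ∑ i, β i) * ∑ i, (x i + l' * β i - l' * α i) := by
  classical
  obtain ⟨a, ha⟩ : ∃ a, a = ∑ i, α i := ⟨_, rfl⟩
  obtain ⟨bb, hbb⟩ : ∃ bb, bb = ∑ i, β i := ⟨_, rfl⟩
  rw [← ha, ← hbb]
  have ha1 : 1 ≤ a := by
    obtain ⟨i, hi⟩ := DFunLike.ne_iff.mp hα
    have h1 : α i ≤ ∑ i, α i :=
      Finset.single_le_sum (f := fun i => α i) (fun _ _ => Nat.zero_le _) (Finset.mem_univ i)
    have h2 : α i ≠ 0 := hi
    omega
  have hb1 : 1 ≤ bb := by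
    obtain ⟨i, hi⟩ := DFunLike.ne_iff.mp hβ
    have h1 : β i ≤ ∑ i, β i :=
      Finset.single_le_sum (f := fun i => β i) (fun _ _ => Nat.zero_le _) (Finset.mem_univ i)
    have h2 : β i ≠ 0 := hi
    omega
  obtain ⟨w, hw⟩ : ∃ w : Fin n → ℕ, w = fun i => if α i ≠ 0 then bb else if β i ≠ 0 then a else 1 :=
    ⟨_, rfl⟩
  have hwα : ∀ i, w i * α i = bb * α i := by
    intro i
    by_cases h : α i = 0
    · simp [h]
    · simp [hw, h]
  have hwβ : ∀ i, w i * β i = a * β i := by
    intro i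
    by_cases h : α i = 0
    · by_cases h2 : β i = 0
      · simp [h2]
      · simp [hw, h, h2]
    · have h3 : β i = 0 := (hd i).resolve_left h
      simp [h3]
  have hw1 : ∀ i, 1 ≤ w i := by
    intro i
    simp only [hw]
    split_ifs <;> omega
  have hwκ : ∀ i, w i ≤ a + bb := by
    intro i
    simp only [hw]
    split_ifs <;> omega
  have hconst : ∀ m, (∀ i, m * α i ≤ x i + m * β i) →
      ∑ i, w i * (x i + m * β i - m * α i) = ∑ i, w i * x i := by
    intro m hm
    have e1 : ∀ i, w i * (x i + m * β i - m * α i) + m * (bb * α i)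
        = w i * x i + m * (a * β i) := by
      intro i
      have h := hm i
      rw [← hwα, ← hwβ]
      have h2 : x i + m * β i - m * α i + m * α i = x i + m * β i := Nat.sub_add_cancel h
      calc w i * (x i + m * β i - m * α i) + m * (w i * α i)
          = w i * ((x i + m * β i - m * α i) + m * α i) := by ring
        _ = w i * (x i + m * β i) := by rw [h2]
        _ = w i * x i + m * (w i * β i) := by ring
    have e2 : ∑ i, (w i * (x i + m * β i - m * α i) + m * (bb * α i))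
        = ∑ i, (w i * x i + m * (a * β i)) := Finset.sum_congr rfl (fun i _ => e1 i)
    rw [Finset.sum_add_distrib, Finset.sum_add_distrib, ← Finset.mul_sum, ← Finset.mul_sum,
      ← Finset.mul_sum, ← Finset.mul_sum, ← ha, ← hbb] at e2
    have e3 : m * (bb * a) = m * (a * bb) := by ring
    rw [e3] at e2
    exact Nat.add_right_cancel e2
  calc ∑ i, (x i + l * β i - l * α i) ≤ ∑ i, w i * (x i + l * β i - l * α i) :=
        Finset.sum_le_sum (fun i _ => Nat.le_mul_of_pos_left _ (hw1 i))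
    _ = ∑ i, w i * (x i + l' * β i - l' * α i) := by rw [hconst l hl, hconst l' hl']
    _ ≤ ∑ i, (a + bb) * (x i + l' * β i - l' * α i) :=
        Finset.sum_le_sum (fun i _ => Nat.mul_le_mul_right _ (hwκ i))
    _ = (a + bb) * ∑ i, (x i + l' * β i - l' * α i) := by rw [Finset.mul_sum]

theorem seg_surjN {n : ℕ} (s α β : Fin n →₀ ℕ) (hα : α ≠ 0) (hβ : β ≠ 0)
    (hd : ∀ i, α i = 0 ∨ β i = 0) (N : ℕ) (q : ℕ → ℂ) (h0 : q 0 ≠ 0) (hN : q N ≠ 0)
    (P : MvPolynomial (Fin n) ℂ)
    (hP : P = ∑ j ∈ Finset.range (N + 1),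
      MvPolynomial.monomial (s + (N - j) • α + j • β) (q j))
    (g : (Fin n → ℕ) → ℂ) (hg : DecN g) :
    ∃ c : (Fin n → ℕ) → ℂ, DecN c ∧ ∀ x : Fin n → ℕ,
      ∑ m ∈ P.support, (starRingEnd ℂ) (P.coeff m) *
        ((fac (fun i => x i + m i) : ℂ) * mulc P c (fun i => x i + m i)) =
      (fac x : ℂ) * g x := by
  classical
  obtain ⟨B, K, L, h1, h2, h3, h4⟩ := lines α β hα hβ hd
  have hαβ : α ≠ β := by
    intro h
    apply hα
    ext i
    rcases hd i with h5 | h5
    · exact h5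
    · rw [h]; exact h5
  obtain ⟨gm, hgmdef⟩ : ∃ gm : (Fin n → ℕ) → ℕ → (Fin n → ℕ),
      gm = fun x k i => x i + k * β i - k * α i := ⟨_, rfl⟩
  obtain ⟨vv, hvvdef⟩ : ∃ vv : (Fin n → ℕ) → ℕ → (Fin n → ℕ),
      vv = fun x t i => x i + s i + N * α i + t * β i - t * α i := ⟨_, rfl⟩
  have gmi : ∀ x k i, gm x k i = x i + k * β i - k * α i := by
    intro x k i; rw [hgmdef]
  have vvi : ∀ x t i, vv x t i = x i + s i + N * α i + t * β i - t * α i := by
    intro x k i; rw [hvvdef]
  have facpos : ∀ y : Fin n → ℕ, 0 < fac y :=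
    fun y => Finset.prod_pos (fun i _ => Nat.factorial_pos _)
  have facposR : ∀ y : Fin n → ℕ, (0:ℝ) < (fac y : ℝ) := fun y => by exact_mod_cast facpos y
  have facmono : ∀ y m : Fin n → ℕ, (fac y : ℝ) ≤ (fac (fun i => y i + m i) : ℝ) := by
    intro y m
    have : fac y ≤ fac (fun i => y i + m i) := Finset.prod_le_prod (fun _ _ => Nat.zero_le _)
      (fun i _ => Nat.factorial_le (Nat.le_add_right _ _))
    exact_mod_cast this
  have hgm : ∀ x k, k ≤ L x → ∀ i, gm x k i + k * α i = x i + k * β i := by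
    intro x k hk i
    rw [gmi]
    exact Nat.sub_add_cancel ((h3 x k).mpr hk i)
  have hvv : ∀ x k j, k ≤ L x → j ≤ N →
      vv x (k + j) = fun i => gm x k i + (s i + (N - j) * α i + j * β i) := by
    intro x k j hk hj
    funext i
    have e0 := hgm x k hk i
    have e1 : (k + j) * β i = k * β i + j * β i := by ring
    have e2 : (k + j) * α i = k * α i + j * α i := by ring
    have e3 : N * α i = (N - j) * α i + j * α i := by rw [← Nat.add_mul, Nat.sub_add_cancel hj]
    rw [vvi, e1, e2, e3]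
    omega
  have hvv2 : ∀ x k j, k ≤ L x → j ≤ N → ∀ i,
      vv x (k + j) i + (k + j) * α i = x i + s i + N * α i + (k + j) * β i := by
    intro x k j hk hj i
    have e0 := (h3 x k).mpr hk i
    have e1 : (k + j) * β i = k * β i + j * β i := by ring
    have e2 : (k + j) * α i = k * α i + j * α i := by ring
    have e3 : N * α i = (N - j) * α i + j * α i := by rw [← Nat.add_mul, Nat.sub_add_cancel hj]
    rw [vvi, e1, e2, e3]
    omega
  have hb := fun x => seg_solve N q hN (L x) (fun k => (fac (gm x k) : ℝ))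
    (fun t => (fac (vv x t) : ℝ)) (fun k => facposR _) (fun k => facposR _) (fun k => g (gm x k))
  choose b hb0 hbeq using hb
  have hγ : ∀ γ, gm (B γ) (K γ) = γ := by
    intro γ
    funext i
    have := h1 γ i
    rw [gmi]
    omega
  refine ⟨fun γ => b (B γ) (K γ), ?_, ?_⟩
  · intro ρ0 hρ0
    obtain ⟨C, hC1, hC⟩ := seg_bound N q h0 hN
    obtain ⟨C', hC'1, hC'⟩ := fac_win n (∑ i, (s i + N * α i + N * β i))
    obtain ⟨κ, hκ⟩ : ∃ κ, κ = ∑ i, α i + ∑ i, β i := ⟨_, rfl⟩
    obtain ⟨ρ, hρ⟩ : ∃ ρ, ρ = max ρ0 1 := ⟨_, rfl⟩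
    have hρ1 : 1 ≤ ρ := by rw [hρ]; exact le_max_right _ _
    have hρ01 : ρ0 ≤ ρ := by rw [hρ]; exact le_max_left _ _
    obtain ⟨S, hS⟩ : ∃ S : ℝ, S = ρ * (2 * C * C') ^ κ := ⟨_, rfl⟩
    have hCC : 1 ≤ 2 * C * C' := by nlinarith
    have hC0 : 0 < C := by linarith
    have hC'0 : 0 < C' := by linarith
    have hS1 : 1 ≤ S := by
      rw [hS]
      exact one_le_mul_of_one_le_of_one_le hρ1 (one_le_pow₀ hCC)
    have hS0 : 0 < S := by linarith
    obtain ⟨M, hM⟩ := hg (S ^ κ) (by positivity)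
    have hM0 : 0 ≤ M := le_trans (by positivity) (hM 0)
    refine ⟨C * C' * M, fun γ => ?_⟩
    obtain ⟨hx, hK, hk⟩ := h4 γ
    have hls : ∀ l l', l ≤ L (B γ) → l' ≤ L (B γ) →
        ∑ i, gm (B γ) l i ≤ κ * ∑ i, gm (B γ) l' i := by
      intro l l' hl hl'
      have := nSn_nSn_line_sum α β hα hβ hd (B γ) l l' ((h3 _ l).mpr hl) ((h3 _ l').mpr hl')
      rw [← hκ] at this
      simp only [gmi]
      exact this
    obtain ⟨n0, hn0⟩ : ∃ n0, n0 = κ * ∑ i, γ i := ⟨_, rfl⟩
    have hJ : L (B γ) ≤ n0 := by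
      obtain ⟨i, hi⟩ := DFunLike.ne_iff.mp hα
      have hi' : α i ≠ 0 := hi
      have hbi : β i = 0 := (hd i).resolve_left hi'
      have e := (h3 (B γ) (L (B γ))).mpr le_rfl i
      rw [hbi, mul_zero, add_zero] at e
      have e2 : L (B γ) ≤ L (B γ) * α i := Nat.le_mul_of_pos_right _ (Nat.pos_of_ne_zero hi')
      have e3 : B γ i ≤ ∑ i, B γ i :=
        Finset.single_le_sum (fun _ _ => Nat.zero_le _) (Finset.mem_univ i)
      have e4 := hls 0 (K γ) (Nat.zero_le _) hk
      have e5 : gm (B γ) 0 = B γ := by funext i; rw [gmi]; simp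
      rw [e5, hγ, ← hn0] at e4
      omega
    have hbd := hC (L (B γ)) (fun k => (fac (gm (B γ) k) : ℝ)) (fun t => (fac (vv (B γ) t) : ℝ))
      (C' ^ (n0 + 1)) (one_le_pow₀ hC'1) (fun k => facposR _) (fun k => facposR _) (by
        intro k hk'
        have hv := valley α β (B γ) (L (B γ)) ((h3 _ _).mpr le_rfl) k hk'
        rcases hv with hv | hv
        · left
          intro i hki hiJ
          have := hv i hki hiJ
          rw [hgmdef]
          exact_mod_cast this
        · right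
          intro i hki
          have := hv i hki
          rw [hgmdef]
          exact_mod_cast this) (by
        intro i hi
        constructor
        · have e := hvv (B γ) i 0 hi (Nat.zero_le _)
          rw [add_zero] at e
          show (fac (gm (B γ) i) : ℝ) ≤ (fac (vv (B γ) i) : ℝ)
          rw [e]
          exact facmono _ _
        · have e := hvv (B γ) i N hi le_rfl
          show (fac (gm (B γ) i) : ℝ) ≤ (fac (vv (B γ) (i + N)) : ℝ)
          rw [e]
          exact facmono _ _) (by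
        intro l hl i hli hiN
        obtain ⟨j, rfl⟩ : ∃ j, i = l + j := ⟨i - l, by omega⟩
        have hjN : j ≤ N := by omega
        show (fac (vv (B γ) (l + j)) : ℝ) ≤ C' ^ (n0 + 1) * (fac (gm (B γ) l) : ℝ)
        rw [hvv (B γ) l j hl hjN]
        have e1 := hC' (gm (B γ) l) (fun i => s i + (N - j) * α i + j * β i) (by
          apply Finset.sum_le_sum
          intro i _
          have a1 : (N - j) * α i ≤ N * α i := Nat.mul_le_mul_right _ (Nat.sub_le _ _)
          have a2 : j * β i ≤ N * β i := Nat.mul_le_mul_right _ hjN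
          omega)
        refine e1.trans ?_
        apply mul_le_mul_of_nonneg_right _ (facposR _).le
        apply pow_le_pow_right₀ hC'1
        have e2 := hls l (K γ) hl hk
        rw [hγ, ← hn0] at e2
        omega) (b (B γ)) (fun k => g (gm (B γ) k)) (hb0 (B γ)) (hbeq (B γ)) (K γ) hk
    obtain ⟨G, hG⟩ : ∃ G : ℝ, G = ∑ l ∈ Finset.range (L (B γ) + 1), ‖g (gm (B γ) l)‖ := ⟨_, rfl⟩
    have hG0 : 0 ≤ G := by rw [hG]; exact Finset.sum_nonneg (fun _ _ => norm_nonneg _)
    have hbd' : ‖b (B γ) (K γ)‖ ≤ C ^ (L (B γ) + 1) * C' ^ (n0 + 1) * G := by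
      rw [hG]; exact hbd
    have hS2 : S ^ (∑ i, γ i) = ρ ^ (∑ i, γ i) * (2 * C * C') ^ n0 := by
      rw [hS, mul_pow, ← pow_mul, hn0]
    have hGM : G * S ^ (∑ i, γ i) ≤ ((L (B γ) : ℝ) + 1) * M := by
      rw [hG, Finset.sum_mul]
      have e1 : ∀ l ∈ Finset.range (L (B γ) + 1), ‖g (gm (B γ) l)‖ * S ^ (∑ i, γ i) ≤ M := by
        intro l hl
        have hl' : l ≤ L (B γ) := Nat.lt_succ_iff.mp (Finset.mem_range.mp hl)
        refine le_trans ?_ (hM (gm (B γ) l))
        apply mul_le_mul_of_nonneg_left _ (norm_nonneg _)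
        rw [← pow_mul]
        apply pow_le_pow_right₀ hS1
        have e2 := hls (K γ) l hk hl'
        rw [hγ] at e2
        exact e2
      have e3 := Finset.sum_le_card_nsmul _ _ M e1
      rw [Finset.card_range, nsmul_eq_mul] at e3
      push_cast at e3
      exact e3
    have hL2 : (L (B γ) : ℝ) + 1 ≤ 2 ^ n0 := by
      have e1 : n0 < 2 ^ n0 := Nat.lt_two_pow_self
      have e2 : L (B γ) + 1 ≤ 2 ^ n0 := by omega
      exact_mod_cast e2
    show ‖b (B γ) (K γ)‖ * ρ0 ^ (∑ i, γ i) ≤ C * C' * M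
    have hρp : ρ0 ^ (∑ i, γ i) ≤ ρ ^ (∑ i, γ i) := pow_le_pow_left₀ hρ0.le hρ01 _
    have hρn : 0 ≤ ρ ^ (∑ i, γ i) := by positivity
    have hCp : C ^ (L (B γ) + 1) ≤ C ^ (n0 + 1) := pow_le_pow_right₀ hC1 (by omega)
    have t1 : ‖b (B γ) (K γ)‖ * ρ0 ^ (∑ i, γ i)
        ≤ (C ^ (n0 + 1) * C' ^ (n0 + 1) * G) * ρ ^ (∑ i, γ i) := by
      apply mul_le_mul _ hρp (by positivity) (by positivity)
      refine hbd'.trans ?_
      apply mul_le_mul_of_nonneg_right _ hG0
      exact mul_le_mul_of_nonneg_right hCp (by positivity)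
    have t2 : (2:ℝ) ^ n0 * ((C ^ (n0 + 1) * C' ^ (n0 + 1) * G) * ρ ^ (∑ i, γ i))
        = C * C' * (G * S ^ (∑ i, γ i)) := by
      rw [hS2, mul_pow, mul_pow]
      ring
    have t3 : C * C' * (G * S ^ (∑ i, γ i)) ≤ (2:ℝ) ^ n0 * (C * C' * M) := by
      have e1 : G * S ^ (∑ i, γ i) ≤ 2 ^ n0 * M :=
        hGM.trans (mul_le_mul_of_nonneg_right hL2 hM0)
      calc C * C' * (G * S ^ (∑ i, γ i)) ≤ C * C' * (2 ^ n0 * M) :=
            mul_le_mul_of_nonneg_left e1 (by positivity)
        _ = (2:ℝ) ^ n0 * (C * C' * M) := by ring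
    have h2n : (0:ℝ) < 2 ^ n0 := by positivity
    refine t1.trans ?_
    apply le_of_mul_le_mul_left _ h2n
    rw [t2]
    exact t3
  · intro γ
    obtain ⟨hx, hK, hk⟩ := h4 γ
    refine (sum_line s α β hαβ N q P hP
      (fun δ => (fac δ : ℂ) * mulc P (fun γ => b (B γ) (K γ)) δ) γ).trans ?_
    have hmain := hbeq (B γ) (K γ) hk
    have hmain2 : ∑ j ∈ Finset.range (N + 1), (starRingEnd ℂ) (q j) *
        (((fac (vv (B γ) (K γ + j)) : ℝ) : ℂ) * cv N q (b (B γ)) (K γ + j))
        = ((fac (gm (B γ) (K γ)) : ℝ) : ℂ) * g (gm (B γ) (K γ)) := hmain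
    rw [hγ] at hmain2
    have hcast : (((fac γ : ℕ) : ℝ) : ℂ) = (fac γ : ℂ) := by push_cast; rfl
    rw [hcast] at hmain2
    rw [← hmain2]
    refine Finset.sum_congr rfl (fun j hj => ?_)
    have hjN : j ≤ N := Nat.lt_succ_iff.mp (Finset.mem_range.mp hj)
    have hδ : (fun i => γ i + (s i + (N - j) * α i + j * β i)) = vv (B γ) (K γ + j) := by
      rw [hvv (B γ) (K γ) j hk hjN, hγ]
    have hm := mulc_line s α β hα hβ hd N q P hP B K L h2 h3 b hb0 (B γ) hx hK (K γ + j)
      (vv (B γ) (K γ + j)) (hvv2 (B γ) (K γ) j hk hjN)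
    show (starRingEnd ℂ) (q j) * ((fac (fun i => γ i + (s i + (N - j) * α i + j * β i)) : ℂ)
      * mulc P (fun γ => b (B γ) (K γ)) (fun i => γ i + (s i + (N - j) * α i + j * β i))) = _
    rw [hδ, hm]
    push_cast
    rfl

/-! ### nQh -/

theorem line_qh {n : ℕ} (s α β : Fin n →₀ ℕ) (hα : α ≠ 0) (hβ : β ≠ 0)
    (hd : ∀ i, α i = 0 ∨ β i = 0) (N : ℕ) (q : ℕ → ℂ) (P : MvPolynomial (Fin n) ℂ)
    (hP : P = ∑ j ∈ Finset.range (N + 1),
      MvPolynomial.monomial (s + (N - j) • α + j • β) (q j)) :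
    ∃ (w : Fin n → ℕ) (p : ℕ), (∀ i, 0 < w i) ∧ MvPolynomial.IsWeightedHomogeneous w P p := by
  obtain ⟨a, ha⟩ : ∃ a, a = ∑ i, α i := ⟨_, rfl⟩
  obtain ⟨b, hb⟩ : ∃ b, b = ∑ i, β i := ⟨_, rfl⟩
  have hapos : 0 < a := by
    obtain ⟨i, hi⟩ := Finsupp.ne_iff.mp hα
    rw [ha]
    exact Finset.sum_pos' (fun _ _ => Nat.zero_le _)
      ⟨i, Finset.mem_univ i, Nat.pos_of_ne_zero (by simpa using hi)⟩
  have hbpos : 0 < b := by
    obtain ⟨i, hi⟩ := Finsupp.ne_iff.mp hβ
    rw [hb]
    exact Finset.sum_pos' (fun _ _ => Nat.zero_le _)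
      ⟨i, Finset.mem_univ i, Nat.pos_of_ne_zero (by simpa using hi)⟩
  obtain ⟨w, hw⟩ : ∃ w : Fin n → ℕ, w = fun i => if α i ≠ 0 then b else if β i ≠ 0 then a else 1 :=
    ⟨_, rfl⟩
  have hwα : Finsupp.weight w α = a * b := by
    rw [Finsupp.weight_apply, Finsupp.sum_fintype _ _ (by simp), ha, Finset.sum_mul]
    refine Finset.sum_congr rfl (fun i _ => ?_)
    by_cases h0 : α i = 0
    · simp [h0]
    · simp [hw, h0]
  have hwβ : Finsupp.weight w β = a * b := by
    rw [Finsupp.weight_apply, Finsupp.sum_fintype _ _ (by simp), hb, Finset.mul_sum]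
    refine Finset.sum_congr rfl (fun i _ => ?_)
    by_cases h0 : β i = 0
    · simp [h0]
    · have h1 : α i = 0 := by
        rcases hd i with h | h
        · exact h
        · exact absurd h h0
      simp [hw, h0, h1, mul_comm]
  refine ⟨w, Finsupp.weight w s + N * (a * b), ?_, ?_⟩
  · intro i
    rw [hw]
    dsimp only
    split_ifs
    · exact hbpos
    · exact hapos
    · exact Nat.one_pos
  · rw [hP, ← MvPolynomial.mem_weightedHomogeneousSubmodule]
    refine Submodule.sum_mem _ (fun j hj => ?_)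
    rw [MvPolynomial.mem_weightedHomogeneousSubmodule]
    apply MvPolynomial.isWeightedHomogeneous_monomial
    rw [map_add, map_add, map_nsmul, map_nsmul, hwα, hwβ]
    have hjN : j ≤ N := by
      rw [Finset.mem_range] at hj
      omega
    rw [smul_eq_mul, smul_eq_mul, add_assoc, ← add_mul, Nat.sub_add_cancel hjN]

/-! ### nTs -/

theorem tp_surj_seg {n : ℕ} (s α β : Fin n →₀ ℕ) (hα : α ≠ 0) (hβ : β ≠ 0)
    (hd : ∀ i, α i = 0 ∨ β i = 0) (N : ℕ) (q : ℕ → ℂ) (P : MvPolynomial (Fin n) ℂ)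
    (hP : P = ∑ j ∈ Finset.range (N + 1),
      MvPolynomial.monomial (s + (N - j) • α + j • β) (q j)) (hP0 : P ≠ 0)
    (g : (Fin n → ℂ) → ℂ) (hg : Differentiable ℂ g) :
    ∃ f : (Fin n → ℂ) → ℂ, Differentiable ℂ f ∧ Tmap P f = g := by
  classical
  obtain ⟨N', s', q', h0, hN, hP'⟩ : ∃ (N' : ℕ) (s' : Fin n →₀ ℕ) (q' : ℕ → ℂ), q' 0 ≠ 0 ∧ q' N' ≠ 0 ∧
      P = ∑ j ∈ Finset.range (N' + 1),
        MvPolynomial.monomial (s' + (N' - j) • α + j • β) (q' j) := by
    have hne : ((Finset.range (N + 1)).filter (fun j => q j ≠ 0)).Nonempty := by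
      by_contra hn
      rw [Finset.not_nonempty_iff_eq_empty] at hn
      apply hP0
      rw [hP]
      apply Finset.sum_eq_zero
      intro j hj
      have : q j = 0 := by
        by_contra hq
        have : j ∈ ((Finset.range (N + 1)).filter (fun j => q j ≠ 0)) :=
          Finset.mem_filter.2 ⟨hj, hq⟩
        rw [hn] at this
        exact absurd this (Finset.notMem_empty _)
      rw [this, map_zero]
    obtain ⟨j0, hj0, hmin⟩ := Finset.exists_min_image _ (fun j => j) hne
    obtain ⟨j1, hj1, hmax⟩ := Finset.exists_max_image _ (fun j => j) hne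
    rw [Finset.mem_filter, Finset.mem_range] at hj0 hj1
    have h01 : j0 ≤ j1 := hmin j1 (Finset.mem_filter.2 ⟨Finset.mem_range.2 hj1.1, hj1.2⟩)
    refine ⟨j1 - j0, s + (N - j1) • α + j0 • β, fun j => q (j0 + j), by simpa using hj0.2, ?_, ?_⟩
    · change q (j0 + (j1 - j0)) ≠ 0
      rw [Nat.add_sub_cancel' h01]; exact hj1.2
    · rw [hP]
      have e1 : ∑ j ∈ Finset.range (N + 1),
          MvPolynomial.monomial (s + (N - j) • α + j • β) (q j)
          = ∑ j ∈ Finset.Ico j0 (j1 + 1),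
          MvPolynomial.monomial (s + (N - j) • α + j • β) (q j) := by
        symm
        apply Finset.sum_subset
        · intro j hj
          rw [Finset.mem_Ico] at hj
          rw [Finset.mem_range]
          omega
        · intro j hj hj'
          have : q j = 0 := by
            by_contra hq
            have hm : j ∈ ((Finset.range (N + 1)).filter (fun j => q j ≠ 0)) :=
              Finset.mem_filter.2 ⟨hj, hq⟩
            have h1 := hmin j hm
            have h2 := hmax j hm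
            apply hj'
            rw [Finset.mem_Ico]
            omega
          rw [this, map_zero]
      rw [e1, Finset.sum_Ico_eq_sum_range]
      have e2 : j1 + 1 - j0 = j1 - j0 + 1 := by omega
      rw [e2]
      apply Finset.sum_congr rfl
      intro j hj
      rw [Finset.mem_range] at hj
      congr 1
      have e3 : N - (j0 + j) = (N - j1) + (j1 - j0 - j) := by omega
      rw [e3, add_smul, add_smul]
      congr 1
      abel
  obtain ⟨cg, hcg, hser⟩ := taylor g hg
  have hdec : DecN cg := by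
    intro ρ hρ
    obtain ⟨M, hM⟩ := (isCompact_closedBall (0 : Fin n → ℂ) ρ).exists_bound_of_continuousOn
      hg.continuous.continuousOn
    exact ⟨M, hcg ρ M hρ (fun z hz => hM z (by simpa using hz))⟩
  obtain ⟨c, hc, hid⟩ := seg_surjN s' α β hα hβ hd N' q' h0 hN P hP' cg hdec
  obtain ⟨f, hf⟩ := ser_of_dec c hc
  refine ⟨f, ser_diff c f hf, ?_⟩
  funext z
  have h1 := tp_ser P c f hf z
  have h2 := hser z
  have h3 : (fun β : Fin n → ℕ => (∑ m ∈ P.support, (starRingEnd ℂ) (P.coeff m) *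
      ((fac (fun i => β i + m i) : ℂ) / (fac β : ℂ) * mulc P c (fun i => β i + m i))) *
        ∏ i, z i ^ β i) = fun β => cg β * ∏ i, z i ^ β i := by
    funext β
    congr 1
    have hfac : (fac β : ℂ) ≠ 0 := by
      unfold fac
      exact_mod_cast (Finset.prod_pos (fun i _ => Nat.factorial_pos (β i))).ne'
    have := hid β
    have e : ∑ m ∈ P.support, (starRingEnd ℂ) (P.coeff m) *
      ((fac (fun i => β i + m i) : ℂ) / (fac β : ℂ) * mulc P c (fun i => β i + m i))
      = (∑ m ∈ P.support, (starRingEnd ℂ) (P.coeff m) *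
        ((fac (fun i => β i + m i) : ℂ) * mulc P c (fun i => β i + m i))) / (fac β : ℂ) := by
      rw [Finset.sum_div]
      apply Finset.sum_congr rfl
      intro m _
      ring
    rw [e, this, mul_div_cancel_left₀ _ hfac]
  have h4 : HasSum (fun β : Fin n → ℕ => cg β * ∏ i, z i ^ β i) (Tmap P f z) := by
    rw [← h3]; exact h1
  exact h4.unique h2

/-! ### nSm -/

theorem nSm_mono_s_gen {n : ℕ} (s a : Fin n →₀ ℕ) (ha : a ≠ 0) (N : ℕ) (q : ℕ → ℂ)
    (P : MvPolynomial (Fin n) ℂ)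
    (hP : P = ∑ j ∈ Finset.range (N + 1), MvPolynomial.monomial (s + j • a) (q j))
    (Φ : (Fin n →₀ ℕ) → ℂ → ℂ) (hΦ : ∀ m, Φ m 0 = 0) :
    ∑ m ∈ P.support, Φ m (P.coeff m) =
      ∑ j ∈ Finset.range (N + 1), Φ (s + j • a) (q j) := by
  classical
  have hinj : Function.Injective (fun j : ℕ => s + j • a) := by
    intro j j' h
    have h1 : j • a = j' • a := add_left_cancel h
    obtain ⟨i, hi⟩ : ∃ i, a i ≠ 0 := by
      by_contra hcon
      push Not at hcon
      exact ha (Finsupp.ext hcon)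
    have h2 := DFunLike.congr_fun h1 i
    rw [Finsupp.smul_apply, Finsupp.smul_apply, smul_eq_mul, smul_eq_mul] at h2
    exact Nat.eq_of_mul_eq_mul_right (Nat.pos_of_ne_zero hi) h2
  have hcoeff : ∀ m, P.coeff m =
      ∑ j ∈ Finset.range (N + 1), if s + j • a = m then q j else 0 := by
    intro m
    rw [hP, MvPolynomial.coeff_sum]
    apply Finset.sum_congr rfl
    intro j _
    rw [MvPolynomial.coeff_monomial]
  have hc1 : ∀ j ∈ Finset.range (N + 1), P.coeff (s + j • a) = q j := by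
    intro j hj
    rw [hcoeff]
    have h1 : ∀ j' ∈ Finset.range (N + 1), (if s + j' • a = s + j • a then q j' else 0) =
        if j' = j then q j' else 0 := by
      intro j' _
      by_cases h : j' = j
      · rw [if_pos h, if_pos (by rw [h])]
      · rw [if_neg h, if_neg (fun h' => h (hinj h'))]
    rw [Finset.sum_congr rfl h1, Finset.sum_ite_eq', if_pos hj]
  have hc0 : ∀ m, m ∉ (Finset.range (N + 1)).image (fun j : ℕ => s + j • a) →
      P.coeff m = 0 := by
    intro m hm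
    rw [hcoeff]
    apply Finset.sum_eq_zero
    intro j hj
    rw [if_neg]
    intro h
    exact hm (Finset.mem_image.2 ⟨j, hj, h⟩)
  have hsub : P.support ⊆ (Finset.range (N + 1)).image (fun j : ℕ => s + j • a) := by
    intro m hm
    by_contra hcon
    exact (MvPolynomial.mem_support_iff.1 hm) (hc0 m hcon)
  rw [Finset.sum_subset hsub, Finset.sum_image (fun x _ y _ h => hinj h)]
  · apply Finset.sum_congr rfl
    intro j hj
    rw [hc1 j hj]
  · intro m _ hm
    rw [MvPolynomial.notMem_support_iff.1 hm, hΦ]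

theorem sum_mono_s {n : ℕ} (s a : Fin n →₀ ℕ) (ha : a ≠ 0) (N : ℕ) (q : ℕ → ℂ)
    (P : MvPolynomial (Fin n) ℂ)
    (hP : P = ∑ j ∈ Finset.range (N + 1), MvPolynomial.monomial (s + j • a) (q j))
    (F : (Fin n → ℕ) → ℂ) (β : Fin n → ℕ) :
    ∑ m ∈ P.support, (starRingEnd ℂ) (P.coeff m) * F (fun i => β i + m i) =
      ∑ j ∈ Finset.range (N + 1), (starRingEnd ℂ) (q j) *
        F (fun i => β i + (s i + j * a i)) := by
  have h1 := nSm_mono_s_gen s a ha N q P hP
    (fun m x => (starRingEnd ℂ) x * F (fun i => β i + m i)) (fun m => by simp)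
  rw [h1]
  apply Finset.sum_congr rfl
  intro j _
  simp only [Finsupp.add_apply, Finsupp.smul_apply, smul_eq_mul]

theorem mulc_mono_s {n : ℕ} (s a : Fin n →₀ ℕ) (ha : a ≠ 0) (N : ℕ) (q : ℕ → ℂ)
    (P : MvPolynomial (Fin n) ℂ)
    (hP : P = ∑ j ∈ Finset.range (N + 1), MvPolynomial.monomial (s + j • a) (q j))
    (c : (Fin n → ℕ) → ℂ) (γ : Fin n → ℕ) :
    mulc P c γ = ∑ j ∈ Finset.range (N + 1),
      if ∀ i, s i + j * a i ≤ γ i then q j * c (fun i => γ i - (s i + j * a i)) else 0 := by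
  unfold mulc
  have h1 := nSm_mono_s_gen s a ha N q P hP
    (fun m x => if ∀ i, m i ≤ γ i then x * c (fun i => γ i - m i) else 0)
    (fun m => by split_ifs <;> simp)
  rw [h1]
  apply Finset.sum_congr rfl
  intro j _
  have hv : ∀ i, (s + j • a) i = s i + j * a i := fun i => by
    simp only [Finsupp.add_apply, Finsupp.smul_apply, smul_eq_mul]
  by_cases h : ∀ i, (s + j • a) i ≤ γ i
  · rw [if_pos h, if_pos (fun i => by rw [← hv i]; exact h i)]
    simp only [hv]
  · rw [if_neg h, if_neg (fun h' => h (fun i => by rw [hv i]; exact h' i))]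

/-! ### nPm -/

theorem pos_mono_s {n : ℕ} (s a : Fin n →₀ ℕ) (ha : a ≠ 0) (N : ℕ) (q : ℕ → ℂ) (hq : q N ≠ 0)
    (P : MvPolynomial (Fin n) ℂ)
    (hP : P = ∑ j ∈ Finset.range (N + 1), MvPolynomial.monomial (s + j • a) (q j))
    (c : (Fin n → ℕ) → ℂ) (hc : DecN c)
    (h : ∀ β : Fin n → ℕ, ∑ m ∈ P.support, (starRingEnd ℂ) (P.coeff m) *
      ((fac (fun i => β i + m i) : ℂ) * mulc P c (fun i => β i + m i)) = 0)
    (γ : Fin n → ℕ) : mulc P c γ = 0 := by
  by_cases hs : ∀ i, s i ≤ γ i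
  swap
  · rw [mulc_mono_s s a ha N q P hP c γ]
    refine Finset.sum_eq_zero fun j _ => ?_
    rw [if_neg]
    intro h1
    exact hs fun i => le_trans (Nat.le_add_right _ _) (h1 i)
  obtain ⟨B, K, h1, h2, h3, h4⟩ := rays a ha
  obtain ⟨γ', hγ'⟩ : ∃ γ' : Fin n → ℕ, γ' = fun i => γ i - s i := ⟨_, rfl⟩
  obtain ⟨β, hβ⟩ : ∃ β, β = B γ' := ⟨_, rfl⟩
  have hKβ : K β = 0 := by rw [hβ]; exact (h4 γ').2
  have hF1 : ∀ k j, (∀ i, j * a i ≤ β i + k * a i) ↔ j ≤ k := by
    intro k j
    have e1 := h2 (fun i => β i + k * a i) j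
    rw [(h3 β k).2, hKβ, zero_add] at e1
    exact e1
  have hF2 : ∀ k, mulc P c (fun i => s i + β i + k * a i) =
      ∑ i ∈ Finset.range (N + 1), if i ≤ k then q i * c (fun l => β l + (k - i) * a l) else 0 := by
    intro k
    rw [mulc_mono_s s a ha N q P hP c]
    refine Finset.sum_congr rfl fun j _ => ?_
    by_cases hj : j ≤ k
    · have hj' := (hF1 k j).2 hj
      rw [if_pos hj, if_pos (fun i => by have := hj' i; omega)]
      congr 2
      funext l
      have e1 : (k - j) * a l = k * a l - j * a l := Nat.sub_mul _ _ _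
      have e2 : j * a l ≤ k * a l := Nat.mul_le_mul_right _ hj
      rw [e1]
      omega
    · rw [if_neg hj, if_neg]
      intro hcon
      apply hj
      apply (hF1 k j).1
      intro i
      have := hcon i
      omega
  have hpos : ∀ k, 0 < ((fac (fun i => s i + β i + k * a i) : ℕ) : ℝ) := by
    intro k
    have : 0 < fac (fun i => s i + β i + k * a i) := by
      unfold fac
      exact Finset.prod_pos fun i _ => Nat.factorial_pos _
    exact_mod_cast this
  have hsa : 1 ≤ ∑ i, a i := by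
    obtain ⟨i, hi⟩ := Finsupp.ne_iff.1 ha
    have hi' : a i ≠ 0 := by simpa using hi
    calc 1 ≤ a i := Nat.one_le_iff_ne_zero.2 hi'
      _ ≤ ∑ i, a i := Finset.single_le_sum (f := fun i => a i) (fun _ _ => Nat.zero_le _) (Finset.mem_univ i)
  have hb : ∀ ρ : ℝ, 0 < ρ → ∃ M : ℝ, ∀ k, ‖c (fun l => β l + k * a l)‖ * ρ ^ k ≤ M := by
    intro ρ hρ
    obtain ⟨M, hM⟩ := hc (max ρ 1) (lt_max_of_lt_left hρ)
    refine ⟨M, fun k => ?_⟩
    refine le_trans ?_ (hM (fun l => β l + k * a l))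
    refine mul_le_mul_of_nonneg_left ?_ (norm_nonneg _)
    have e1 : k ≤ ∑ i, (β i + k * a i) := by
      rw [Finset.sum_add_distrib, ← Finset.mul_sum]
      calc k = k * 1 := (mul_one k).symm
        _ ≤ k * ∑ i, a i := Nat.mul_le_mul_left _ hsa
        _ ≤ _ := Nat.le_add_left _ _
    calc ρ ^ k ≤ (max ρ 1) ^ k := pow_le_pow_left₀ hρ.le (le_max_left _ _) k
      _ ≤ (max ρ 1) ^ (∑ i, (β i + k * a i)) := pow_le_pow_right₀ (le_max_right _ _) e1
  have hblock := block_zero N q hq (fun k => c (fun l => β l + k * a l))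
    (fun k => ((fac (fun i => s i + β i + k * a i) : ℕ) : ℝ)) hpos hb (fun k => by
      have e1 := h (fun i => β i + k * a i)
      have e2 := sum_mono_s s a ha N q P hP (fun δ => (fac δ : ℂ) * mulc P c δ) (fun i => β i + k * a i)
      rw [e2] at e1
      refine Eq.trans (Finset.sum_congr rfl fun j _ => ?_) e1
      have e3 : (fun i => β i + k * a i + (s i + j * a i)) = fun i => s i + β i + (k + j) * a i := by
        funext i
        ring
      rw [e3, hF2 (k + j)]
      push_cast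
      rfl) (K γ')
  have hγ : γ = fun i => s i + β i + K γ' * a i := by
    funext i
    have e1 := h1 γ' i
    have e2 := hs i
    rw [← hβ] at e1
    have e3 : γ' i = γ i - s i := by rw [hγ']
    omega
  rw [hγ, hF2]
  exact hblock

/-! ### nMs -/

theorem mono_surj_s {n : ℕ} (s a : Fin n →₀ ℕ) (ha : a ≠ 0) (N : ℕ) (q : ℕ → ℂ)
    (hq : q N ≠ 0) (P : MvPolynomial (Fin n) ℂ)
    (hP : P = ∑ j ∈ Finset.range (N + 1), MvPolynomial.monomial (s + j • a) (q j))
    (g : (Fin n → ℕ) → ℂ) (hg : DecN g) :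
    ∃ c : (Fin n → ℕ) → ℂ, DecN c ∧ ∀ β : Fin n → ℕ,
      ∑ m ∈ P.support, (starRingEnd ℂ) (P.coeff m) *
        ((fac (fun i => β i + m i) : ℂ) * mulc P c (fun i => β i + m i)) =
      (fac β : ℂ) * g β := by
  classical
  obtain ⟨B, K, hB1, hB2, hB3, hB4⟩ := rays a ha
  have hs1 : 1 ≤ ∑ i, a i := by
    by_contra h
    have h0 : ∑ i, a i = 0 := by omega
    apply ha
    ext i
    exact Finset.sum_eq_zero_iff.1 h0 i (Finset.mem_univ i)
  have hfac : ∀ γ : Fin n → ℕ, 0 < fac γ := fun γ => Finset.prod_pos fun i _ => Nat.factorial_pos _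
  have hfacmono : ∀ γ : Fin n → ℕ, ∀ k : ℕ, fac (fun i => γ i + k * a i) ≤
      fac (fun i => (γ i + s i) + k * a i) := by
    intro γ k
    unfold fac
    apply Finset.prod_le_prod' 
    intro i _
    exact Nat.factorial_le (show γ i + k * a i ≤ (γ i + s i) + k * a i by omega)
  have hpow : ∀ (S : ℝ) (γ0 : Fin n → ℕ) (k : ℕ), S ^ (∑ i, (γ0 i + k * a i)) =
      S ^ (∑ i, γ0 i) * (S ^ (∑ i, a i)) ^ k := by
    intro S γ0 k
    rw [Finset.sum_add_distrib, ← Finset.mul_sum, pow_add, mul_comm k, pow_mul]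
  have hSle : ∀ S : ℝ, 1 ≤ S → S ≤ S ^ (∑ i, a i) := fun S hS => le_self_pow₀ hS (by omega)
  obtain ⟨g', hg'⟩ : ∃ g' : (Fin n → ℕ) → ℕ → ℂ, ∀ γ0 k, g' γ0 k =
      ((fac (fun i => γ0 i + k * a i) : ℂ) / (fac (fun i => (γ0 i + s i) + k * a i) : ℂ)) *
        g (fun i => γ0 i + k * a i) := ⟨_, fun _ _ => rfl⟩
  have hg'le : ∀ γ0 k, ‖g' γ0 k‖ ≤ ‖g (fun i => γ0 i + k * a i)‖ := by
    intro γ0 k
    rw [hg', norm_mul, norm_div, Complex.norm_natCast, Complex.norm_natCast]
    have h1 : ((fac (fun i => γ0 i + k * a i) : ℝ) / (fac (fun i => (γ0 i + s i) + k * a i) : ℝ)) ≤ 1 := by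
      rw [div_le_one (by exact_mod_cast hfac _)]
      exact_mod_cast hfacmono γ0 k
    calc _ ≤ 1 * ‖g (fun i => γ0 i + k * a i)‖ := mul_le_mul_of_nonneg_right h1 (norm_nonneg _)
      _ = _ := one_mul _
  have hgb : ∀ (S σ R M : ℝ), 1 ≤ σ → σ ≤ S → 0 ≤ R → R ≤ S ^ (∑ i, a i) →
      (∀ α, ‖g α‖ * S ^ (∑ i, α i) ≤ M) → ∀ (γ0 : Fin n → ℕ) (k : ℕ),
      ‖g' γ0 k‖ * R ^ k ≤ M / σ ^ (∑ i, γ0 i) := by
    intro S σ R M h1 h2 h3 h4 h5 γ0 k
    have hσ0 : 0 < σ := by linarith
    rw [le_div_iff₀ (by positivity)]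
    refine le_trans ?_ (h5 (fun i => γ0 i + k * a i))
    rw [hpow S γ0 k, mul_assoc, mul_comm (R ^ k)]
    have hS0 : 0 < S := by linarith
    have := hg'le γ0 k
    gcongr
  have hray : ∀ γ0 : Fin n → ℕ, Dec (g' γ0) := by
    intro γ0 ρ hρ
    obtain ⟨M, hM⟩ := hg (max ρ 1) (lt_of_lt_of_le hρ (le_max_left _ _))
    exact ⟨_, hgb (max ρ 1) 1 ρ M le_rfl (le_max_right _ _) hρ.le
      ((le_max_left _ _).trans (hSle _ (le_max_right _ _))) hM γ0⟩
  have hex := fun γ0 : Fin n → ℕ => ray_surj N q hq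
    (fun k => ((fac (fun i => (γ0 i + s i) + k * a i) : ℕ) : ℝ)) (fun k => by exact_mod_cast hfac _)
    (fun k l h => fac_ray a ha (fun i => γ0 i + s i) k l h) (g' γ0) (hray γ0)
  choose b hbDec hbeq using hex
  refine ⟨fun α => b (B α) (K α), ?_, ?_⟩
  · intro ρ hρ
    obtain ⟨ρ₀, C, hρ₀, hC, hap⟩ := apriori N q hq
    set σ := max ρ ρ₀ with hσ
    have hσ1 : 1 ≤ σ := hρ₀.trans (le_max_right _ _)
    have hσ0 : 0 < σ := by linarith
    set τ := σ ^ (∑ i, a i) with hτ
    have hτρ : ρ₀ ≤ τ := (le_max_right _ _).trans (hSle σ hσ1)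
    have hτ0 : 0 < τ := by positivity
    obtain ⟨w₀, hw₀, hapw⟩ := hap τ hτρ
    obtain ⟨M1, hM1⟩ := hg σ hσ0
    have hbd := fun t : Fin n → ℕ => ray_bd N q hq
      (fun k => ((fac (fun i => t i + k * a i) : ℕ) : ℝ)) (fun k => by exact_mod_cast hfac _)
      (fun k l h => fac_ray a ha t k l h) τ hτ0
    choose R D hR hD hRD using hbd
    have hM' : ∀ t, ∃ M : ℝ, ∀ α, ‖g α‖ * (max σ (R t)) ^ (∑ i, α i) ≤ M :=
      fun t => hg _ (lt_of_lt_of_le hσ0 (le_max_left _ _))
    choose M' hM' using hM'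
    have hM'0 : ∀ t, 0 ≤ M' t := fun t => le_trans
      (mul_nonneg (norm_nonneg _) (pow_nonneg (hσ0.le.trans (le_max_left _ _)) _)) (hM' t 0)
    have hM10 : 0 ≤ M1 := le_trans (by positivity) (hM1 0)
    set T : Finset (Fin n → ℕ) := Fintype.piFinset (fun i => Finset.range (⌈w₀⌉₊ + s i)) with hT
    have hTn : 0 ≤ ∑ t ∈ T, D t * M' t :=
      Finset.sum_nonneg fun t _ => mul_nonneg (hD t) (hM'0 t)
    have hCM : 0 ≤ C * M1 := mul_nonneg hC hM10
    have key : ∀ γ0 k, ‖b γ0 k‖ * τ ^ k * σ ^ (∑ i, γ0 i) ≤ C * M1 + ∑ t ∈ T, D t * M' t := by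
      intro γ0 k
      have hσp : 0 < σ ^ (∑ i, γ0 i) := by positivity
      by_cases hcase : ∃ i, 0 < a i ∧ w₀ ≤ (γ0 i : ℝ) + 1
      · obtain ⟨i, hi, hwi⟩ := hcase
        have hstep : ∀ k, w₀ * (fun k => ((fac (fun i => (γ0 i + s i) + k * a i) : ℕ) : ℝ)) k ≤
            (fun k => ((fac (fun i => (γ0 i + s i) + k * a i) : ℕ) : ℝ)) (k + 1) := by
          intro k
          refine le_trans ?_ (fac_step2 a (fun i => γ0 i + s i) k i hi)
          refine mul_le_mul_of_nonneg_right ?_ (Nat.cast_nonneg _)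
          push_cast
          have : (0:ℝ) ≤ (s i : ℝ) := Nat.cast_nonneg _
          linarith
        have h1 := hapw (fun k => ((fac (fun i => (γ0 i + s i) + k * a i) : ℕ) : ℝ))
          (fun k => by exact_mod_cast hfac _) hstep (b γ0)
          (g' γ0) (hbDec γ0) (hbeq γ0) (M1 / σ ^ (∑ i, γ0 i))
          (hgb σ σ τ M1 hσ1 le_rfl hτ0.le le_rfl hM1 γ0) k
        rw [mul_div_assoc', le_div_iff₀ hσp] at h1
        linarith
      · have hcase' : ∀ i, 0 < a i → (γ0 i : ℝ) + 1 < w₀ := by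
          intro i hi
          by_contra h
          exact hcase ⟨i, hi, not_lt.1 h⟩
        set t : Fin n → ℕ := fun i => if a i = 0 then 0 else γ0 i + s i with ht
        have htT : t ∈ T := by
          rw [hT, Fintype.mem_piFinset]
          intro i
          rw [Finset.mem_range, ht]
          simp only
          split_ifs with h
          · have : 0 < ⌈w₀⌉₊ := Nat.ceil_pos.2 (by linarith)
            omega
          · have h1 := hcase' i (Nat.pos_of_ne_zero h)
            have h2 : (γ0 i : ℝ) < w₀ := by linarith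
            have := Nat.lt_ceil.2 h2
            omega
        have hA : ((fac (fun i => if a i = 0 then γ0 i + s i else 0) : ℕ) : ℂ) ≠ 0 := by
          exact_mod_cast (hfac _).ne'
        have hsp : ∀ k, (((fac (fun i => (γ0 i + s i) + k * a i) : ℕ) : ℝ) : ℂ) =
            ((fac (fun i => if a i = 0 then γ0 i + s i else 0) : ℕ) : ℂ) *
              (((fac (fun i => t i + k * a i) : ℕ) : ℝ) : ℂ) := by
          intro k
          rw [fac_split a (fun i => γ0 i + s i) k]
          push_cast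
          rfl
        have h1 := hRD t (b γ0) (g' γ0) (hbDec γ0) (hray γ0)
          (fun k => by
            apply mul_left_cancel₀ hA
            have e := hbeq γ0 k
            simp only [hsp] at e
            rw [Finset.mul_sum, ← mul_assoc, ← e]
            exact Finset.sum_congr rfl fun j _ => by ring)
          (M' t / σ ^ (∑ i, γ0 i))
          (hgb (max σ (R t)) σ (R t) (M' t) hσ1 (le_max_left _ _) (hR t).le
            ((le_max_right _ _).trans (hSle _ (hσ1.trans (le_max_left _ _)))) (hM' t) γ0) k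
        rw [mul_div_assoc', le_div_iff₀ hσp] at h1
        have h2 : D t * M' t ≤ ∑ t ∈ T, D t * M' t :=
          Finset.single_le_sum (f := fun t => D t * M' t)
            (fun t _ => mul_nonneg (hD t) (hM'0 t)) htT
        linarith
    refine ⟨C * M1 + ∑ t ∈ T, D t * M' t, fun α => ?_⟩
    refine le_trans ?_ (key (B α) (K α))
    have h1 : ρ ^ (∑ i, α i) ≤ σ ^ (∑ i, α i) := pow_le_pow_left₀ hρ.le (le_max_left _ _) _
    have h2 : ∑ i, α i = ∑ i, (B α i + K α * a i) := Finset.sum_congr rfl fun i _ => hB1 α i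
    have h3 : σ ^ (∑ i, α i) = σ ^ (∑ i, B α i) * τ ^ (K α) := by rw [h2, hpow]
    calc ‖b (B α) (K α)‖ * ρ ^ (∑ i, α i) ≤ ‖b (B α) (K α)‖ * σ ^ (∑ i, α i) :=
          mul_le_mul_of_nonneg_left h1 (norm_nonneg _)
      _ = ‖b (B α) (K α)‖ * τ ^ (K α) * σ ^ (∑ i, B α i) := by rw [h3]; ring
  · intro β
    have h1 := sum_mono_s s a ha N q P hP
      (fun δ => (fac δ : ℂ) * mulc P (fun α => b (B α) (K α)) δ) β
    refine h1.trans ?_
    have h2 := hbeq (B β) (K β)
    have hβ : (fun i => B β i + K β * a i) = β := funext fun i => (hB1 β i).symm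
    have h3 : (((fac (fun i => (B β i + s i) + K β * a i) : ℕ) : ℝ) : ℂ) * g' (B β) (K β) =
        (fac β : ℂ) * g β := by
      rw [hg', hβ]
      have h0 : (fac (fun i => (B β i + s i) + K β * a i) : ℂ) ≠ 0 := by
        exact_mod_cast (hfac _).ne'
      push_cast
      field_simp
    rw [← h3, ← h2]
    refine Finset.sum_congr rfl fun j _ => ?_
    congr 1
    have h4 : (fun i => β i + (s i + j * a i)) = (fun i => (B β i + s i) + (K β + j) * a i) := by
      funext i
      have := hB1 β i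
      rw [add_mul]
      omega
    have h5 : mulc P (fun α => b (B α) (K α)) (fun i => β i + (s i + j * a i)) =
        cv N q (b (B β)) (K β + j) := by
      rw [mulc_mono_s s a ha N q P hP]
      unfold cv
      refine Finset.sum_congr rfl fun l _ => ?_
      have hcond : (∀ i, s i + l * a i ≤ β i + (s i + j * a i)) ↔ l ≤ K β + j := by
        rw [← (hB3 β j).2, ← hB2]
        constructor
        · intro h i
          have := h i
          omega
        · intro h i
          have := h i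
          omega
      by_cases hl : l ≤ K β + j
      · rw [if_pos (hcond.2 hl), if_pos hl]
        have hcl := hcond.2 hl
        have e1 := hB3 (fun i => β i + (s i + j * a i) - (s i + l * a i)) l
        have e2 : (fun i => (β i + (s i + j * a i) - (s i + l * a i)) + l * a i) =
            (fun i => β i + j * a i) := by
          funext i
          have := hcl i
          omega
        rw [e2, (hB3 β j).1, (hB3 β j).2] at e1
        have e3 : K (fun i => β i + (s i + j * a i) - (s i + l * a i)) = K β + j - l := by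
          have := e1.2
          omega
        rw [← e1.1, e3]
      · rw [if_neg (fun h => hl (hcond.1 h)), if_neg hl]
    rw [h5, h4]
    push_cast
    rfl

/-! ### nBs -/

theorem bij_s {n : ℕ} (s a : Fin n →₀ ℕ) (ha : a ≠ 0) (N : ℕ) (q : ℕ → ℂ)
    (P : MvPolynomial (Fin n) ℂ)
    (hP : P = ∑ j ∈ Finset.range (N + 1), MvPolynomial.monomial (s + j • a) (q j))
    (hP0 : P ≠ 0) :
    (∀ f : (Fin n → ℂ) → ℂ, Differentiable ℂ f → (∀ z, Tmap P f z = 0) → ∀ z, f z = 0) ∧
    ∀ g : (Fin n → ℂ) → ℂ, Differentiable ℂ g →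
      ∃ f : (Fin n → ℂ) → ℂ, Differentiable ℂ f ∧ Tmap P f = g := by
  classical
  obtain ⟨N', hN', hqN', hsum⟩ : ∃ N' : ℕ, N' ≤ N ∧ q N' ≠ 0 ∧
      P = ∑ j ∈ Finset.range (N' + 1), MvPolynomial.monomial (s + j • a) (q j) := by
    have hex : ∃ j, j ≤ N ∧ q j ≠ 0 := by
      by_contra hcon
      push Not at hcon
      apply hP0
      rw [hP]
      apply Finset.sum_eq_zero
      intro j hj
      have hj' : j ≤ N := Nat.lt_succ_iff.mp (Finset.mem_range.mp hj)
      rw [hcon j hj', MvPolynomial.monomial_zero]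
    obtain ⟨j, hjN, hj⟩ := hex
    refine ⟨Nat.findGreatest (fun j => q j ≠ 0) N, Nat.findGreatest_le N,
      Nat.findGreatest_spec (P := fun j => q j ≠ 0) hjN hj, ?_⟩
    rw [hP]
    symm
    apply Finset.sum_subset
    · intro i hi
      have h1 := Finset.mem_range.mp hi
      have h2 : Nat.findGreatest (fun j => q j ≠ 0) N ≤ N := Nat.findGreatest_le N
      exact Finset.mem_range.mpr (by omega)
    · intro i hi hi'
      have h1 := Finset.mem_range.mp hi
      have h2 : ¬ i < Nat.findGreatest (fun j => q j ≠ 0) N + 1 :=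
        fun h => hi' (Finset.mem_range.mpr h)
      have h3 : ¬ (q i ≠ 0) :=
        Nat.findGreatest_is_greatest (P := fun j => q j ≠ 0) (n := N) (by omega) (by omega)
      have h4 : q i = 0 := not_not.mp h3
      rw [h4, MvPolynomial.monomial_zero]
  have hdec : ∀ (f : (Fin n → ℂ) → ℂ), Differentiable ℂ f → ∀ c : (Fin n → ℕ) → ℂ,
      (∀ ρ M : ℝ, 0 < ρ → (∀ z, ‖z‖ ≤ ρ → ‖f z‖ ≤ M) → ∀ α, ‖c α‖ * ρ ^ (∑ i, α i) ≤ M) →
      DecN c := by
    intro f hf c hc ρ hρ
    obtain ⟨M, hM⟩ := (isCompact_closedBall (0 : Fin n → ℂ) ρ).exists_bound_of_continuousOn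
      (f := f) hf.continuous.continuousOn
    refine ⟨M, fun α => hc ρ M hρ (fun z hz => hM z ?_) α⟩
    rw [mem_closedBall_zero_iff]
    exact hz
  constructor
  · intro f hf h0
    obtain ⟨c, hc, hser⟩ := taylor f hf
    exact mulc_zero P hP0 c f hser (fun γ => pos_mono_s s a ha N' q hqN' P hsum c
      (hdec f hf c hc) (fun β => tp_coef P c f hser h0 β) γ)
  · intro g hg
    obtain ⟨cg, hcg, hserg⟩ := taylor g hg
    obtain ⟨c, hcD, hc⟩ := mono_surj_s s a ha N' q hqN' P hsum cg (hdec g hg cg hcg)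
    obtain ⟨f, hf⟩ := ser_of_dec c hcD
    refine ⟨f, ser_diff c f hf, ?_⟩
    funext z
    have h1 := tp_ser P c f hf z
    have h2 := hserg z
    have hcoef : ∀ β : Fin n → ℕ, (∑ m ∈ P.support, (starRingEnd ℂ) (P.coeff m) *
      ((fac (fun i => β i + m i) : ℂ) / (fac β : ℂ) * mulc P c (fun i => β i + m i))) = cg β := by
      intro β
      have hfac : (fac β : ℂ) ≠ 0 := by
        unfold fac
        exact_mod_cast Finset.prod_ne_zero_iff.mpr (fun i _ => Nat.factorial_ne_zero (β i))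
      have h3 : (∑ m ∈ P.support, (starRingEnd ℂ) (P.coeff m) *
          ((fac (fun i => β i + m i) : ℂ) / (fac β : ℂ) * mulc P c (fun i => β i + m i))) =
          (∑ m ∈ P.support, (starRingEnd ℂ) (P.coeff m) *
            ((fac (fun i => β i + m i) : ℂ) * mulc P c (fun i => β i + m i))) / (fac β : ℂ) := by
        rw [Finset.sum_div]
        refine Finset.sum_congr rfl (fun m _ => ?_)
        ring
      rw [h3, hc β, mul_div_cancel_left₀ _ hfac]
    have h4 : (fun α : Fin n → ℕ => (∑ m ∈ P.support, (starRingEnd ℂ) (P.coeff m) *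
      ((fac (fun i => α i + m i) : ℂ) / (fac α : ℂ) * mulc P c (fun i => α i + m i))) *
        ∏ i, z i ^ α i) = fun α : Fin n → ℕ => cg α * ∏ i, z i ^ α i := by
      funext α
      rw [hcoef α]
    have h5 : HasSum (fun α : Fin n → ℕ => cg α * ∏ i, z i ^ α i) (Tmap P f z) := by
      rw [← h4]
      exact h1
    exact h5.unique h2

/-! ### nBl -/

theorem bij_line {n : ℕ} (s α β : Fin n →₀ ℕ) (hαβ : α ≠ β) (N : ℕ) (q : ℕ → ℂ)
    (P : MvPolynomial (Fin n) ℂ)
    (hP : P = ∑ j ∈ Finset.range (N + 1),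
      MvPolynomial.monomial (s + (N - j) • α + j • β) (q j)) (hP0 : P ≠ 0) :
    (∀ f : (Fin n → ℂ) → ℂ, Differentiable ℂ f → (∀ z, Tmap P f z = 0) → ∀ z, f z = 0) ∧
    ∀ g : (Fin n → ℂ) → ℂ, Differentiable ℂ g →
      ∃ f : (Fin n → ℂ) → ℂ, Differentiable ℂ f ∧ Tmap P f = g := by
  obtain ⟨δ, hδ⟩ : ∃ δ : Fin n →₀ ℕ, ∀ i, δ i = min (α i) (β i) :=
    ⟨Finsupp.equivFunOnFinite.symm (fun i => min (α i) (β i)), fun i => rfl⟩
  obtain ⟨α', hα'⟩ : ∃ α' : Fin n →₀ ℕ, ∀ i, α' i = α i - δ i :=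
    ⟨Finsupp.equivFunOnFinite.symm (fun i => α i - δ i), fun i => rfl⟩
  obtain ⟨β', hβ'⟩ : ∃ β' : Fin n →₀ ℕ, ∀ i, β' i = β i - δ i :=
    ⟨Finsupp.equivFunOnFinite.symm (fun i => β i - δ i), fun i => rfl⟩
  have hα : ∀ i, α i = α' i + δ i := by
    intro i
    rw [hα', hδ]
    have := min_le_left (α i) (β i)
    omega
  have hβ : ∀ i, β i = β' i + δ i := by
    intro i
    rw [hβ', hδ]
    have := min_le_right (α i) (β i)
    omega
  have hd : ∀ i, α' i = 0 ∨ β' i = 0 := by
    intro i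
    rw [hα', hβ', hδ]
    omega
  have hexp : ∀ j ∈ Finset.range (N + 1), s + (N - j) • α + j • β
      = (s + N • δ) + (N - j) • α' + j • β' := by
    intro j hj
    have hj' : j ≤ N := by
      rw [Finset.mem_range] at hj
      omega
    obtain ⟨k, rfl⟩ := Nat.exists_eq_add_of_le hj'
    apply Finsupp.ext
    intro i
    simp only [Finsupp.add_apply, Finsupp.smul_apply, smul_eq_mul, Nat.add_sub_cancel_left]
    rw [hα i, hβ i]
    ring
  have hP' : P = ∑ j ∈ Finset.range (N + 1),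
      MvPolynomial.monomial ((s + N • δ) + (N - j) • α' + j • β') (q j) := by
    rw [hP]
    apply Finset.sum_congr rfl
    intro j hj
    rw [hexp j hj]
  by_cases hα0 : α' = 0
  · have hβ0 : β' ≠ 0 := by
      intro hβ0
      apply hαβ
      apply Finsupp.ext
      intro i
      rw [hα i, hβ i, hα0, hβ0]
    apply bij_s (s + N • δ) β' hβ0 N q P ?_ hP0
    rw [hP']
    apply Finset.sum_congr rfl
    intro j _
    rw [hα0, smul_zero, add_zero]
  by_cases hβ0 : β' = 0
  · apply bij_s (s + N • δ) α' hα0 N (fun j => q (N - j)) P ?_ hP0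
    rw [hP', ← Finset.sum_range_reflect]
    apply Finset.sum_congr rfl
    intro j hj
    have hj' : j ≤ N := by
      rw [Finset.mem_range] at hj
      omega
    have h1 : N + 1 - 1 - j = N - j := by omega
    have h2 : N - (N - j) = j := by omega
    rw [h1, h2, hβ0, smul_zero, add_zero]
  · refine ⟨?_, ?_⟩
    · intro f hf h0
      obtain ⟨w, p, hw, hwp⟩ := line_qh (s + N • δ) α' β' hα0 hβ0 hd N q P hP'
      exact result_qh P hP0 w hw p hwp f hf h0
    · intro g hg
      exact tp_surj_seg (s + N • δ) α' β' hα0 hβ0 hd N q P hP' hP0 g hg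

/-! ### nQ2 -/

/-- quasi-homogeneous polynomials of two variables have their exponents on a line -/
theorem qh_two (P : MvPolynomial (Fin 2) ℂ) (hP0 : P ≠ 0) (w : Fin 2 → ℕ) (hw : ∀ i, 0 < w i)
    (p : ℕ) (hP : MvPolynomial.IsWeightedHomogeneous w P p) :
    ∃ (s α β : Fin 2 →₀ ℕ) (N : ℕ) (q : ℕ → ℂ), α ≠ β ∧
      P = ∑ j ∈ Finset.range (N + 1),
        MvPolynomial.monomial (s + (N - j) • α + j • β) (q j) := by
  classical
  have hne : P.support.Nonempty := by
    rw [Finset.nonempty_iff_ne_empty]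
    intro h
    exact hP0 (MvPolynomial.support_eq_empty.1 h)
  have hline : ∀ m ∈ P.support, m 0 * w 0 + m 1 * w 1 = p := by
    intro m hm
    have h1 := hP (MvPolynomial.mem_support_iff.1 hm)
    rw [Finsupp.weight_apply, Finsupp.sum_fintype _ _ (fun i => by simp), Fin.sum_univ_two] at h1
    simpa using h1
  obtain ⟨ms, hms, hmin⟩ := Finset.exists_min_image P.support (fun m => m 1) hne
  obtain ⟨g, hg⟩ : ∃ g, g = Nat.gcd (w 0) (w 1) := ⟨_, rfl⟩
  have hgpos : 0 < g := by rw [hg]; exact Nat.gcd_pos_of_pos_left _ (hw 0)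
  obtain ⟨u0, hu0⟩ : g ∣ w 0 := by rw [hg]; exact Nat.gcd_dvd_left _ _
  obtain ⟨u1, hu1⟩ : g ∣ w 1 := by rw [hg]; exact Nat.gcd_dvd_right _ _
  have hu0p : 0 < u0 := by
    rcases Nat.eq_zero_or_pos u0 with h | h
    · exfalso; rw [h, mul_zero] at hu0; exact (hw 0).ne' hu0
    · exact h
  have hu1p : 0 < u1 := by
    rcases Nat.eq_zero_or_pos u1 with h | h
    · exfalso; rw [h, mul_zero] at hu1; exact (hw 1).ne' hu1
    · exact h
  have hcop : Nat.Coprime u0 u1 := by
    have h1 : Nat.gcd (g * u0) (g * u1) = g := by rw [← hu0, ← hu1]; exact hg.symm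
    rw [Nat.gcd_mul_left] at h1
    have h2 : g * Nat.gcd u0 u1 = g * 1 := by rw [h1, mul_one]
    exact Nat.eq_of_mul_eq_mul_left hgpos h2
  obtain ⟨a, ha⟩ : ∃ a, a = ms 0 := ⟨_, rfl⟩
  obtain ⟨b, hb⟩ : ∃ b, b = ms 1 := ⟨_, rfl⟩
  obtain ⟨N, hN⟩ : ∃ N, N = a / u1 := ⟨_, rfl⟩
  have e0 : ∀ j : ℕ, ((Finsupp.single 0 (a % u1) + Finsupp.single 1 b : Fin 2 →₀ ℕ) +
      (N - j) • (Finsupp.single 0 u1 : Fin 2 →₀ ℕ) + j • (Finsupp.single 1 u0 : Fin 2 →₀ ℕ)) 0
      = a % u1 + (N - j) * u1 := by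
    intro j
    simp
  have e1 : ∀ j : ℕ, ((Finsupp.single 0 (a % u1) + Finsupp.single 1 b : Fin 2 →₀ ℕ) +
      (N - j) • (Finsupp.single 0 u1 : Fin 2 →₀ ℕ) + j • (Finsupp.single 1 u0 : Fin 2 →₀ ℕ)) 1
      = b + j * u0 := by
    intro j
    simp
  have hin : ∀ m ∈ P.support, ∃ j ∈ Finset.range (N + 1),
      ((Finsupp.single 0 (a % u1) + Finsupp.single 1 b : Fin 2 →₀ ℕ) +
      (N - j) • (Finsupp.single 0 u1 : Fin 2 →₀ ℕ) + j • (Finsupp.single 1 u0 : Fin 2 →₀ ℕ)) = m := by
    intro m hm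
    have h1 := hline m hm
    have h2 := hline ms hms
    have h3 : b ≤ m 1 := by rw [hb]; exact hmin m hm
    obtain ⟨d, hd⟩ := Nat.exists_eq_add_of_le h3
    have h4 : m 0 * u0 + m 1 * u1 = a * u0 + b * u1 := by
      rw [ha, hb]
      apply Nat.eq_of_mul_eq_mul_left hgpos
      calc g * (m 0 * u0 + m 1 * u1) = m 0 * (g * u0) + m 1 * (g * u1) := by ring
        _ = p := by rw [← hu0, ← hu1]; exact h1
        _ = ms 0 * (g * u0) + ms 1 * (g * u1) := by rw [← hu0, ← hu1]; exact h2.symm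
        _ = g * (ms 0 * u0 + ms 1 * u1) := by ring
    have h5 : m 0 * u0 + d * u1 = a * u0 := by
      rw [hd] at h4
      have : (b + d) * u1 = b * u1 + d * u1 := by ring
      omega
    have h6 : u0 ∣ d * u1 := by
      have h7 : u0 ∣ m 0 * u0 + d * u1 := by rw [h5]; exact Dvd.intro_left _ rfl
      exact (Nat.dvd_add_right (Dvd.intro_left _ rfl)).1 h7
    obtain ⟨j, hj⟩ := hcop.dvd_of_dvd_mul_right h6
    have h8 : m 0 + j * u1 = a := by
      apply Nat.eq_of_mul_eq_mul_right hu0p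
      rw [← h5, hj]; ring
    have h9 : j ≤ N := by
      rw [hN, Nat.le_div_iff_mul_le hu1p]
      omega
    have h10 : a % u1 + N * u1 = a := by
      rw [hN]
      have := Nat.mod_add_div a u1
      rw [mul_comm] at this
      exact this
    refine ⟨j, Finset.mem_range.2 (Nat.lt_succ_of_le h9), ?_⟩
    ext i
    fin_cases i
    · show (_ : Fin 2 →₀ ℕ) 0 = m 0
      rw [e0]
      have h11 : (N - j) * u1 + j * u1 = N * u1 := by
        rw [← add_mul, Nat.sub_add_cancel h9]
      omega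
    · show (_ : Fin 2 →₀ ℕ) 1 = m 1
      rw [e1, hd, hj, mul_comm]
  refine ⟨Finsupp.single 0 (a % u1) + Finsupp.single 1 b, Finsupp.single 0 u1, Finsupp.single 1 u0, N,
    fun j => P.coeff ((Finsupp.single 0 (a % u1) + Finsupp.single 1 b : Fin 2 →₀ ℕ) +
      (N - j) • (Finsupp.single 0 u1 : Fin 2 →₀ ℕ) + j • (Finsupp.single 1 u0 : Fin 2 →₀ ℕ)), ?_, ?_⟩
  · intro h
    have := DFunLike.congr_fun h 0
    simp at this
    omega
  · ext m
    rw [MvPolynomial.coeff_sum]
    simp_rw [MvPolynomial.coeff_monomial]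
    by_cases hm : ∃ j ∈ Finset.range (N + 1),
      ((Finsupp.single 0 (a % u1) + Finsupp.single 1 b : Fin 2 →₀ ℕ) +
      (N - j) • (Finsupp.single 0 u1 : Fin 2 →₀ ℕ) + j • (Finsupp.single 1 u0 : Fin 2 →₀ ℕ)) = m
    · obtain ⟨j0, hj0, hj⟩ := hm
      rw [Finset.sum_eq_single j0]
      · rw [if_pos hj, hj]
      · intro j _ hjj
        rw [if_neg]
        intro h
        apply hjj
        have h1 := DFunLike.congr_fun (h.trans hj.symm) 1
        rw [e1, e1] at h1
        have h2 : j * u0 = j0 * u0 := by omega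
        exact Nat.eq_of_mul_eq_mul_right hu0p h2
      · intro h
        exact absurd hj0 h
    · have h0 : MvPolynomial.coeff m P = 0 := by
        by_contra h
        exact hm (hin m (MvPolynomial.mem_support_iff.2 h))
      rw [h0]
      symm
      apply Finset.sum_eq_zero
      intro j hj
      rw [if_neg]
      intro h
      exact hm ⟨j, hj, h⟩

/-! ### mDf -/

theorem dpow_diff {n : ℕ} (m : Fin n →₀ ℕ) (g : (Fin n → ℂ) → ℂ) (hg : Differentiable ℂ g) :
    Differentiable ℂ (dpow m g) := by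
  obtain ⟨c, -, hc⟩ := taylor g hg
  exact ser_diff _ _ (ser_dpow m c g hc)


theorem dpow_add {n : ℕ} (l m : Fin n →₀ ℕ) (g : (Fin n → ℂ) → ℂ) (hg : Differentiable ℂ g) :
    dpow (l + m) g = dpow l (dpow m g) := by
  obtain ⟨c, -, hc⟩ := taylor g hg
  funext z
  have h1 := ser_dpow (l + m) c g hc z
  have h2 := ser_dpow l _ (dpow m g) (ser_dpow m c g hc) z
  have hfac : ∀ β : Fin n → ℕ, (fac β : ℂ) ≠ 0 := by
    intro β
    rw [Nat.cast_ne_zero]
    unfold fac
    exact Finset.prod_ne_zero_iff.mpr (fun i _ => Nat.factorial_ne_zero _)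
  refine h1.unique ?_
  convert h2 using 2 with β
  have e1 : (fun i => β i + (l + m) i) = (fun i => β i + l i + m i) := by
    funext i
    rw [Finsupp.add_apply, add_assoc]
  simp only [e1]
  have h3 := hfac (fun i => β i + l i)
  field_simp

/-! ### mDs -/

theorem mDs_dpow_sum_ser {n : ℕ} {ι : Type} (s : Finset ι) (c : ι → ℂ)
    (C : ι → (Fin n → ℕ) → ℂ) (g : ι → (Fin n → ℂ) → ℂ) (hg : ∀ i, Ser (C i) (g i)) :
    Ser (fun α => ∑ i ∈ s, c i * C i α) (fun z => ∑ i ∈ s, c i * g i z) := by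
  intro z
  have h1 : HasSum (fun α : Fin n → ℕ => ∑ i ∈ s, c i * (C i α * ∏ j, z j ^ α j))
      (∑ i ∈ s, c i * g i z) := hasSum_sum fun i _ => (hg i z).mul_left (c i)
  have e : (fun α : Fin n → ℕ => (∑ i ∈ s, c i * C i α) * ∏ j, z j ^ α j) =
      (fun α : Fin n → ℕ => ∑ i ∈ s, c i * (C i α * ∏ j, z j ^ α j)) := by
    funext α
    rw [Finset.sum_mul]
    exact Finset.sum_congr rfl fun i _ => by ring
  show HasSum (fun α : Fin n → ℕ => (∑ i ∈ s, c i * C i α) * ∏ j, z j ^ α j) _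
  rw [e]
  exact h1

theorem dpow_sum {n : ℕ} {ι : Type} (s : Finset ι) (c : ι → ℂ) (m : Fin n →₀ ℕ)
    (g : ι → (Fin n → ℂ) → ℂ) (hg : ∀ i, Differentiable ℂ (g i)) :
    dpow m (fun z => ∑ i ∈ s, c i * g i z) = fun z => ∑ i ∈ s, c i * dpow m (g i) z := by
  choose C _ hC using fun i => taylor (g i) (hg i)
  have h1 := ser_dpow m _ _ (mDs_dpow_sum_ser s c C g hC)
  have h2 := mDs_dpow_sum_ser s c _ _ (fun i => ser_dpow m _ _ (hC i))
  funext z
  refine (h1 z).unique ?_
  have h3 := h2 z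
  convert h3 using 2 with β
  beta_reduce
  rw [Finset.mul_sum]
  congr 1
  exact Finset.sum_congr rfl fun i _ => by ring

/-! ### mDm -/

theorem mDm_hz_dm_coef {n : ℕ} (m : Fin n →₀ ℕ) (P : MvPolynomial (Fin n) ℂ)
    (h : ∀ l ∈ P.support, ∀ i, m i = 0 ∨ l i = 0) (c : (Fin n → ℕ) → ℂ) :
    (fun β : Fin n → ℕ => ((fac (fun i => β i + m i) : ℂ) / (fac β : ℂ)) * mulc P c (fun i => β i + m i))
      = mulc P (fun β : Fin n → ℕ => ((fac (fun i => β i + m i) : ℂ) / (fac β : ℂ)) * c (fun i => β i + m i)) := by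
  have hfac : ∀ γ : Fin n → ℕ, (fac γ : ℂ) ≠ 0 := by
    intro γ
    have : 0 < fac γ := Finset.prod_pos fun i _ => Nat.factorial_pos _
    exact_mod_cast this.ne'
  funext β
  unfold mulc
  rw [Finset.mul_sum]
  refine Finset.sum_congr rfl fun l hl => ?_
  have hml := h l hl
  by_cases hle : ∀ i, l i ≤ β i
  · have hle' : ∀ i, l i ≤ β i + m i := fun i => (hle i).trans (Nat.le_add_right _ _)
    rw [if_pos hle', if_pos hle]
    have e1 : (fun i => β i + m i - l i) = (fun i => β i - l i + m i) := by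
      funext i
      have := hle i
      omega
    have e2 : fac (fun i => β i + m i) * fac (fun i => β i - l i) = fac (fun i => β i - l i + m i) * fac β := by
      unfold fac
      rw [← Finset.prod_mul_distrib, ← Finset.prod_mul_distrib]
      refine Finset.prod_congr rfl fun i _ => ?_
      rcases hml i with h0 | h0
      · simp [h0, mul_comm]
      · simp [h0]
    have e3 : (fac (fun i => β i + m i) : ℂ) / (fac β : ℂ)
        = (fac (fun i => β i - l i + m i) : ℂ) / (fac (fun i => β i - l i) : ℂ) := by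
      rw [div_eq_div_iff (hfac _) (hfac _)]
      exact_mod_cast e2
    rw [e1, e3]
    ring
  · have hle' : ¬ ∀ i, l i ≤ β i + m i := by
      intro hc
      apply hle
      intro i
      have h1 := hc i
      rcases hml i with h0 | h0 <;> omega
    rw [if_neg hle', if_neg hle, mul_zero]

/-- `D^m` commutes with the multiplication by a polynomial in other variables -/
theorem dpow_mulP {n : ℕ} (m : Fin n →₀ ℕ) (P : MvPolynomial (Fin n) ℂ)
    (h : ∀ l ∈ P.support, ∀ i, m i = 0 ∨ l i = 0) (g : (Fin n → ℂ) → ℂ)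
    (hg : Differentiable ℂ g) :
    dpow m (fun w => MvPolynomial.eval w P * g w) =
      fun w => MvPolynomial.eval w P * dpow m g w := by
  obtain ⟨c, -, hc⟩ := taylor g hg
  have h1 := ser_dpow m (mulc P c) (fun w => MvPolynomial.eval w P * g w) (ser_mul P c g hc)
  have h2 := ser_mul P _ _ (ser_dpow m c g hc)
  rw [← mDm_hz_dm_coef m P h c] at h2
  funext z
  exact (h1 z).unique (h2 z)

/-! ### mOm -/

theorem mOm_op_mul_add_aux {n : ℕ} (d : (Fin n →₀ ℕ) → ℂ) (A B : MvPolynomial (Fin n) ℂ) :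
    ∑ s ∈ (A + B).support, (starRingEnd ℂ) ((A + B).coeff s) * d s =
      ∑ s ∈ A.support, (starRingEnd ℂ) (A.coeff s) * d s +
      ∑ s ∈ B.support, (starRingEnd ℂ) (B.coeff s) * d s := by
  classical
  have hgen : ∀ (R : MvPolynomial (Fin n) ℂ) (S : Finset (Fin n →₀ ℕ)), R.support ⊆ S →
      ∑ s ∈ R.support, (starRingEnd ℂ) (R.coeff s) * d s =
      ∑ s ∈ S, (starRingEnd ℂ) (R.coeff s) * d s := by
    intro R S hS
    apply Finset.sum_subset hS
    intro x _ hx
    rw [MvPolynomial.notMem_support_iff.mp hx, map_zero, zero_mul]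
  rw [hgen (A + B) (A.support ∪ B.support) MvPolynomial.support_add,
    hgen A (A.support ∪ B.support) Finset.subset_union_left,
    hgen B (A.support ∪ B.support) Finset.subset_union_right, ← Finset.sum_add_distrib]
  apply Finset.sum_congr rfl
  intro s _
  rw [MvPolynomial.coeff_add, map_add, add_mul]

noncomputable def mOm_op_mul_hom {n : ℕ} (d : (Fin n →₀ ℕ) → ℂ) : MvPolynomial (Fin n) ℂ →+ ℂ where
  toFun A := ∑ s ∈ A.support, (starRingEnd ℂ) (A.coeff s) * d s
  map_zero' := by simp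
  map_add' := mOm_op_mul_add_aux d

theorem mOm_op_mul_hom_monomial {n : ℕ} (d : (Fin n →₀ ℕ) → ℂ) (s : Fin n →₀ ℕ) (a : ℂ) :
    mOm_op_mul_hom d (MvPolynomial.monomial s a) = (starRingEnd ℂ) a * d s := by
  classical
  show ∑ t ∈ (MvPolynomial.monomial s a).support,
    (starRingEnd ℂ) ((MvPolynomial.monomial s a).coeff t) * d t = _
  by_cases ha : a = 0
  · simp [ha]
  · rw [MvPolynomial.support_monomial, if_neg ha, Finset.sum_singleton,
      MvPolynomial.coeff_monomial, if_pos rfl]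

/-- `(P Q)*(D) = P*(D) Q*(D)` -/
theorem op_mul {n : ℕ} (P Q : MvPolynomial (Fin n) ℂ) (g : (Fin n → ℂ) → ℂ)
    (hg : Differentiable ℂ g) (z : Fin n → ℂ) :
    ∑ s ∈ (P * Q).support, (starRingEnd ℂ) ((P * Q).coeff s) * dpow s g z =
      ∑ l ∈ P.support, (starRingEnd ℂ) (P.coeff l) *
        dpow l (fun w => ∑ m ∈ Q.support, (starRingEnd ℂ) (Q.coeff m) * dpow m g w) z := by
  have h1 : P * Q = ∑ l ∈ P.support, ∑ m ∈ Q.support,
      MvPolynomial.monomial (l + m) (P.coeff l * Q.coeff m) := by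
    conv_lhs => rw [P.as_sum, Q.as_sum]
    rw [Finset.sum_mul_sum]
    apply Finset.sum_congr rfl
    intro l _
    apply Finset.sum_congr rfl
    intro m _
    rw [MvPolynomial.monomial_mul]
  have h2 : ∑ s ∈ (P * Q).support, (starRingEnd ℂ) ((P * Q).coeff s) * dpow s g z =
      mOm_op_mul_hom (fun s => dpow s g z) (P * Q) := rfl
  rw [h2]
  conv_lhs => rw [h1]
  rw [map_sum]
  apply Finset.sum_congr rfl
  intro l _
  rw [map_sum, dpow_sum Q.support (fun m => (starRingEnd ℂ) (Q.coeff m)) l (fun m => dpow m g)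
    (fun m => dpow_diff m g hg), Finset.mul_sum]
  apply Finset.sum_congr rfl
  intro m _
  rw [mOm_op_mul_hom_monomial, map_mul, dpow_add l m g hg]
  ring

/-! ### mTm -/

theorem tp_mul {n : ℕ} (P Q : MvPolynomial (Fin n) ℂ)
    (h : ∀ l ∈ P.support, ∀ m ∈ Q.support, ∀ i, l i = 0 ∨ m i = 0)
    (f : (Fin n → ℂ) → ℂ) (hf : Differentiable ℂ f) :
    Tmap (P * Q) f = Tmap P (Tmap Q f) := by
  have hpoly : ∀ R : MvPolynomial (Fin n) ℂ, Differentiable ℂ (fun w : Fin n → ℂ => MvPolynomial.eval w R) := by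
    intro R
    induction R using MvPolynomial.induction_on with
    | C a => simp
    | add p q hp hq =>
      simp only [map_add]
      exact hp.add hq
    | mul_X p i hp =>
      simp only [map_mul, MvPolynomial.eval_X]
      exact hp.mul (differentiable_apply i)
  have hg : Differentiable ℂ (fun w : Fin n → ℂ => MvPolynomial.eval w (P * Q) * f w) :=
    (hpoly (P * Q)).mul hf
  have hQf : Differentiable ℂ (fun w : Fin n → ℂ => MvPolynomial.eval w Q * f w) :=
    (hpoly Q).mul hf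
  funext z
  have e1 : Tmap (P * Q) f z = ∑ l ∈ P.support, (starRingEnd ℂ) (P.coeff l) *
        dpow l (fun w => ∑ m ∈ Q.support, (starRingEnd ℂ) (Q.coeff m) *
          dpow m (fun w : Fin n → ℂ => MvPolynomial.eval w (P * Q) * f w) w) z :=
    op_mul P Q _ hg z
  rw [e1]
  have e2 : (fun w => ∑ m ∈ Q.support, (starRingEnd ℂ) (Q.coeff m) *
          dpow m (fun w : Fin n → ℂ => MvPolynomial.eval w (P * Q) * f w) w) =
      fun w => MvPolynomial.eval w P * Tmap Q f w := by
    funext w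
    unfold Tmap
    rw [Finset.mul_sum]
    apply Finset.sum_congr rfl
    intro m hm
    have e3 : (fun w : Fin n → ℂ => MvPolynomial.eval w (P * Q) * f w) =
        fun w => MvPolynomial.eval w P * (MvPolynomial.eval w Q * f w) := by
      funext w
      rw [map_mul]
      ring
    rw [e3, dpow_mulP m P (fun l hl i => (h l hl m hm i).symm) _ hQf]
    ring
  rw [e2]
  rfl

/-! ### oBa -/

theorem op_add {n : ℕ} (P Q : MvPolynomial (Fin n) ℂ) (g : (Fin n → ℂ) → ℂ) :
    op (P + Q) g = fun z => op P g z + op Q g z := by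
  classical
  funext z
  unfold op
  have key : ∀ (R : MvPolynomial (Fin n) ℂ) (S : Finset (Fin n →₀ ℕ)), R.support ⊆ S →
      ∑ m ∈ R.support, (starRingEnd ℂ) (R.coeff m) * dpow m g z =
        ∑ m ∈ S, (starRingEnd ℂ) (R.coeff m) * dpow m g z := by
    intro R S hS
    refine Finset.sum_subset hS fun m _ hm => ?_
    rw [MvPolynomial.notMem_support_iff.1 hm, map_zero, zero_mul]
  rw [key (P + Q) (P.support ∪ Q.support) MvPolynomial.support_add,
    key P (P.support ∪ Q.support) Finset.subset_union_left,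
    key Q (P.support ∪ Q.support) Finset.subset_union_right, ← Finset.sum_add_distrib]
  refine Finset.sum_congr rfl fun m _ => ?_
  rw [MvPolynomial.coeff_add, map_add]
  ring

theorem oBa_op_dpow_zero {n : ℕ} (g : (Fin n → ℂ) → ℂ) : dpow (0 : Fin n →₀ ℕ) g = g := by
  unfold dpow
  induction List.finRange n with
  | nil => rfl
  | cons j l ih => rw [List.foldr_cons, ih]; rfl

theorem op_C {n : ℕ} (a : ℂ) (g : (Fin n → ℂ) → ℂ) :
    op (MvPolynomial.C a : MvPolynomial (Fin n) ℂ) g = fun z => (starRingEnd ℂ) a * g z := by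
  classical
  funext z
  unfold op
  by_cases ha : a = 0
  · subst ha
    simp
  · have h1 : (MvPolynomial.C a : MvPolynomial (Fin n) ℂ).support = {0} := by
      rw [MvPolynomial.C_apply, MvPolynomial.support_monomial, if_neg ha]
    rw [h1, Finset.sum_singleton, oBa_op_dpow_zero]
    simp

theorem oBa_op_foldr_notMem {n : ℕ} (i : Fin n) (g : (Fin n → ℂ) → ℂ) (l : List (Fin n)) (h : i ∉ l) :
    l.foldr (fun (j : Fin n) (g : (Fin n → ℂ) → ℂ) =>
      (pd j)^[(Finsupp.single i 1 : Fin n →₀ ℕ) j] g) g = g := by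
  induction l with
  | nil => rfl
  | cons j l ih =>
    rw [List.mem_cons, not_or] at h
    rw [List.foldr_cons, ih h.2, Finsupp.single_eq_of_ne (Ne.symm h.1)]
    rfl

theorem oBa_op_foldr_mem {n : ℕ} (i : Fin n) (g : (Fin n → ℂ) → ℂ) (l : List (Fin n)) (hn : l.Nodup)
    (h : i ∈ l) :
    l.foldr (fun (j : Fin n) (g : (Fin n → ℂ) → ℂ) =>
      (pd j)^[(Finsupp.single i 1 : Fin n →₀ ℕ) j] g) g = pd i g := by
  induction l with
  | nil => simp at h
  | cons j l ih =>
    rw [List.nodup_cons] at hn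
    rw [List.foldr_cons]
    by_cases hij : i = j
    · subst hij
      rw [oBa_op_foldr_notMem i g l hn.1, Finsupp.single_eq_same]
      rfl
    · rw [ih hn.2 ((List.mem_cons.1 h).resolve_left hij), Finsupp.single_eq_of_ne (Ne.symm hij)]
      rfl

theorem op_X {n : ℕ} (i : Fin n) (g : (Fin n → ℂ) → ℂ) :
    op (MvPolynomial.X i) g = pd i g := by
  classical
  funext z
  unfold op
  rw [MvPolynomial.support_X, Finset.sum_singleton, MvPolynomial.coeff_X, if_pos rfl, map_one, one_mul]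
  unfold dpow
  rw [oBa_op_foldr_mem i g _ (List.nodup_finRange n) (List.mem_finRange i)]

/-! ### oCm -/

theorem op_comp {n : ℕ} (P Q : MvPolynomial (Fin n) ℂ) (g : (Fin n → ℂ) → ℂ)
    (hg : Differentiable ℂ g) : op (P * Q) g = op P (op Q g) := by
  funext z
  exact op_mul P Q g hg z

theorem op_diff {n : ℕ} (P : MvPolynomial (Fin n) ℂ) (g : (Fin n → ℂ) → ℂ)
    (hg : Differentiable ℂ g) : Differentiable ℂ (op P g) := by
  unfold op
  apply Differentiable.fun_sum
  intro m _
  exact (dpow_diff m g hg).const_mul _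

/-! ### oPd -/

/-- helper: the linear form -/
noncomputable def oPd_ef_diff_lam {n : ℕ} (U : Matrix (Fin n) (Fin n) ℂ) (a : Fin n → ℂ) :
    (Fin n → ℂ) →L[ℂ] ℂ :=
  ∑ j, (∑ i, U i j * (starRingEnd ℂ) (a i)) • (ContinuousLinearMap.proj j : (Fin n → ℂ) →L[ℂ] ℂ)

/-- helper: the linear map -/
noncomputable def oPd_ef_diff_A {n : ℕ} (U : Matrix (Fin n) (Fin n) ℂ) :
    (Fin n → ℂ) →L[ℂ] (Fin n → ℂ) :=
  ContinuousLinearMap.pi (fun i => ∑ j, U i j • (ContinuousLinearMap.proj j : (Fin n → ℂ) →L[ℂ] ℂ))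

theorem oPd_ef_diff_lam_apply {n : ℕ} (U : Matrix (Fin n) (Fin n) ℂ) (a z : Fin n → ℂ) :
    oPd_ef_diff_lam U a z = ∑ j, (∑ i, U i j * (starRingEnd ℂ) (a i)) * z j := by
  unfold oPd_ef_diff_lam
  rw [ContinuousLinearMap.sum_apply]
  rfl

theorem oPd_ef_diff_A_apply {n : ℕ} (U : Matrix (Fin n) (Fin n) ℂ) (z : Fin n → ℂ) (i : Fin n) :
    oPd_ef_diff_A U z i = ∑ j, U i j * z j := by
  unfold oPd_ef_diff_A
  rw [ContinuousLinearMap.pi_apply, ContinuousLinearMap.sum_apply]
  rfl

theorem oPd_ef_diff_ef {n : ℕ} (U : Matrix (Fin n) (Fin n) ℂ) (a z : Fin n → ℂ) :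
    HasFDerivAt (ef U a) (ef U a z • (-(oPd_ef_diff_lam U a))) z := by
  have h1 : HasFDerivAt (fun w => -(oPd_ef_diff_lam U a w)) (-(oPd_ef_diff_lam U a)) z :=
    (oPd_ef_diff_lam U a).hasFDerivAt.neg
  have h2 := h1.cexp
  have e : ef U a = fun w => Complex.exp (-(oPd_ef_diff_lam U a w)) := by
    funext w
    rw [oPd_ef_diff_lam_apply]
    rfl
  rw [e]
  exact h2

theorem oPd_ef_diff_aff {n : ℕ} (U : Matrix (Fin n) (Fin n) ℂ) (a z : Fin n → ℂ) :
    HasFDerivAt (aff U a) (oPd_ef_diff_A U) z := by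
  have h1 := (oPd_ef_diff_A U).hasFDerivAt (x := z) |>.add_const a
  have e : aff U a = fun w => oPd_ef_diff_A U w + a := by
    funext w i
    rw [Pi.add_apply, oPd_ef_diff_A_apply]
    rfl
  rw [e]
  exact h1

theorem oPd_ef_diff_has {n : ℕ} (U : Matrix (Fin n) (Fin n) ℂ) (a : Fin n → ℂ)
    (F : (Fin n → ℂ) → ℂ) (hF : Differentiable ℂ F) (z : Fin n → ℂ) :
    HasFDerivAt (fun z => ef U a z * F (aff U a z))
      (ef U a z • ((fderiv ℂ F (aff U a z)).comp (oPd_ef_diff_A U)) +
        F (aff U a z) • (ef U a z • (-(oPd_ef_diff_lam U a)))) z := by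
  have h1 := oPd_ef_diff_ef U a z
  have h2 : HasFDerivAt (fun z => F (aff U a z)) ((fderiv ℂ F (aff U a z)).comp (oPd_ef_diff_A U)) z :=
    (hF (aff U a z)).hasFDerivAt.comp z (oPd_ef_diff_aff U a z)
  exact h1.mul h2

theorem ef_diff {n : ℕ} (U : Matrix (Fin n) (Fin n) ℂ) (a : Fin n → ℂ)
    (F : (Fin n → ℂ) → ℂ) (hF : Differentiable ℂ F) :
    Differentiable ℂ (fun z => ef U a z * F (aff U a z)) := by
  intro z
  exact (oPd_ef_diff_has U a F hF z).differentiableAt


theorem pd_ef {n : ℕ} (U : Matrix (Fin n) (Fin n) ℂ) (a : Fin n → ℂ)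
    (F : (Fin n → ℂ) → ℂ) (hF : Differentiable ℂ F) (j : Fin n) (z : Fin n → ℂ) :
    pd j (fun z => ef U a z * F (aff U a z)) z =
      ef U a z * (-(∑ i, U i j * (starRingEnd ℂ) (a i)) * F (aff U a z) +
        ∑ k, U k j * pd k F (aff U a z)) := by
  unfold pd
  rw [(oPd_ef_diff_has U a F hF z).fderiv]
  have hA : oPd_ef_diff_A U (Pi.single j (1 : ℂ)) = fun k => U k j := by
    funext k
    rw [oPd_ef_diff_A_apply, Finset.sum_eq_single j]
    · rw [Pi.single_eq_same, mul_one]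
    · intro i _ hij
      rw [Pi.single_eq_of_ne hij, mul_zero]
    · intro h
      exact absurd (Finset.mem_univ j) h
  have hl : oPd_ef_diff_lam U a (Pi.single j (1 : ℂ)) = ∑ i, U i j * (starRingEnd ℂ) (a i) := by
    rw [oPd_ef_diff_lam_apply, Finset.sum_eq_single j]
    · rw [Pi.single_eq_same, mul_one]
    · intro i _ hij
      rw [Pi.single_eq_of_ne hij, mul_zero]
    · intro h
      exact absurd (Finset.mem_univ j) h
  have hdec : (fun k => U k j) = ∑ k, U k j • (Pi.single k (1 : ℂ) : Fin n → ℂ) := by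
    funext i
    rw [Finset.sum_apply, Finset.sum_eq_single i]
    · rw [Pi.smul_apply, Pi.single_eq_same, smul_eq_mul, mul_one]
    · intro k _ hki
      rw [Pi.smul_apply, Pi.single_eq_of_ne hki.symm, smul_zero]
    · intro h
      exact absurd (Finset.mem_univ i) h
  have hF' : fderiv ℂ F (aff U a z) (fun k => U k j) =
      ∑ k, U k j * fderiv ℂ F (aff U a z) (Pi.single k (1 : ℂ)) := by
    rw [hdec, map_sum]
    apply Finset.sum_congr rfl
    intro k _
    rw [map_smul, smul_eq_mul]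
  have e1 : (ef U a z • ((fderiv ℂ F (aff U a z)).comp (oPd_ef_diff_A U)) +
        F (aff U a z) • (ef U a z • (-(oPd_ef_diff_lam U a)))) (Pi.single j (1 : ℂ)) =
      ef U a z * fderiv ℂ F (aff U a z) (oPd_ef_diff_A U (Pi.single j (1 : ℂ))) +
        F (aff U a z) * (ef U a z * (-(oPd_ef_diff_lam U a (Pi.single j (1 : ℂ))))) := rfl
  rw [e1, hA, hl, hF']
  ring

/-! ### oSu -/

theorem oSu_op_sub_lin {n : ℕ} (U : Matrix (Fin n) (Fin n) ℂ) (i : Fin n) (G : (Fin n → ℂ) → ℂ)
    (hG : Differentiable ℂ G) (s : Finset (Fin n)) :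
    op (∑ j ∈ s, MvPolynomial.C (U i j) * MvPolynomial.X j : MvPolynomial (Fin n) ℂ) G =
      fun z => ∑ j ∈ s, (starRingEnd ℂ) (U i j) * pd j G z := by
  classical
  induction s using Finset.induction_on with
  | empty => funext z; simp [op]
  | insert j s hj ih =>
    rw [Finset.sum_insert hj, op_add, ih]
    funext z
    rw [Finset.sum_insert hj, op_comp _ _ _ hG, op_C, op_X]

theorem oSu_op_sub_swap {n : ℕ} (U : Matrix (Fin n) (Fin n) ℂ) (c A : Fin n → ℂ) :
    ∑ l, (∑ j, c j * U l j) * A l = ∑ j, c j * ∑ l, U l j * A l := by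
  simp_rw [Finset.sum_mul, Finset.mul_sum]
  rw [Finset.sum_comm]
  simp only [mul_assoc]

theorem op_sub {n : ℕ} (U : Matrix (Fin n) (Fin n) ℂ) (hU : U ∈ Matrix.unitaryGroup (Fin n) ℂ)
    (a : Fin n → ℂ) (P : MvPolynomial (Fin n) ℂ) (F : (Fin n → ℂ) → ℂ)
    (hF : Differentiable ℂ F) :
    op (sub U a P) (fun z => ef U a z * F (aff U a z)) =
      fun z => ef U a z * op P F (aff U a z) := by
  induction P using MvPolynomial.induction_on generalizing F with
  | C b =>
    have h : sub U a (MvPolynomial.C b) = MvPolynomial.C b := by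
      unfold sub
      rw [MvPolynomial.bind₁_C_right]
    rw [h, op_C, op_C]
    funext z
    ring
  | add P Q hP hQ =>
    have h : sub U a (P + Q) = sub U a P + sub U a Q := by
      unfold sub
      rw [map_add]
    rw [h, op_add, op_add, hP F hF, hQ F hF]
    funext z
    ring
  | mul_X P i hP =>
    have h : sub U a (P * MvPolynomial.X i) = sub U a P *
        (∑ j, MvPolynomial.C (U i j) * MvPolynomial.X j + MvPolynomial.C (a i)) := by
      unfold sub
      rw [map_mul, MvPolynomial.bind₁_X_right]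
    have hG := ef_diff U a F hF
    have hD : Differentiable ℂ (pd i F) := by
      rw [← op_X]
      exact op_diff _ _ hF
    have key : op (∑ j, MvPolynomial.C (U i j) * MvPolynomial.X j + MvPolynomial.C (a i))
        (fun z => ef U a z * F (aff U a z)) = fun z => ef U a z * pd i F (aff U a z) := by
      rw [op_add, oSu_op_sub_lin U i _ hG, op_C]
      funext z
      have hδ : ∀ k, ∑ j, (starRingEnd ℂ) (U i j) * U k j = if k = i then 1 else 0 := by
        intro k
        have h1 : U * star U = 1 := (Matrix.mem_unitaryGroup_iff).1 hU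
        have h2 := congrFun (congrFun h1 k) i
        rw [Matrix.mul_apply, Matrix.one_apply] at h2
        rw [← h2]
        apply Finset.sum_congr rfl
        intro j _
        rw [Matrix.star_apply, mul_comm]
        rfl
      have e0 : ∀ j, (starRingEnd ℂ) (U i j) * pd j (fun z => ef U a z * F (aff U a z)) z =
          (starRingEnd ℂ) (U i j) * (ef U a z *
            (-(∑ l, U l j * (starRingEnd ℂ) (a l)) * F (aff U a z) +
              ∑ k, U k j * pd k F (aff U a z))) := by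
        intro j
        rw [pd_ef U a F hF j z]
      simp only [e0]
      have s1 := oSu_op_sub_swap U (fun j => (starRingEnd ℂ) (U i j)) (fun l => (starRingEnd ℂ) (a l))
      have s2 := oSu_op_sub_swap U (fun j => (starRingEnd ℂ) (U i j)) (fun k => pd k F (aff U a z))
      simp only [hδ] at s1 s2
      simp only [ite_mul, one_mul, zero_mul, Finset.sum_ite_eq', Finset.mem_univ, if_true] at s1 s2
      have e2 : ∑ j, (starRingEnd ℂ) (U i j) * (ef U a z *
            (-(∑ l, U l j * (starRingEnd ℂ) (a l)) * F (aff U a z) +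
              ∑ k, U k j * pd k F (aff U a z))) =
          ef U a z * (-(∑ j, (starRingEnd ℂ) (U i j) * ∑ l, U l j * (starRingEnd ℂ) (a l)) *
            F (aff U a z) + ∑ j, (starRingEnd ℂ) (U i j) * ∑ k, U k j * pd k F (aff U a z)) := by
        rw [← Finset.sum_neg_distrib, Finset.sum_mul, ← Finset.sum_add_distrib, Finset.mul_sum]
        apply Finset.sum_congr rfl
        intro j _
        ring
      rw [e2, ← s1, ← s2]
      ring
    rw [h, op_comp _ _ _ hG, key, hP _ hD, op_comp _ _ _ hF, op_X]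

/-! ### oTa -/

theorem oTa_tp_affine_eval {n : ℕ} (U : Matrix (Fin n) (Fin n) ℂ) (a : Fin n → ℂ)
    (P : MvPolynomial (Fin n) ℂ) (w : Fin n → ℂ) :
    MvPolynomial.eval w (sub U a P) = MvPolynomial.eval (aff U a w) P := by
  unfold sub
  induction P using MvPolynomial.induction_on with
  | C c => simp
  | add p q hp hq => rw [map_add, map_add, map_add, hp, hq]
  | mul_X p i hp =>
    rw [map_mul, map_mul, map_mul, hp, MvPolynomial.bind₁_X_right, MvPolynomial.eval_X]
    congr 1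
    simp [aff]

theorem oTa_tp_affine_diff {n : ℕ} (P : MvPolynomial (Fin n) ℂ) :
    Differentiable ℂ (fun w : Fin n → ℂ => MvPolynomial.eval w P) := by
  induction P using MvPolynomial.induction_on with
  | C c => simp
  | add p q hp hq =>
    have e : (fun w : Fin n → ℂ => MvPolynomial.eval w (p + q)) =
        fun w => MvPolynomial.eval w p + MvPolynomial.eval w q := by
      funext w; rw [map_add]
    rw [e]
    exact hp.add hq
  | mul_X p i hp =>
    have e : (fun w : Fin n → ℂ => MvPolynomial.eval w (p * MvPolynomial.X i)) =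
        fun w => MvPolynomial.eval w p * w i := by
      funext w; rw [map_mul, MvPolynomial.eval_X]
    rw [e]
    exact hp.mul (differentiable_apply i)

theorem tp_affine {n : ℕ} (U : Matrix (Fin n) (Fin n) ℂ)
    (hU : U ∈ Matrix.unitaryGroup (Fin n) ℂ) (a : Fin n → ℂ) (P : MvPolynomial (Fin n) ℂ)
    (F : (Fin n → ℂ) → ℂ) (hF : Differentiable ℂ F) :
    Tmap (sub U a P) (fun z => ef U a z * F (aff U a z)) =
      fun z => ef U a z * Tmap P F (aff U a z) := by
  have h1 := op_sub U hU a P (fun w => MvPolynomial.eval w P * F w) ((oTa_tp_affine_diff P).mul hF)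
  have e1 : Tmap (sub U a P) (fun z => ef U a z * F (aff U a z)) =
      op (sub U a P) (fun w => MvPolynomial.eval w (sub U a P) *
        (ef U a w * F (aff U a w))) := rfl
  have e2 : (fun w => MvPolynomial.eval w (sub U a P) * (ef U a w * F (aff U a w))) =
      fun z => ef U a z * ((fun w => MvPolynomial.eval w P * F w) (aff U a z)) := by
    funext w
    rw [oTa_tp_affine_eval]
    ring
  rw [e1, e2, h1]
  rfl

/-! ### oAs -/

/-- the inverse of `aff` -/
noncomputable def oAs_affInv {n : ℕ} (U : Matrix (Fin n) (Fin n) ℂ) (a : Fin n → ℂ)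
    (w : Fin n → ℂ) : Fin n → ℂ :=
  (star U).mulVec (w - a)

theorem oAs_aff_eq {n : ℕ} (U : Matrix (Fin n) (Fin n) ℂ) (a z : Fin n → ℂ) :
    aff U a z = U.mulVec z + a := by
  funext i
  simp [aff, Matrix.mulVec, dotProduct]

theorem oAs_aff_affInv {n : ℕ} (U : Matrix (Fin n) (Fin n) ℂ)
    (hU : U ∈ Matrix.unitaryGroup (Fin n) ℂ) (a w : Fin n → ℂ) : aff U a (oAs_affInv U a w) = w := by
  rw [oAs_aff_eq, oAs_affInv, Matrix.mulVec_mulVec, (Matrix.mem_unitaryGroup_iff).1 hU, Matrix.one_mulVec]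
  simp

theorem oAs_affInv_aff {n : ℕ} (U : Matrix (Fin n) (Fin n) ℂ)
    (hU : U ∈ Matrix.unitaryGroup (Fin n) ℂ) (a z : Fin n → ℂ) : oAs_affInv U a (aff U a z) = z := by
  rw [oAs_aff_eq, oAs_affInv, add_sub_cancel_right, Matrix.mulVec_mulVec,
    (Matrix.mem_unitaryGroup_iff').1 hU, Matrix.one_mulVec]

theorem oAs_affInv_diff {n : ℕ} (U : Matrix (Fin n) (Fin n) ℂ) (a : Fin n → ℂ) :
    Differentiable ℂ (oAs_affInv U a) := by
  rw [differentiable_pi]
  intro i
  have h : (fun w : Fin n → ℂ => oAs_affInv U a w i) = fun w => ∑ j, (star U) i j * (w j - a j) := by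
    funext w
    simp [oAs_affInv, Matrix.mulVec, dotProduct]
  rw [h]
  fun_prop

theorem oAs_ef_ne {n : ℕ} (U : Matrix (Fin n) (Fin n) ℂ) (a z : Fin n → ℂ) : ef U a z ≠ 0 :=
  Complex.exp_ne_zero _

theorem oAs_ef_diff {n : ℕ} (U : Matrix (Fin n) (Fin n) ℂ) (a : Fin n → ℂ) :
    Differentiable ℂ (ef U a) := by
  unfold ef
  fun_prop

/-- every entire function is of the form `ef * F ∘ aff` -/
theorem aff_surj {n : ℕ} (U : Matrix (Fin n) (Fin n) ℂ)
    (hU : U ∈ Matrix.unitaryGroup (Fin n) ℂ) (a : Fin n → ℂ) (f : (Fin n → ℂ) → ℂ)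
    (hf : Differentiable ℂ f) :
    ∃ F : (Fin n → ℂ) → ℂ, Differentiable ℂ F ∧ f = fun z => ef U a z * F (aff U a z) := by
  refine ⟨fun w => (ef U a (oAs_affInv U a w))⁻¹ * f (oAs_affInv U a w), ?_, ?_⟩
  · have h1 : Differentiable ℂ (fun w => ef U a (oAs_affInv U a w)) :=
      (oAs_ef_diff U a).comp (oAs_affInv_diff U a)
    have h2 : Differentiable ℂ (fun w => f (oAs_affInv U a w)) := hf.comp (oAs_affInv_diff U a)
    exact (h1.inv (fun w => oAs_ef_ne U a _)).mul h2
  · funext z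
    simp only [oAs_affInv_aff U hU a z]
    rw [← mul_assoc, mul_inv_cancel₀ (oAs_ef_ne U a z), one_mul]

theorem aff_inj {n : ℕ} (U : Matrix (Fin n) (Fin n) ℂ)
    (hU : U ∈ Matrix.unitaryGroup (Fin n) ℂ) (a : Fin n → ℂ) (F G : (Fin n → ℂ) → ℂ)
    (h : (fun z => ef U a z * F (aff U a z)) = fun z => ef U a z * G (aff U a z)) : F = G := by
  funext w
  have h1 := congrFun h (oAs_affInv U a w)
  simp only [oAs_aff_affInv U hU a w] at h1
  exact mul_left_cancel₀ (oAs_ef_ne U a _) h1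

/-! ### oBj -/

theorem bij_affine {n : ℕ} (U : Matrix (Fin n) (Fin n) ℂ)
    (hU : U ∈ Matrix.unitaryGroup (Fin n) ℂ) (a : Fin n → ℂ) (P : MvPolynomial (Fin n) ℂ)
    (h : Set.BijOn (Tmap P) {f | Differentiable ℂ f} {f | Differentiable ℂ f}) :
    Set.BijOn (Tmap (sub U a P)) {f | Differentiable ℂ f} {f | Differentiable ℂ f} := by
  refine ⟨?_, ?_, ?_⟩
  · intro f hf
    obtain ⟨F, hF, rfl⟩ := aff_surj U hU a f hf
    show Differentiable ℂ _
    rw [tp_affine U hU a P F hF]
    exact ef_diff U a _ (h.mapsTo hF)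
  · intro f₁ h₁ f₂ h₂ he
    obtain ⟨F₁, hF₁, rfl⟩ := aff_surj U hU a f₁ h₁
    obtain ⟨F₂, hF₂, rfl⟩ := aff_surj U hU a f₂ h₂
    rw [tp_affine U hU a P F₁ hF₁, tp_affine U hU a P F₂ hF₂] at he
    have e := aff_inj U hU a (Tmap P F₁) (Tmap P F₂) he
    have e2 := h.injOn hF₁ hF₂ e
    rw [e2]
  · intro g hg
    obtain ⟨G, hG, rfl⟩ := aff_surj U hU a g hg
    obtain ⟨F, hF, e⟩ := h.surjOn hG
    refine ⟨fun z => ef U a z * F (aff U a z), ef_diff U a F hF, ?_⟩
    rw [tp_affine U hU a P F hF, e]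

end Pool.Agent.Helper734.TP
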